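import Pool.Agent.Helper31.IPF.StripDefs

/-!
TH-P (MP_d2f54f_al), long-strip line: the coefficients of (L1), and the statements of the strip modules.
-/

namespace Pool.Agent.Helper31.IPF

variable {F : Type*} [Field F] {m : ℕ}

def Strip.a0 (g : Strip F m) : F :=
  g.T * (g.t - 1) ^ 2 * (1 - g.x) * (g.al * (1 - g.x) + (1 - g.al) * (1 - g.x'))
    - g.x * g.x' * (1 - g.al) * g.t * (g.T - 1) ^ 2
def Strip.a1 (g : Strip F m) : F := g.T * (g.t - 1) ^ 2 * (1 - g.x) * g.al * g.x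
def Strip.a2 (g : Strip F m) : F := g.x * g.t * (g.T - 1) * (g.t - 1) * g.de * (1 - g.x)
def Strip.a3 (g : Strip F m) : F := g.x ^ 2 * g.t * (g.T - 1) * (g.t - 1) * g.de
def Strip.a4 (g : Strip F m) : F := g.x * (g.T - g.t) * g.x' * g.al * (g.T - 1)
def Strip.a5 (g : Strip F m) : F := g.x * (g.T - g.t) * (1 - g.x') * g.de * (g.t - 1)

/-- (L1) in terms of the coefficients -/
theorem Strip.l1_coef (g : Strip F m) {k : ℕ} (hk : g.Good k) (hkm : k ≤ m) :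
    (g.a0 + g.a1 * g.s k) * (g.s k * g.t ^ k) + (g.a2 + g.a3 * g.s k) * g.T ^ k
      - g.a4 * (g.t ^ k) ^ 2 * g.s k - g.a5 * g.t ^ k * g.T ^ k = 0 := by
  have h := g.L1 k hk.1 hkm hk.2.1 hk.2.2
  rw [l1e] at h
  simp only [Strip.a0, Strip.a1, Strip.a2, Strip.a3, Strip.a4, Strip.a5]
  linear_combination h

theorem Strip.a3_ne (g : Strip F m) : g.a3 ≠ 0 := by
  have h1 := g.x_ne
  have h2 := g.t_ne
  have h3 := sub_ne_zero.2 g.T_ne1
  have h4 := sub_ne_zero.2 g.t_ne1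
  have h5 := g.de_ne
  simp [Strip.a3, h1, h2, h3, h4, h5]

theorem Strip.a4_ne (g : Strip F m) : g.a4 ≠ 0 := by
  have h1 := g.x_ne
  have h2 := g.x'_ne
  have h3 := sub_ne_zero.2 g.T_ne1
  have h4 := sub_ne_zero.2 g.T_net
  have h5 := g.al_ne
  simp [Strip.a4, h1, h2, h3, h4, h5]

/-- parameter relations of a `kp * t^k` run, case `T = t^2` -/
def Strip.ParA (g : Strip F m) (kp : F) : Prop :=
  g.a0 * kp + g.a2 = 0 ∧ g.a1 * kp ^ 2 + (g.a3 - g.a4) * kp - g.a5 = 0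

/-- parameter relations of a `kp * t^k` run, case `T = t^3` -/
def Strip.ParB (g : Strip F m) (kp : F) : Prop :=
  g.a0 = 0 ∧ g.a1 * kp ^ 2 + g.a2 = g.a4 * kp ∧ g.a3 * kp = g.a5

@[simp] theorem Strip.inv_good (g : Strip F m) (k : ℕ) : g.inv.Good k ↔ g.Good k := Iff.rfl

theorem Strip.inv_zero (g : Strip F m) {k : ℕ} (hk : k < m) (h : g.Zero k) : g.inv.Zero k := by
  obtain ⟨h1, h2, h3⟩ := h
  refine ⟨h1, h2, ?_⟩
  have e1 := g.s_ne k (by omega)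
  have e2 := g.s_ne (k + 1) (by omega)
  have e3 := g.t_ne
  have e4 := g.T_ne
  show g.T⁻¹ * (g.s k)⁻¹ = g.t⁻¹ * (g.s (k + 1))⁻¹
  field_simp
  linear_combination -h3

theorem Strip.inv_one (g : Strip F m) {k : ℕ} (hk : k < m) (h : g.One k) : g.inv.One k := by
  obtain ⟨h1, h2, h3⟩ := h
  refine ⟨h1, h2, ?_⟩
  have e1 := g.s_ne k (by omega)
  have e2 := g.s_ne (k + 1) (by omega)
  have e5 := pow_ne_zero k g.t_ne
  have e6 := pow_ne_zero k g.T_ne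
  show g.de * ((g.s k)⁻¹ * (g.s (k + 1))⁻¹) * (g.t⁻¹) ^ k = g.al * (g.T⁻¹) ^ k
  rw [inv_pow, inv_pow]
  field_simp
  linear_combination -h3

end Pool.Agent.Helper31.IPF
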