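import Pool.Agent.Helper31.IPF.Coef

/-!
TH-P long-strip line, M3: at most two degenerate columns.

PROOF.  For a degenerate `k`, `s = s k`, `s' = s (k+1)`, `g.deg` gives
`x s' = t x s + (t-1) xi` and `t s (xi' s' + x') = s' (xi' s + x')` (`xi = 1 - x`, `xi' = 1 - x'`).
Multiply the second by `x` and insert the first: after dividing by `t - 1`:
`t x xi' s^2 + (t-1) xi xi' s - xi x' = 0`.
Three distinct roots: `t x xi' = 0`, so `xi' = 0`, then `xi x' = 0`, so `xi = 0`.
-/

namespace Pool.Agent.Helper31.IPF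

variable {F : Type*} [Field F] {m : ℕ}

private theorem dg_quad (g : Strip F m) {k : ℕ} (hk : k < m) (h : g.kap k = 0) :
    g.t * g.x * (1 - g.x') * g.s k ^ 2 + (g.t - 1) * (1 - g.x) * (1 - g.x') * g.s k
      - (1 - g.x) * g.x' = 0 := by
  obtain ⟨h1, h2⟩ := g.deg k hk h
  have ht : g.t - 1 ≠ 0 := sub_ne_zero.2 g.t_ne1
  apply mul_left_cancel₀ ht
  rw [mul_zero]
  linear_combination g.x * h2 + ((1 - g.x') * g.s k + g.x' - g.t * g.s k * (1 - g.x')) * h1

private theorem dg_three {a b c u v w : F} (huv : u ≠ v) (huw : u ≠ w) (hvw : v ≠ w)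
    (h1 : a * u ^ 2 + b * u + c = 0) (h2 : a * v ^ 2 + b * v + c = 0)
    (h3 : a * w ^ 2 + b * w + c = 0) : a = 0 ∧ b = 0 ∧ c = 0 := by
  have e1 : a * (u + v) + b = 0 := by
    apply mul_left_cancel₀ (sub_ne_zero.2 huv)
    linear_combination h1 - h2
  have e2 : a * (u + w) + b = 0 := by
    apply mul_left_cancel₀ (sub_ne_zero.2 huw)
    linear_combination h1 - h3
  have ha : a = 0 := by
    apply mul_left_cancel₀ (sub_ne_zero.2 hvw)
    linear_combination e1 - e2
  have hb : b = 0 := by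
    rw [ha] at e1
    linear_combination e1
  refine ⟨ha, hb, ?_⟩
  rw [ha, hb] at h1
  linear_combination h1

theorem deg_le_two (g : Strip F m) (hx : g.x ≠ 1 ∨ g.x' ≠ 1) {i j k : ℕ} (hij : i < j) (hjk : j < k)
    (hk : k < m) (hi : g.kap i = 0) (hj : g.kap j = 0) (hk' : g.kap k = 0) : False := by
  have h1 := dg_quad g (k := i) (by omega) hi
  have h2 := dg_quad g (k := j) (by omega) hj
  have h3 := dg_quad g (k := k) (by omega) hk'
  have s1 := g.s_inj i j hij (by omega)
  have s2 := g.s_inj i k (by omega) (by omega)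
  have s3 := g.s_inj j k hjk (by omega)
  obtain ⟨ha, -, hc⟩ := dg_three (a := g.t * g.x * (1 - g.x'))
    (b := (g.t - 1) * (1 - g.x) * (1 - g.x')) (c := -((1 - g.x) * g.x')) s1 s2 s3
    (by linear_combination h1) (by linear_combination h2) (by linear_combination h3)
  have hx' : 1 - g.x' = 0 :=
    (mul_eq_zero.1 ha).resolve_left (mul_ne_zero g.t_ne g.x_ne)
  have hx0 : 1 - g.x = 0 := (mul_eq_zero.1 (neg_eq_zero.1 hc)).resolve_right g.x'_ne
  rcases hx with hx | hx
  · exact hx (by linear_combination -hx0)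
  · exact hx (by linear_combination -hx')

end Pool.Agent.Helper31.IPF
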