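import Mathlib

/-!
TH-P long-strip line: the polynomial core of the ROW LEMMA.
-/

namespace Pool.Agent.Helper31.IPF

open Polynomial

variable {F : Type*} [Field F]

private theorem rp_comp_deg {p : F[X]} {n : ℕ} (r : F) (hp : p.natDegree ≤ n) :
    (p.comp (C r * X)).natDegree ≤ n := by
  refine natDegree_comp_le.trans ?_
  have h1 : (C r * X : F[X]).natDegree ≤ 1 := by compute_degree
  calc p.natDegree * (C r * X : F[X]).natDegree ≤ n * 1 := Nat.mul_le_mul hp h1
    _ = n := by ring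

private theorem rp_lin_deg (a b : F) : (C a + C b * X : F[X]).natDegree ≤ 1 := by
  compute_degree

private theorem rp_lin_mul_coeff (a b : F) (p : F[X]) (n : ℕ) :
    ((C a + C b * X) * p).coeff (n + 1) = a * p.coeff (n + 1) + b * p.coeff n := by
  rw [add_mul, coeff_add, coeff_C_mul, mul_assoc, coeff_C_mul, coeff_X_mul]

private theorem rp_eq {p q : F[X]} {n : ℕ} (Z : Finset F) (hp : p.natDegree ≤ n)
    (hq : q.natDegree ≤ n) (hn : n < Z.card) (h : ∀ z ∈ Z, p.eval z = q.eval z) : p = q := by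
  have hsub : p - q = 0 := by
    apply eq_zero_of_natDegree_lt_card_of_eval_eq_zero' (p - q) Z
    · intro z hz
      rw [eval_sub, h z hz, sub_self]
    · exact lt_of_le_of_lt ((natDegree_sub_le p q).trans (max_le hp hq)) hn
  exact sub_eq_zero.1 hsub

/-- the polynomial `E` -/
noncomputable def rowE (P : F[X]) (A0 B0 w t kp tau : F) : F[X] :=
  (C A0 + C B0 * X) * P.comp (C (kp * t) * X) - (C (A0 - w) + C B0 * X) * (C tau * P.comp (C kp * X))

private theorem rp_E_deg {P : F[X]} {j : ℕ} (A0 B0 w t kp tau : F) (hP : P.natDegree ≤ j) :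
    (rowE P A0 B0 w t kp tau).natDegree ≤ j + 1 := by
  rw [rowE]
  refine (natDegree_sub_le _ _).trans (max_le ?_ ?_)
  · refine natDegree_mul_le.trans ?_
    have := rp_lin_deg A0 B0
    have := rp_comp_deg (kp * t) hP
    omega
  · refine natDegree_mul_le.trans ?_
    have h1 := rp_lin_deg (A0 - w) B0
    have h2 : (C tau * P.comp (C kp * X)).natDegree ≤ j :=
      (natDegree_C_mul_le _ _).trans (rp_comp_deg kp hP)
    omega

private theorem rp_E_top {P : F[X]} {j : ℕ} (A0 B0 w t kp tau : F) (hP : P.natDegree ≤ j) :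
    (rowE P A0 B0 w t kp tau).coeff (j + 1) = B0 * kp ^ j * P.coeff j * (t ^ j - tau) := by
  have h0 : P.coeff (j + 1) = 0 := coeff_eq_zero_of_natDegree_lt (by omega)
  rw [rowE, coeff_sub, rp_lin_mul_coeff, rp_lin_mul_coeff, coeff_C_mul, coeff_C_mul,
    comp_C_mul_X_coeff, comp_C_mul_X_coeff, comp_C_mul_X_coeff, comp_C_mul_X_coeff, h0]
  ring

private theorem rp_E_eval (P : F[X]) (A0 B0 w t kp tau z : F) :
    (rowE P A0 B0 w t kp tau).eval z = (A0 + B0 * z) * P.eval (kp * t * z) -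
      (A0 + B0 * z - w) * (tau * P.eval (kp * z)) := by
  rw [rowE]
  simp only [eval_sub, eval_mul, eval_add, eval_C, eval_X, eval_comp]
  ring

private theorem rp_mul_coeff {p q : F[X]} {v : ℕ} (h : ∀ a, a < v → p.coeff a = 0) :
    (p * q).coeff v = p.coeff v * q.coeff 0 := by
  rw [coeff_mul]
  rw [Finset.sum_eq_single (v, 0)]
  · rintro ⟨a, b⟩ hab hne
    rw [Finset.HasAntidiagonal.mem_antidiagonal] at hab
    have : a < v := by
      rcases Nat.lt_or_ge a v with h1 | h1
      · exact h1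
      · exfalso
        apply hne
        have ha : a = v := by omega
        have hb : b = 0 := by omega
        rw [ha, hb]
    simp only
    rw [h a this, zero_mul]
  · intro h1
    exact absurd (Finset.HasAntidiagonal.mem_antidiagonal.2 (add_zero v)) h1

variable {P Q : F[X]} {j : ℕ} {t A0 B0 w w' kp tau : F}

/-- part (i): `tau = t ^ (j + v)` -/
theorem row_core_one (Z : Finset F) (hZ : 2 * j + 1 < Z.card) (hZ0 : ∀ z ∈ Z, z ≠ 0)
    (ht : t ≠ 0) (hkp : kp ≠ 0) (hw : w ≠ 0) (hP : P.natDegree ≤ j)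
    (hQ : Q.natDegree ≤ j) (hQ0 : Q.coeff 0 ≠ 0)
    (h : ∀ z ∈ Z, ∃ c : F, c ≠ 0 ∧
      (kp * z) ^ j * (rowE P A0 B0 w t kp tau).eval z = c * Q.eval (kp * z) ∧
      (kp * (t * z)) ^ j * (rowE P A0 B0 w t kp tau).eval (t * z) =
        tau * c * Q.eval (kp * (t * z))) :
    ∃ v, v ≤ j + 1 ∧ tau = t ^ (j + v) := by
  obtain ⟨E, hE⟩ : ∃ E, E = rowE P A0 B0 w t kp tau := ⟨_, rfl⟩
  rw [← hE] at h
  have hEd : E.natDegree ≤ j + 1 := by
    rw [hE]
    exact rp_E_deg _ _ _ _ _ _ hP
  have hE0 : E ≠ 0 := by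
    intro h0
    have hQ1 : Q.comp (C kp * X) = 0 := by
      apply rp_eq (n := j) Z (rp_comp_deg kp hQ) (by simp) (by omega)
      intro z hz
      obtain ⟨c, hc, h1, -⟩ := h z hz
      rw [h0, eval_zero, mul_zero] at h1
      rw [eval_comp, eval_mul, eval_C, eval_X, eval_zero]
      exact (mul_eq_zero.1 h1.symm).resolve_left hc
    have h2 : (Q.comp (C kp * X)).coeff 0 = 0 := by rw [hQ1, coeff_zero]
    rw [comp_C_mul_X_coeff, pow_zero, mul_one] at h2
    exact hQ0 h2
  have key : C (t ^ j) * (E.comp (C t * X) * Q.comp (C kp * X)) =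
      C tau * (E * Q.comp (C (kp * t) * X)) := by
    apply rp_eq (n := 2 * j + 1) Z _ _ hZ
    · intro z hz
      obtain ⟨c, hc, h1, h2⟩ := h z hz
      simp only [eval_mul, eval_C, eval_comp, eval_X]
      have hz0 : (kp * z) ^ j ≠ 0 := pow_ne_zero j (mul_ne_zero hkp (hZ0 z hz))
      apply mul_left_cancel₀ hz0
      have e1 : (kp * (t * z)) ^ j = t ^ j * (kp * z) ^ j := by
        rw [← mul_pow]
        congr 1
        ring
      rw [e1] at h2
      have e2 : kp * (t * z) = kp * t * z := by ring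
      rw [e2] at h2
      linear_combination (Q.eval (kp * z)) * h2 - tau * Q.eval (kp * t * z) * h1
    · refine (natDegree_C_mul_le _ _).trans (natDegree_mul_le.trans ?_)
      have a1 := rp_comp_deg t hEd
      have a2 := rp_comp_deg kp hQ
      omega
    · refine (natDegree_C_mul_le _ _).trans (natDegree_mul_le.trans ?_)
      have a2 := rp_comp_deg (kp * t) hQ
      omega
  obtain ⟨v, hv⟩ : ∃ v, v = E.natTrailingDegree := ⟨_, rfl⟩
  have hlow : ∀ a, a < v → E.coeff a = 0 := by
    intro a ha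
    rw [hv] at ha
    exact coeff_eq_zero_of_lt_natTrailingDegree ha
  have hEv : E.coeff v ≠ 0 := by
    rw [hv]
    exact mt trailingCoeff_eq_zero.1 hE0
  refine ⟨v, ?_, ?_⟩
  · have : v ≤ E.natDegree := le_natDegree_of_ne_zero hEv
    omega
  · have k1 := congrArg (fun p => p.coeff v) key
    simp only [coeff_C_mul] at k1
    rw [rp_mul_coeff (p := E.comp (C t * X)) (by
      intro a ha
      rw [comp_C_mul_X_coeff, hlow a ha, zero_mul]), rp_mul_coeff hlow] at k1
    simp only [comp_C_mul_X_coeff, pow_zero, mul_one] at k1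
    have hne : E.coeff v * Q.coeff 0 ≠ 0 := mul_ne_zero hEv hQ0
    apply mul_left_cancel₀ hne
    rw [pow_add]
    linear_combination -k1

/-- part (ii): an exceptional row satisfies `B0 * (t ^ (j + 1) - 1) = - w'` -/
theorem row_core_two (Z : Finset F) (hZ : j + 2 < Z.card) (ht : t ≠ 0) (hkp : kp ≠ 0)
    (hw : w ≠ 0) (htau : tau ≠ 0) (hP : P.natDegree ≤ j) (hPj : P.coeff j ≠ 0)
    (hB : B0 = 0 → w' ≠ 0 ∧ A0 ≠ 0) (hne : tau ≠ t ^ j)
    (h : ∀ z ∈ Z, (A0 + B0 * z) * (rowE P A0 B0 w t kp tau).eval (t * z) =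
      w' * w * tau * z * P.eval (kp * z) +
      (A0 + (B0 - w') * z) * (rowE P A0 B0 w t kp tau).eval z) :
    B0 ≠ 0 ∧ B0 * (t ^ (j + 1) - 1) = -w' := by
  have htop := rp_E_top A0 B0 w t kp tau hP
  have hEj : B0 = 0 → (rowE P A0 B0 w t kp tau).coeff j =
      A0 * kp ^ j * P.coeff j * (t ^ j - tau) + w * tau * kp ^ j * P.coeff j := by
    intro h0
    rw [rowE, h0, C_0, zero_mul, add_zero, add_zero, coeff_sub, coeff_C_mul, coeff_C_mul, coeff_C_mul,
      comp_C_mul_X_coeff, comp_C_mul_X_coeff]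
    ring
  have hEd : (rowE P A0 B0 w t kp tau).natDegree ≤ j + 1 := rp_E_deg _ _ _ _ _ _ hP
  obtain ⟨E, hE⟩ : ∃ E, E = rowE P A0 B0 w t kp tau := ⟨_, rfl⟩
  rw [← hE] at h htop hEj hEd
  have key : (C A0 + C B0 * X) * E.comp (C t * X) =
      (C 0 + C (w' * w * tau) * X) * P.comp (C kp * X) + (C A0 + C (B0 - w') * X) * E := by
    apply rp_eq (n := j + 2) Z _ _ hZ
    · intro z hz
      have := h z hz
      simp only [eval_mul, eval_C, eval_comp, eval_X, eval_add]
      linear_combination this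
    · refine natDegree_mul_le.trans ?_
      have a1 := rp_lin_deg A0 B0
      have a2 := rp_comp_deg t hEd
      omega
    · refine (natDegree_add_le _ _).trans (max_le ?_ ?_)
      · refine natDegree_mul_le.trans ?_
        have a1 := rp_lin_deg (0 : F) (w' * w * tau)
        have a2 := rp_comp_deg kp hP
        omega
      · refine natDegree_mul_le.trans ?_
        have a1 := rp_lin_deg A0 (B0 - w')
        omega
  have hE2 : E.coeff (j + 2) = 0 := coeff_eq_zero_of_natDegree_lt (by omega)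
  have hP1 : P.coeff (j + 1) = 0 := coeff_eq_zero_of_natDegree_lt (by omega)
  have hP2 : P.coeff (j + 2) = 0 := coeff_eq_zero_of_natDegree_lt (by omega)
  have k2 := congrArg (fun p => p.coeff (j + 1 + 1)) key
  have k1 := congrArg (fun p => p.coeff (j + 1)) key
  simp only [coeff_add, rp_lin_mul_coeff, comp_C_mul_X_coeff] at k1 k2
  rw [show j + 1 + 1 = j + 2 from rfl, hE2, hP1, hP2] at k2
  rw [hP1] at k1
  by_cases hB0 : B0 = 0
  · exfalso
    obtain ⟨hw', hA0⟩ := hB hB0
    have e1 := hEj hB0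
    rw [hB0] at htop k1
    have e2 : E.coeff (j + 1) = 0 := by
      rw [htop]
      ring
    rw [e2] at k1
    have e3 : w' * (w * tau * kp ^ j * P.coeff j - E.coeff j) = 0 := by
      linear_combination -k1
    have e4 := (mul_eq_zero.1 e3).resolve_left hw'
    rw [e1] at e4
    have e5 : A0 * kp ^ j * P.coeff j * (t ^ j - tau) = 0 := by linear_combination -e4
    have e6 : t ^ j - tau ≠ 0 := sub_ne_zero.2 hne.symm
    exact (mul_ne_zero (mul_ne_zero (mul_ne_zero hA0 (pow_ne_zero j hkp)) hPj) e6) e5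
  · refine ⟨hB0, ?_⟩
    have e6 : t ^ j - tau ≠ 0 := sub_ne_zero.2 hne.symm
    have e7 : E.coeff (j + 1) ≠ 0 := by
      rw [htop]
      exact mul_ne_zero (mul_ne_zero (mul_ne_zero hB0 (pow_ne_zero j hkp)) hPj) e6
    apply mul_left_cancel₀ e7
    linear_combination k2

end Pool.Agent.Helper31.IPF
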