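import Pool.Agent.Helper31.IPF.GInv
import Pool.Agent.Helper31.IPF.RowPoly

/-!
TH-P long-strip line, M9: the ROW LEMMA.

`xi = lam' 0 = 1 - x`, `xi' = 1 - mu' 0`, `t = t 1`.
A set `S` of at least 18 indices `k` such that `k, k+1, k+2` are normal columns:
`s_k = kp t^k` and `kap_1^(k) <> 0`.

PROOF.  (0) `t^k = s_k/kp` are distinct for `k in S`, so `t^i <> 1` for `1 <= i <= 17` (otherwise two of
the 18 elements of `S` are congruent mod `i`).
POLYNOMIALS.  V-steps: `GP_0 = HP_0 = 1`, `GP_(j+1) = (1-lam'_j) X GP_j + lam'_j HP_j`,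
`HP_(j+1) = (1-mu'_j) X GP_j + mu'_j HP_j`; `G j k = GP_j(s_k)`, `s_k^j H j k = HP_j(s_k)`;
`natDegree GP_j = j` (leading coefficient `prod (1-lam'_i)`), `natDegree HP_j <= j`,
`HP_j(0) = prod mu'_i <> 0`.
U-STEPS.  On normal `k, k+1`, `z = t^k`: row 1 gives `kap_1^(k) = A0 + B0 z`, `A0 = t xi - x'/kp`,
`B0 = kp x t - xi'`, `lam_k kap_1 = (t-1) xi`, `(1-mu_k) kap_1 = (t-1) xi' z`; so for every row `j`,
`tau = t_j`:
 (U1) `(A0+B0 z) G' = (A0+B0 z-(t-1)xi) tau G + (t-1) xi tau^k H`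
 (U2) `(A0+B0 z) tau^(k+1) H' = (t-1) xi' z tau G + (A0+B0 z-(t-1)xi' z) tau^k H`.
CASE `xi <> 0`.  Let `E(z) = (A0+B0 z) GP_j(kp t z) - (A0+B0 z-(t-1)xi) tau GP_j(kp z)`, a polynomial of
degree `<= j+1` with coefficient `B0 kp^j lc(GP_j) (t^j - tau)` at `z^(j+1)`;
`E(t^k) = (t-1) xi tau^k H j k` when `k, k+1` are normal.
 (i) `j <= 7`: `h(z) = HP_j(kp z) (t-1) xi kp^-j`, `z^j E(z) = tau^k h(z)` for `z = t^k`; using `k` and
 `k+1`: `t^j E(t z) h(z) = tau E(z) h(t z)` at the 18 points `z = t^k, k in S`, degree `<= 2j+1 <= 15`: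
 polynomial identity; `h(0) <> 0`, `E <> 0`; lowest coefficients: `t^(j+v) = tau`,
 `v = natTrailingDegree E <= j+1`.
 (ii) `j <= 15`: multiply (U2) by `(t-1) xi`:
 `(A0+B0 z) E(t z) = (t-1)^2 xi xi' tau z GP_j(kp z) + (A0+(B0-(t-1)xi') z) E(z)` at the 18 points,
 degree `<= j+2 <= 17`: polynomial identity.  If `tau <> t^j`:
 `B0 <> 0`: coefficient of `z^(j+2)`: `B0 (t^(j+1)-1) = -(t-1) xi'`, that is
 `kp x (t^(j+1)-1) = xi' (t^j-1)`.
 `B0 = 0`: `xi' = kp x t <> 0`; coefficient of `z^(j+1)`: `e_j = (t-1) xi tau lc kp^j`, and by definition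
 `e_j = A0 kp^j lc (t^j - tau) + (t-1) xi tau kp^j lc`, so `A0 = 0`, contradiction (`kap_1 <> 0`).
 So two exceptional rows `J < J' <= 15` give `(t^J-1)(t^(J'+1)-1) = (t^(J+1)-1)(t^J'-1)`, i.e.
 `t^(J'-J) = 1`, contradiction (`xi' <> 0` as `kp x (t^(J+1)-1) <> 0`).
 (iii) If `J <= 7` is exceptional, `t_J = t^(J+v)`, `1 <= v <= J+1`, `J+v <= 15`, and `t_(J+v) = t^(J+v)`
 since it is not exceptional: contradiction with injectivity.  So `t_j = t^j` for all `j <= 7`.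
CASE `xi = 0`: apply the first case to the inverted form (`GForm.inv`: `t, s -> 1/t, 1/s`, `G <-> H`,
`lam -> 1 - mu`, `mu -> 1 - lam`, the same for the primes), `xi' <> 0` takes the role of `xi`,
`kp -> 1/kp`.
-/

namespace Pool.Agent.Helper31.IPF

open Pool.Agent.Helper54.IP

variable {F : Type*} [Field F] {m : ℕ}

open Polynomial in
/-- the polynomials of the rows: `G j k = GP_j(s_k)`, `s_k^j H j k = HP_j(s_k)` -/
noncomputable def gp (g : GForm F m) : ℕ → Polynomial F × Polynomial F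
  | 0 => (1, 1)
  | j + 1 => (C (1 - g.lam' j) * (X * (gp g j).1) + C (g.lam' j) * (gp g j).2,
      C (1 - g.mu' j) * (X * (gp g j).1) + C (g.mu' j) * (gp g j).2)

open Polynomial in
private theorem ro_eval (g : GForm F m) (j : ℕ) (hj : j ≤ m) {k : ℕ} (hk : k ≤ m) :
    (gp g j).1.eval (g.s k) = g.G j k ∧ (gp g j).2.eval (g.s k) = g.s k ^ j * g.H j k := by
  induction j with
  | zero =>
    simp only [gp, eval_one, g.G0' k hk, g.H0' k hk, pow_zero, mul_one, and_self]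
  | succ j ih =>
    obtain ⟨h1, h2⟩ := ih (by omega)
    have e1 := g.V1 j k (by omega) hk
    have e2 := g.V2 j k (by omega) hk
    simp only [gp, eval_add, eval_mul, eval_C, eval_X, h1, h2]
    exact ⟨e1.symm, e2.symm⟩

open Polynomial in
private theorem ro_deg (g : GForm F m) (j : ℕ) (hj : j ≤ m) :
    (gp g j).1.natDegree ≤ j ∧ (gp g j).1.coeff j ≠ 0 ∧ (gp g j).2.natDegree ≤ j ∧
      (gp g j).2.coeff 0 ≠ 0 := by
  induction j with
  | zero => simp [gp]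
  | succ j ih =>
    obtain ⟨h1, h2, h3, h4⟩ := ih (by omega)
    have hX : (X * (gp g j).1).natDegree ≤ j + 1 := by
      refine natDegree_mul_le.trans ?_
      have : (X : F[X]).natDegree ≤ 1 := natDegree_X_le
      omega
    have hc : (gp g j).2.coeff (j + 1) = 0 := coeff_eq_zero_of_natDegree_lt (by omega)
    refine ⟨?_, ?_, ?_, ?_⟩
    · simp only [gp]
      refine (natDegree_add_le _ _).trans (max_le ?_ ?_)
      · exact (natDegree_C_mul_le _ _).trans hX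
      · exact (natDegree_C_mul_le _ _).trans (by omega)
    · simp only [gp, coeff_add, coeff_C_mul, coeff_X_mul, hc, mul_zero, add_zero]
      exact mul_ne_zero (sub_ne_zero.2 (g.lam'_ne j (by omega)).symm) h2
    · simp only [gp]
      refine (natDegree_add_le _ _).trans (max_le ?_ ?_)
      · exact (natDegree_C_mul_le _ _).trans hX
      · exact (natDegree_C_mul_le _ _).trans (by omega)
    · simp only [gp, coeff_add, coeff_C_mul, mul_coeff_zero, coeff_X_zero, zero_mul, mul_zero,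
        zero_add]
      rw [coeff_C_zero]
      exact mul_ne_zero (g.mu'_ne j (by omega)) h4

/-- `kap_1`, `lam`, `mu` on two consecutive normal columns, and the two U-relations of row `j` -/
private theorem ro_step (g : GForm F m) (hm : 1 ≤ m) {kp : F} (hkp : kp ≠ 0) {k : ℕ} (hk : k < m)
    (h0 : g.s k = kp * g.t 1 ^ k) (h1 : g.s (k + 1) = kp * g.t 1 ^ (k + 1)) :
    g.kap 1 k = (g.t 1 * g.lam' 0 - g.mu' 0 / kp) +
      (kp * (1 - g.lam' 0) * g.t 1 - (1 - g.mu' 0)) * g.t 1 ^ k ∧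
    ∀ j, j ≤ m →
      g.kap 1 k * g.G j (k + 1) = (g.kap 1 k - (g.t 1 - 1) * g.lam' 0) * (g.t j * g.G j k) +
        (g.t 1 - 1) * g.lam' 0 * (g.t j ^ k * g.H j k) ∧
      g.kap 1 k * (g.t j ^ (k + 1) * g.H j (k + 1)) =
        (g.t 1 - 1) * (1 - g.mu' 0) * g.t 1 ^ k * (g.t j * g.G j k) +
        (g.kap 1 k - (g.t 1 - 1) * (1 - g.mu' 0) * g.t 1 ^ k) * (g.t j ^ k * g.H j k) := by
  have ht := g.t_ne 1 hm
  have hz : g.t 1 ^ k ≠ 0 := pow_ne_zero k ht
  have r1 := g.row1G (k := k) hm (by omega)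
  have r2 := g.row1H (k := k) hm (by omega)
  have r1' := g.row1G (k := k + 1) hm (by omega)
  have r2' := g.row1H (k := k + 1) hm (by omega)
  rw [h0] at r1 r2
  rw [h1] at r1' r2'
  have hH : g.t 1 ^ k * g.H 1 k = (1 - g.mu' 0) * g.t 1 ^ k + g.mu' 0 / kp := by
    field_simp
    linear_combination r2
  have hH' : g.t 1 ^ (k + 1) * g.H 1 (k + 1) =
      (1 - g.mu' 0) * g.t 1 ^ (k + 1) + g.mu' 0 / kp := by
    field_simp
    linear_combination r2'
  have hkap : g.kap 1 k = (g.t 1 * g.lam' 0 - g.mu' 0 / kp) +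
      (kp * (1 - g.lam' 0) * g.t 1 - (1 - g.mu' 0)) * g.t 1 ^ k := by
    rw [GForm.kap, hH, r1]
    ring
  have e1 := g.G_succ (j := 1) hm hk
  have e2 := g.H_succ (j := 1) hm hk
  have el : g.lam k * g.kap 1 k = (g.t 1 - 1) * g.lam' 0 := by
    rw [r1', r1] at e1
    rw [pow_succ] at e1
    linear_combination e1
  have em : g.mu k * g.kap 1 k = g.kap 1 k - (g.t 1 - 1) * (1 - g.mu' 0) * g.t 1 ^ k := by
    rw [hH', r1] at e2
    rw [pow_succ] at e2
    nth_rewrite 2 [hkap]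
    linear_combination e2
  refine ⟨hkap, fun j hj => ?_⟩
  have f1 := g.G_succ (j := j) hj hk
  have f2 := g.H_succ (j := j) hj hk
  constructor
  · rw [f1]
    have hk2 : g.kap j k = g.t j * g.G j k - g.t j ^ k * g.H j k := rfl
    rw [hk2]
    linear_combination (-(g.t j * g.G j k - g.t j ^ k * g.H j k)) * el
  · rw [f2]
    have hk2 : g.kap j k = g.t j * g.G j k - g.t j ^ k * g.H j k := rfl
    rw [hk2]
    linear_combination (-(g.t j * g.G j k - g.t j ^ k * g.H j k)) * em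

private theorem ro_ord (g : GForm F m) {kp : F} (hkp : kp ≠ 0) (S : Finset ℕ) (hS : 18 ≤ S.card)
    (h : ∀ k ∈ S, k < m ∧ g.s k = kp * g.t 1 ^ k) :
    (∀ a ∈ S, ∀ b ∈ S, g.t 1 ^ a = g.t 1 ^ b → a = b) ∧
    ∀ i, 1 ≤ i → i ≤ 17 → g.t 1 ^ i ≠ 1 := by
  have hinj : ∀ a ∈ S, ∀ b ∈ S, g.t 1 ^ a = g.t 1 ^ b → a = b := by
    intro a ha b hb hab
    obtain ⟨a1, a2⟩ := h a ha
    obtain ⟨b1, b2⟩ := h b hb
    have hs : g.s a = g.s b := by rw [a2, b2, hab]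
    rcases Nat.lt_trichotomy a b with hlt | heq | hgt
    · exact absurd hs (g.s_inj a b hlt (by omega))
    · exact heq
    · exact absurd hs.symm (g.s_inj b a hgt (by omega))
  refine ⟨hinj, fun i hi1 hi2 h1 => ?_⟩
  have hmaps : ∀ a ∈ S, a % i ∈ Finset.range i := fun a _ => Finset.mem_range.2 (Nat.mod_lt a hi1)
  obtain ⟨a, ha, b, hb, hne, hab⟩ := Finset.exists_ne_map_eq_of_card_lt_of_maps_to
    (by rw [Finset.card_range]; omega) hmaps
  apply hne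
  apply hinj a ha b hb
  have key : ∀ c : ℕ, g.t 1 ^ c = g.t 1 ^ (c % i) := by
    intro c
    conv_lhs => rw [← Nat.div_add_mod c i]
    rw [pow_add, pow_mul, h1, one_pow, one_mul]
  rw [key a, key b, hab]

private theorem ro_main (g : GForm F m) (hm : 15 ≤ m) (hx : g.lam' 0 ≠ 0) {kp : F}
    (hkp : kp ≠ 0) (S : Finset ℕ) (hS : 18 ≤ S.card)
    (h : ∀ k ∈ S, k + 2 < m ∧ (g.s k = kp * g.t 1 ^ k ∧ g.kap 1 k ≠ 0) ∧
      (g.s (k + 1) = kp * g.t 1 ^ (k + 1) ∧ g.kap 1 (k + 1) ≠ 0) ∧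
      (g.s (k + 2) = kp * g.t 1 ^ (k + 2) ∧ g.kap 1 (k + 2) ≠ 0)) :
    (∀ i, 1 ≤ i → i ≤ 17 → g.t 1 ^ i ≠ 1) ∧ ∀ j, j ≤ 7 → g.t j = g.t 1 ^ j := by
  classical
  obtain ⟨hinj, hord⟩ := ro_ord g hkp S hS (fun k hk => ⟨by have := (h k hk).1; omega, (h k hk).2.1.1⟩)
  refine ⟨hord, ?_⟩
  have ht := g.t_ne 1 (by omega)
  have ht1 : g.t 1 ≠ 1 := by
    have := hord 1 (by omega) (by omega)
    rwa [pow_one] at this
  have hw : (g.t 1 - 1) * g.lam' 0 ≠ 0 := mul_ne_zero (sub_ne_zero.2 ht1) hx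
  obtain ⟨A0, hA0⟩ : ∃ A0, A0 = g.t 1 * g.lam' 0 - g.mu' 0 / kp := ⟨_, rfl⟩
  obtain ⟨B0, hB0⟩ : ∃ B0, B0 = kp * (1 - g.lam' 0) * g.t 1 - (1 - g.mu' 0) := ⟨_, rfl⟩
  obtain ⟨w, hwd⟩ : ∃ w, w = (g.t 1 - 1) * g.lam' 0 := ⟨_, rfl⟩
  obtain ⟨w', hwd'⟩ : ∃ w', w' = (g.t 1 - 1) * (1 - g.mu' 0) := ⟨_, rfl⟩
  obtain ⟨Z, hZ⟩ : ∃ Z : Finset F, Z = S.image (fun k => g.t 1 ^ k) := ⟨_, rfl⟩
  have hZc : 18 ≤ Z.card := by
    rw [hZ, Finset.card_image_of_injOn]
    · exact hS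
    · intro a ha b hb hab
      exact hinj a ha b hb hab
  have hne : S.Nonempty := by
    rw [← Finset.card_pos]
    omega
  have hB : B0 = 0 → w' ≠ 0 ∧ A0 ≠ 0 := by
    intro hb
    obtain ⟨k, hk⟩ := hne
    obtain ⟨k1, ⟨k2, k3⟩, ⟨k4, k5⟩, -⟩ := h k hk
    have e := (ro_step g (by omega) hkp (by omega) k2 k4).1
    rw [← hA0, ← hB0, hb, zero_mul, add_zero] at e
    refine ⟨?_, by rw [← e]; exact k3⟩
    rw [hwd']
    refine mul_ne_zero (sub_ne_zero.2 ht1) ?_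
    have : 1 - g.mu' 0 = kp * (1 - g.lam' 0) * g.t 1 := by
      rw [hb] at hB0
      linear_combination hB0
    rw [this]
    exact mul_ne_zero (mul_ne_zero hkp (sub_ne_zero.2 (g.lam'_ne 0 (by omega)).symm)) ht
  -- the values of `E`
  have hE : ∀ j, j ≤ m → ∀ k, k + 1 < m → g.s k = kp * g.t 1 ^ k →
      g.s (k + 1) = kp * g.t 1 ^ (k + 1) →
      (rowE (gp g j).1 A0 B0 w (g.t 1) kp (g.t j)).eval (g.t 1 ^ k) =
        w * (g.t j ^ k * g.H j k) := by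
    intro j hj k hk h0 h1
    obtain ⟨e1, e2⟩ := ro_step g (by omega) hkp (by omega) h0 h1
    obtain ⟨e3, -⟩ := e2 j hj
    rw [← hA0, ← hB0] at e1
    have q0 := (ro_eval g j hj (k := k) (by omega)).1
    have q1 := (ro_eval g j hj (k := k + 1) (by omega)).1
    rw [h0] at q0
    rw [h1] at q1
    rw [rowE]
    simp only [Polynomial.eval_sub, Polynomial.eval_mul, Polynomial.eval_add, Polynomial.eval_C,
      Polynomial.eval_X, Polynomial.eval_comp]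
    have a1 : kp * g.t 1 * g.t 1 ^ k = kp * g.t 1 ^ (k + 1) := by ring
    rw [a1, q1, q0, hwd]
    rw [← hwd, e1] at e3
    rw [← hwd]
    linear_combination e3
  have hii : ∀ j, j ≤ 15 → g.t j ≠ g.t 1 ^ j → B0 ≠ 0 ∧ B0 * (g.t 1 ^ (j + 1) - 1) = -w' := by
    intro j hj hjne
    obtain ⟨d1, d2, -, -⟩ := ro_deg g j (by omega)
    apply row_core_two (P := (gp g j).1) (A0 := A0) (w := w) (kp := kp) (tau := g.t j) Z
      (by omega) ht hkp (by rw [hwd]; exact hw) (g.t_ne j (by omega)) d1 d2 hB hjne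
    intro z hz
    rw [hZ, Finset.mem_image] at hz
    obtain ⟨k, hk, rfl⟩ := hz
    obtain ⟨k1, ⟨k2, k3⟩, ⟨k4, k5⟩, k6, k7⟩ := h k hk
    obtain ⟨e1, e2⟩ := ro_step g (by omega) hkp (by omega) k2 k4
    obtain ⟨-, e3⟩ := e2 j (by omega)
    rw [← hA0, ← hB0] at e1
    have f0 := hE j (by omega) k (by omega) k2 k4
    have f1 := hE j (by omega) (k + 1) (by omega) k4 k6
    have a1 : g.t 1 * g.t 1 ^ k = g.t 1 ^ (k + 1) := by ring
    have q0 := (ro_eval g j (by omega) (k := k) (by omega)).1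
    rw [k2] at q0
    rw [a1, f1, f0, q0]
    rw [← hwd', e1] at e3
    linear_combination w * e3
  have hi : ∀ j, j ≤ 7 → ∃ v, v ≤ j + 1 ∧ g.t j = g.t 1 ^ (j + v) := by
    intro j hj
    obtain ⟨d1, d2, d3, d4⟩ := ro_deg g j (by omega)
    apply row_core_one (P := (gp g j).1) (Q := (gp g j).2) (A0 := A0) (B0 := B0) (w := w)
      (kp := kp) Z (by omega) ?_ ht hkp (by rw [hwd]; exact hw) d1 d3 d4
    · intro z hz
      rw [hZ, Finset.mem_image] at hz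
      obtain ⟨k, hk, rfl⟩ := hz
      obtain ⟨k1, ⟨k2, k3⟩, ⟨k4, k5⟩, k6, k7⟩ := h k hk
      have f0 := hE j (by omega) k (by omega) k2 k4
      have f1 := hE j (by omega) (k + 1) (by omega) k4 k6
      have a1 : g.t 1 * g.t 1 ^ k = g.t 1 ^ (k + 1) := by ring
      have q0 := (ro_eval g j (by omega) (k := k) (by omega)).2
      have q1 := (ro_eval g j (by omega) (k := k + 1) (by omega)).2
      rw [k2] at q0
      rw [k4] at q1
      refine ⟨w * g.t j ^ k, mul_ne_zero (by rw [hwd]; exact hw)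
        (pow_ne_zero k (g.t_ne j (by omega))), ?_, ?_⟩
      · rw [f0, q0]
        ring
      · rw [a1, f1, q1]
        ring
    · intro z hz
      rw [hZ, Finset.mem_image] at hz
      obtain ⟨k, hk, rfl⟩ := hz
      exact pow_ne_zero k ht
  intro j hj
  by_contra hjne
  obtain ⟨v, hv, hjv⟩ := hi j hj
  have hv0 : v ≠ 0 := by
    intro h0
    rw [h0, add_zero] at hjv
    exact hjne hjv
  obtain ⟨b1, b2⟩ := hii j (by omega) hjne
  have hJ : g.t (j + v) = g.t 1 ^ (j + v) := by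
    by_contra hJne
    obtain ⟨-, c2⟩ := hii (j + v) (by omega) hJne
    have e1 : g.t 1 ^ (j + 1) * (g.t 1 ^ v - 1) = 0 := by
      apply mul_left_cancel₀ b1
      have : g.t 1 ^ (j + v + 1) = g.t 1 ^ (j + 1) * g.t 1 ^ v := by ring
      rw [this] at c2
      linear_combination c2 - b2
    have e2 := (mul_eq_zero.1 e1).resolve_left (pow_ne_zero _ ht)
    exact hord v (by omega) (by omega) (sub_eq_zero.1 e2)
  exact g.t_inj j (j + v) (by omega) (by omega) (by rw [hJ, hjv])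

theorem row_lemma (g : GForm F m) (hm : 15 ≤ m) (hx : g.lam' 0 ≠ 0 ∨ g.mu' 0 ≠ 1) {kp : F}
    (hkp : kp ≠ 0) (S : Finset ℕ) (hS : 18 ≤ S.card)
    (h : ∀ k ∈ S, k + 2 < m ∧ (g.s k = kp * g.t 1 ^ k ∧ g.kap 1 k ≠ 0) ∧
      (g.s (k + 1) = kp * g.t 1 ^ (k + 1) ∧ g.kap 1 (k + 1) ≠ 0) ∧
      (g.s (k + 2) = kp * g.t 1 ^ (k + 2) ∧ g.kap 1 (k + 2) ≠ 0)) :
    (∀ i, 1 ≤ i → i ≤ 17 → g.t 1 ^ i ≠ 1) ∧ ∀ j, j ≤ 7 → g.t j = g.t 1 ^ j := by
  by_cases hx0 : g.lam' 0 = 0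
  · have hx1 : g.mu' 0 ≠ 1 := hx.resolve_left (fun hh => hh hx0)
    have key := ro_main (ginv g) hm (kp := kp⁻¹) (by
      rw [ginv_lam']
      exact sub_ne_zero.2 hx1.symm) (inv_ne_zero hkp) S hS (by
      intro k hk
      obtain ⟨k1, ⟨k2, k3⟩, ⟨k4, k5⟩, k6, k7⟩ := h k hk
      refine ⟨k1, ⟨?_, ginv_kap_ne g (by omega) k3⟩, ⟨?_, ginv_kap_ne g (by omega) k5⟩,
        ⟨?_, ginv_kap_ne g (by omega) k7⟩⟩
      · rw [ginv_s, ginv_t, k2, mul_inv, inv_pow]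
      · rw [ginv_s, ginv_t, k4, mul_inv, inv_pow]
      · rw [ginv_s, ginv_t, k6, mul_inv, inv_pow])
    obtain ⟨a, b⟩ := key
    constructor
    · intro i hi1 hi2 h1
      apply a i hi1 hi2
      rw [ginv_t, inv_pow, h1, inv_one]
    · intro j hj
      have := b j hj
      rw [ginv_t, ginv_t, inv_pow] at this
      exact inv_injective this
  · exact ro_main g hm hx0 hkp S hS h

end Pool.Agent.Helper31.IPF
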