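import Pool.Agent.Helper31.IPF.ToStrip

/-!
TH-P long-strip line, M11: `T = t^2`, `s_k = s_1^k` (`k <= 7`), `s_1 <> t_1` give `s_1^8 = t_1^4`.

PROOF.  If `kap_1^(d) = 0`, `d <= 6`, then `x s^d (s - t) = (t-1) xi` (first part of `Strip.deg`), so
there is at most one such `d` (the `s^d` are distinct), and `d >= 1`.  For `k = 1..5` with
`kap_1^(k-1), kap_1^(k), kap_1^(k+1) <> 0` the step is of type 0 (`T s_k = t s_(k+1)`: `s = t`,
excluded) or of type 1: `al s^(2k+1) t^k = de T^k = de t^(2k)`, i.e. `al s^(2k+1) = de t^k`.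
Two such `k < k'` give `s^(2(k'-k)) = t^(k'-k)`.  If no `d`, or `d = 1` (k = 3, 4), `2` (4, 5),
`4` (1, 2), `5` (1, 2), `6` (1, 2): `s^2 = t`.  `d = 3`: `k = 1, 5`: `s^8 = t^4`.
-/

namespace Pool.Agent.Helper31.IPF

open Pool.Agent.Helper54.IP

variable {F : Type*} [Field F] {m : ℕ}

private theorem se_one (g : GForm F m) (hm : 7 ≤ m)
    (hs : ∀ k, k ≤ 7 → g.s k = g.s 1 ^ k) (hne : g.s 1 ≠ g.t 1) {d e : ℕ} (hd : d ≤ 6) (he : e ≤ 6)
    (hde : d ≠ e) (h : g.kap 1 d = 0) : g.kap 1 e ≠ 0 := by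
  intro h'
  have e1 := ((toStrip g (by omega)).deg d (by omega) h).1
  have e2 := ((toStrip g (by omega)).deg e (by omega) h').1
  have f1 : (1 - g.lam' 0) * g.s (d + 1) + (1 - (1 - g.lam' 0)) =
      g.t 1 * ((1 - g.lam' 0) * g.s d + (1 - (1 - g.lam' 0))) := e1
  have f2 : (1 - g.lam' 0) * g.s (e + 1) + (1 - (1 - g.lam' 0)) =
      g.t 1 * ((1 - g.lam' 0) * g.s e + (1 - (1 - g.lam' 0))) := e2
  rw [hs (d + 1) (by omega), hs d (by omega), pow_succ] at f1
  rw [hs (e + 1) (by omega), hs e (by omega), pow_succ] at f2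
  have hx : 1 - g.lam' 0 ≠ 0 := sub_ne_zero.2 (g.lam'_ne 0 (by omega)).symm
  have hst : g.s 1 - g.t 1 ≠ 0 := sub_ne_zero.2 hne
  have key : (1 - g.lam' 0) * (g.s 1 - g.t 1) * (g.s 1 ^ d - g.s 1 ^ e) = 0 := by
    linear_combination f1 - f2
  have k2 := (mul_eq_zero.1 key).resolve_left (mul_ne_zero hx hst)
  have k3 : g.s d = g.s e := by
    rw [hs d (by omega), hs e (by omega)]
    exact sub_eq_zero.1 k2
  rcases Nat.lt_or_ge d e with h1 | h1
  · exact g.s_inj d e h1 (by omega) k3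
  · exact g.s_inj e d (by omega) (by omega) k3.symm

private theorem se_typ (g : GForm F m) (hm : 7 ≤ m) (hT : g.t 2 = g.t 1 ^ 2)
    (hs : ∀ k, k ≤ 7 → g.s k = g.s 1 ^ k) (hne : g.s 1 ≠ g.t 1) {k : ℕ} (hk1 : 1 ≤ k) (hk : k ≤ 6)
    (h0 : g.kap 1 (k - 1) ≠ 0) (h1 : g.kap 1 k ≠ 0) (h2 : g.kap 1 (k + 1) ≠ 0) :
    (1 - g.lam' 1) * g.s 1 ^ (2 * k + 1) = g.mu' 1 * g.t 1 ^ k := by
  have ht := g.t_ne 1 (by omega)
  have hs1 := g.s_ne 1 (by omega)
  rcases (toStrip g (by omega)).flat k hk1 (by omega) h0 h1 h2 with h | h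
  · exfalso
    have f : g.t 2 * g.s k = g.t 1 * g.s (k + 1) := h
    rw [hs k (by omega), hs (k + 1) (by omega), hT, pow_succ] at f
    have key : g.t 1 * g.s 1 ^ k * (g.t 1 - g.s 1) = 0 := by linear_combination f
    have := (mul_eq_zero.1 key).resolve_left (mul_ne_zero ht (pow_ne_zero k hs1))
    exact hne (sub_eq_zero.1 this).symm
  · have f : (1 - g.lam' 1) * (g.s k * g.s (k + 1)) * g.t 1 ^ k = g.mu' 1 * g.t 2 ^ k := h
    rw [hs k (by omega), hs (k + 1) (by omega), hT, ← pow_mul] at f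
    apply mul_right_cancel₀ (pow_ne_zero k ht)
    have e1 : g.s 1 ^ (2 * k + 1) = g.s 1 ^ k * g.s 1 ^ (k + 1) := by
      rw [← pow_add]
      congr 1
      omega
    have e2 : g.t 1 ^ (2 * k) = g.t 1 ^ k * g.t 1 ^ k := by
      rw [← pow_add]
      congr 1
      omega
    rw [e1]
    rw [e2] at f
    linear_combination f

theorem sep8 (g : GForm F m) (hm : 7 ≤ m) (hT : g.t 2 = g.t 1 ^ 2)
    (hs : ∀ k, k ≤ 7 → g.s k = g.s 1 ^ k) (hne : g.s 1 ≠ g.t 1) : g.s 1 ^ 8 = g.t 1 ^ 4 := by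
  have ht := g.t_ne 1 (by omega)
  have hs1 := g.s_ne 1 (by omega)
  have hal : 1 - g.lam' 1 ≠ 0 := sub_ne_zero.2 (g.lam'_ne 1 (by omega)).symm
  have hde := g.mu'_ne 1 (by omega)
  have k0 : g.kap 1 0 ≠ 0 := (toStrip g (by omega)).kap0
  have one := fun {d e : ℕ} (hd : d ≤ 6) (he : e ≤ 6) (hne' : d ≠ e) (h : g.kap 1 d = 0) =>
    se_one g hm hs hne hd he hne' h
  have typ := fun {k : ℕ} (hk1 : 1 ≤ k) (hk : k ≤ 6) (h0 : g.kap 1 (k - 1) ≠ 0)
    (h1 : g.kap 1 k ≠ 0) (h2 : g.kap 1 (k + 1) ≠ 0) => se_typ g hm hT hs hne hk1 hk h0 h1 h2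
  by_cases h3 : g.kap 1 3 = 0
  · have a1 := typ (k := 1) (by omega) (by omega) k0 (one (by omega) (by omega) (by omega) h3)
      (one (by omega) (by omega) (by omega) h3)
    have a5 := typ (k := 5) (by omega) (by omega) (one (by omega) (by omega) (by omega) h3)
      (one (by omega) (by omega) (by omega) h3) (one (by omega) (by omega) (by omega) h3)
    have hn : g.mu' 1 * g.t 1 ^ 1 ≠ 0 := mul_ne_zero hde (pow_ne_zero _ ht)
    apply mul_left_cancel₀ hn
    have e : (1 - g.lam' 1) * g.s 1 ^ (2 * 5 + 1) =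
      (1 - g.lam' 1) * g.s 1 ^ (2 * 1 + 1) * g.s 1 ^ 8 := by ring
    rw [e, a1] at a5
    rw [a5]
    ring
  · have h21 : g.s 1 ^ 2 = g.t 1 := by
      by_cases h12 : g.kap 1 1 = 0 ∨ g.kap 1 2 = 0
      · have b3 : g.kap 1 4 ≠ 0 := by
          rcases h12 with h | h
          · exact one (by omega) (by omega) (by omega) h
          · exact one (by omega) (by omega) (by omega) h
        have b5 : g.kap 1 5 ≠ 0 := by
          rcases h12 with h | h
          · exact one (by omega) (by omega) (by omega) h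
          · exact one (by omega) (by omega) (by omega) h
        have b6 : g.kap 1 6 ≠ 0 := by
          rcases h12 with h | h
          · exact one (by omega) (by omega) (by omega) h
          · exact one (by omega) (by omega) (by omega) h
        have a1 := typ (k := 4) (by omega) (by omega) h3 b3 b5
        have a5 := typ (k := 5) (by omega) (by omega) b3 b5 b6
        have hn : g.mu' 1 * g.t 1 ^ 4 ≠ 0 := mul_ne_zero hde (pow_ne_zero _ ht)
        apply mul_left_cancel₀ hn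
        have e : (1 - g.lam' 1) * g.s 1 ^ (2 * 5 + 1) =
          (1 - g.lam' 1) * g.s 1 ^ (2 * 4 + 1) * g.s 1 ^ 2 := by ring
        rw [e, a1] at a5
        rw [a5]
        ring
      · push Not at h12
        have a1 := typ (k := 1) (by omega) (by omega) k0 h12.1 h12.2
        have a5 := typ (k := 2) (by omega) (by omega) h12.1 h12.2 h3
        have hn : g.mu' 1 * g.t 1 ^ 1 ≠ 0 := mul_ne_zero hde (pow_ne_zero _ ht)
        apply mul_left_cancel₀ hn
        have e : (1 - g.lam' 1) * g.s 1 ^ (2 * 2 + 1) =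
          (1 - g.lam' 1) * g.s 1 ^ (2 * 1 + 1) * g.s 1 ^ 2 := by ring
        rw [e, a1] at a5
        rw [a5]
        ring
    rw [← h21]
    ring

end Pool.Agent.Helper31.IPF
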