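import Pool.Agent.Helper31.IPF.ToStrip

/-!
TH-P long-strip line, M10: the case `x = x' = 1`, i.e. `lam' 0 = 0`, `mu' 0 = 1`.

Then `G 1 k = s_k`, `H 1 k = 1/s_k`, `kap_1^(k) = t s - t^k/s`.  Put `t = t_1`, `T = t_2`, `rho = T/t`,
`al = 1 - lam'_1`, `be = lam'_1`, `ga = 1 - mu'_1`, `de = mu'_1`,
`f(k) = al t^k + be - de rho^k - ga T^k = (t^k-1)(al + de rho^k) - (T^k-1)`.
(1) `kap_1^(k) = 0` (k < m) => `s_(k+1) = t s_k`, and `s_k^2 = t^(k-1)`.
(2) (E1c), (E2c) at column `k+1` with `q = s^2`, `X = t^(k+1)`, `Z = rho^(k+1)`,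
 `W = al q + be - Z de - Z ga q`:  (E1) `(t-1) W = (rho-1)(al + be t/X)(q-X)`,
 (E2) `rho (t-1) W = (rho-1) Z (ga + de t/X)(q-X)`.  If `kap_1^(k) <> 0` then `q <> X` and
 `rho (al X + be t) = Z (ga X + de t)`, which is `f(k) = 0`.  If `kap_1^(k) = 0` then `q = X`, `W = 0`,
 which is `f(k+1) = 0`.
(3) `T = t^2`, `al = de = 1` (so `G 2 k = s^2`, `H 2 k = 1/s^2`): the U-steps of rows 1, 2 give
 `(s'-t s)(s'+t s) = (s'-t s)(t s + t^k/s)`, so `s' = t s` or `s' = t^k/s`; the latter means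
 `lam_k kap_1 = kap_1`, so (`lam_k <> 1`) `kap_1 = 0` and `s' = t s` by (1).  So `s_k = t^k`, `k <= m`.
xone_diag (`s_1 = t_1`): `y = y' = 1` too (`lam 0 = 0`, `mu 0 = 1`, from `G 1 1`, `H 1 1`).  Column 1:
 `T = al t^2 + be`, i.e. `al (t^2-1) = T-1`; `t^2/T = ga t^2 + de`, i.e. `de (t^2-1) = t^2 (T-1)/T`;
 (`t^2 <> 1`, otherwise `T = 1`).  The same with stars and `S = s_2`; the cell (2,2):
 `al S^2 + be = al* T^2 + be*`, so `(T-1)(S^2-1) = (S-1)(T^2-1)`, `S = T`.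
 `(t^2-1) f(3) = (T-1)(t-1) t (rho-1)(rho-t)`, `f(4) = (T-1) t (rho^2-1)(rho-t)`.  If `rho <> t`:
 `f(3) <> 0`, so by (2) `kap_1^(3) = 0`, `s_3^2 = t^2`, `s_3 = -t` (`s_3 <> s_1 = t`), and `f(4) = 0`, so
 `rho = -1`, `T = -t`, but `T = S = s_2 <> s_3`.  So `rho = t`, `T = t^2`, `al = de = 1`: (3).
xone_off (`s_k = s_1^k`, `k <= 7`): suppose `s_1 <> t_1`.  By (1) no `kap_1^(k)` vanishes for `k <= 6`,
 so `f(1) = f(2) = f(3) = 0`.  From `f(1), f(2)`: `al (t^2-1) = T-1`, `de rho (t^2-1) = t (T-1)`, then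
 `f(3) = 0` gives `rho = t`.  `T = t^2`, `t^2 <> 1`, so `al = 1`, `de = 1`, and (3) gives `s_1 = t_1`.
-/

namespace Pool.Agent.Helper31.IPF

open Pool.Agent.Helper54.IP

variable {F : Type*} [Field F] {m : ℕ}

private theorem xo_G (g : GForm F m) (hm : 1 ≤ m) (hx : g.lam' 0 = 0) {k : ℕ} (hk : k ≤ m) :
    g.G 1 k = g.s k := by
  rw [g.row1G hm hk, hx]
  ring

private theorem xo_H (g : GForm F m) (hm : 1 ≤ m) (hx' : g.mu' 0 = 1) {k : ℕ} (hk : k ≤ m) :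
    g.s k * g.H 1 k = 1 := by
  rw [g.row1H hm hk, hx']
  ring

private theorem xo_deg (g : GForm F m) (hm : 2 ≤ m) (hx : g.lam' 0 = 0) {k : ℕ} (hk : k < m)
    (h : g.kap 1 k = 0) : g.s (k + 1) = g.t 1 * g.s k := by
  have e := ((toStrip g hm).deg k hk h).1
  have f : (1 - g.lam' 0) * g.s (k + 1) + (1 - (1 - g.lam' 0)) =
      g.t 1 * ((1 - g.lam' 0) * g.s k + (1 - (1 - g.lam' 0))) := e
  rw [hx] at f
  linear_combination f

private theorem xo_T1 (g : GForm F m) (hm : 2 ≤ m) : g.t 2 - 1 ≠ 0 := by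
  rw [← g.t0]
  exact sub_ne_zero.2 (g.t_inj 0 2 (by omega) hm).symm

private theorem xo_t1 (g : GForm F m) (hm : 2 ≤ m) : g.t 1 - 1 ≠ 0 := by
  rw [← g.t0]
  exact sub_ne_zero.2 (g.t_inj 0 1 (by omega) (by omega)).symm

private theorem xo_Tt (g : GForm F m) (hm : 2 ≤ m) : g.t 2 - g.t 1 ≠ 0 :=
  sub_ne_zero.2 (g.t_inj 1 2 (by omega) hm).symm

/-- the two scalar relations at a column, `q = s^2` -/
private theorem xo_e (g : GForm F m) (hm : 2 ≤ m) (hx : g.lam' 0 = 0) (hx' : g.mu' 0 = 1)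
    {k : ℕ} (hk : k ≤ m) :
    g.t 1 * (g.t 1 - 1) * (g.t 1 ^ k * ((1 - g.lam' 1) * g.s k ^ 2 + g.lam' 1) -
      g.t 2 ^ k * ((1 - g.mu' 1) * g.s k ^ 2 + g.mu' 1)) =
      (g.t 2 - g.t 1) * ((1 - g.lam' 1) * g.t 1 ^ k + g.lam' 1 * g.t 1) *
        (g.s k ^ 2 - g.t 1 ^ k) ∧
    g.t 2 * g.t 1 ^ k * (g.t 1 - 1) * (g.t 1 ^ k * ((1 - g.lam' 1) * g.s k ^ 2 + g.lam' 1) -
      g.t 2 ^ k * ((1 - g.mu' 1) * g.s k ^ 2 + g.mu' 1)) =
      (g.t 2 - g.t 1) * g.t 2 ^ k * ((1 - g.mu' 1) * g.t 1 ^ k + g.mu' 1 * g.t 1) *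
        (g.s k ^ 2 - g.t 1 ^ k) := by
  have e1 := Pool.Agent.Helper43.IPL.E1c g hm k hk
  have e2 := Pool.Agent.Helper43.IPL.E2c g hm k hk
  have hG := xo_G g (by omega) hx hk
  have hH := xo_H g (by omega) hx' hk
  have hG2 := g.row2G hm hk
  have hH2 := g.row2H hm hk
  have hT1 := xo_T1 g hm
  rw [hG] at e1 e2 hG2 hH2
  have f1 : g.G 2 k = (1 - g.lam' 1) * g.s k ^ 2 + g.lam' 1 := by
    linear_combination hG2 + g.lam' 1 * hH
  have f2 : g.s k * (g.s k * g.H 2 k) = (1 - g.mu' 1) * g.s k ^ 2 + g.mu' 1 := by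
    linear_combination g.s k * hH2 + g.mu' 1 * hH
  rw [hx', f1] at e1
  rw [hx, f1] at e2
  rw [← f2]
  constructor
  · apply mul_left_cancel₀ hT1
    linear_combination g.s k * e1 - ((g.t 2 - 1) * (g.t 1 - 1) * g.t 1 * g.t 1 ^ k *
      ((1 - g.lam' 1) * g.s k ^ 2 + g.lam' 1) + ((1 - g.lam' 1) * g.t 1 ^ k + g.lam' 1 * g.t 1) *
      (g.t 2 - g.t 1) * (g.t 2 - 1) * g.t 1 ^ k) * hH
  · apply mul_left_cancel₀ hT1
    linear_combination g.s k * e2 - ((g.t 2 - 1) * (g.t 1 - 1) * g.t 2 * g.t 1 ^ k * g.t 1 ^ k *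
      ((1 - g.lam' 1) * g.s k ^ 2 + g.lam' 1) + g.t 2 ^ k *
      ((1 - g.mu' 1) * g.t 1 ^ k + g.mu' 1 * g.t 1) *
      (g.t 2 - g.t 1) * (g.t 2 - 1) * g.t 1 ^ k) * hH

/-- `f(k) = 0` if column `k` is not degenerate -/
private theorem xo_f (g : GForm F m) (hm : 2 ≤ m) (hx : g.lam' 0 = 0) (hx' : g.mu' 0 = 1)
    {k : ℕ} (hk : k < m) (h : g.kap 1 k ≠ 0) :
    (g.t 1 ^ k - 1) * ((1 - g.lam' 1) * g.t 1 ^ k + g.mu' 1 * g.t 2 ^ k) =
      g.t 1 ^ k * (g.t 2 ^ k - 1) := by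
  obtain ⟨e1, e2⟩ := xo_e g hm hx hx' (k := k + 1) (by omega)
  have hG := xo_G g (by omega) hx (k := k + 1) (by omega)
  have hH := xo_H g (by omega) hx' (k := k + 1) (by omega)
  have hD := g.D_succ (j := 1) (by omega) hk
  have hlm : g.mu k - g.lam k ≠ 0 := sub_ne_zero.2 (g.lm_ne k hk).symm
  have hD' : g.D 1 (k + 1) ≠ 0 := by
    rw [hD]
    exact mul_ne_zero hlm h
  have hs := g.s_ne (k + 1) (by omega)
  have hq : g.s (k + 1) ^ 2 - g.t 1 ^ (k + 1) ≠ 0 := by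
    have : g.s (k + 1) ^ 2 - g.t 1 ^ (k + 1) = g.s (k + 1) * g.D 1 (k + 1) := by
      rw [GForm.D, hG]
      linear_combination g.t 1 ^ (k + 1) * hH
    rw [this]
    exact mul_ne_zero hs hD'
  have ht := g.t_ne 1 (by omega)
  have hT := g.t_ne 2 hm
  have hTt := xo_Tt g hm
  have hz : g.t 1 ^ k ≠ 0 := pow_ne_zero k ht
  have key : (g.t 2 - g.t 1) * (g.s (k + 1) ^ 2 - g.t 1 ^ (k + 1)) * (g.t 1 ^ 2 * g.t 2) *
      ((g.t 1 ^ k - 1) * ((1 - g.lam' 1) * g.t 1 ^ k + g.mu' 1 * g.t 2 ^ k) -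
      g.t 1 ^ k * (g.t 2 ^ k - 1)) = 0 := by
    rw [pow_succ (g.t 1) k, pow_succ (g.t 2) k] at e1 e2
    rw [pow_succ (g.t 1) k]
    linear_combination g.t 1 * e2 - g.t 2 * g.t 1 ^ k * g.t 1 * e1
  have k2 := (mul_eq_zero.1 key).resolve_left (mul_ne_zero (mul_ne_zero hTt hq)
    (mul_ne_zero (pow_ne_zero 2 ht) hT))
  linear_combination k2

/-- `f(k+1) = 0` if column `k` is degenerate -/
private theorem xo_f' (g : GForm F m) (hm : 2 ≤ m) (hx : g.lam' 0 = 0) (hx' : g.mu' 0 = 1)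
    {k : ℕ} (hk : k < m) (h : g.kap 1 k = 0) :
    (g.t 1 ^ (k + 1) - 1) * ((1 - g.lam' 1) * g.t 1 ^ (k + 1) + g.mu' 1 * g.t 2 ^ (k + 1)) =
      g.t 1 ^ (k + 1) * (g.t 2 ^ (k + 1) - 1) := by
  obtain ⟨e1, -⟩ := xo_e g hm hx hx' (k := k + 1) (by omega)
  have hG := xo_G g (by omega) hx (k := k + 1) (by omega)
  have hH := xo_H g (by omega) hx' (k := k + 1) (by omega)
  have hD := g.D_succ (j := 1) (by omega) hk
  rw [h, mul_zero, GForm.D, hG] at hD
  have hq : g.s (k + 1) ^ 2 = g.t 1 ^ (k + 1) := by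
    linear_combination g.s (k + 1) * hD + g.t 1 ^ (k + 1) * hH
  have ht := g.t_ne 1 (by omega)
  have ht1 := xo_t1 g hm
  rw [hq, sub_self, mul_zero] at e1
  have k2 := (mul_eq_zero.1 e1).resolve_left (mul_ne_zero ht ht1)
  linear_combination k2

/-- `T = t^2`, `al = de = 1`: everything is geometric -/
private theorem xo_torus (g : GForm F m) (hm : 2 ≤ m) (hx : g.lam' 0 = 0) (hx' : g.mu' 0 = 1)
    (hT : g.t 2 = g.t 1 ^ 2) (hal : g.lam' 1 = 0) (hde : g.mu' 1 = 1) :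
    ∀ k, k ≤ m → g.s k = g.t 1 ^ k := by
  intro k
  induction k with
  | zero => intro _; rw [g.s0, pow_zero]
  | succ k ih =>
    intro hk
    have hs := g.s_ne k (by omega)
    have u1 := g.U1 1 k (by omega) (by omega)
    have u2 := g.U1 2 k hm (by omega)
    have hG := xo_G g (by omega) hx (k := k) (by omega)
    have hG' := xo_G g (by omega) hx (k := k + 1) (by omega)
    have hH := xo_H g (by omega) hx' (k := k) (by omega)
    have hH' := xo_H g (by omega) hx' (k := k + 1) (by omega)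
    have hG2 := g.row2G hm (k := k) (by omega)
    have hG2' := g.row2G hm (k := k + 1) (by omega)
    have hH2 := g.row2H hm (k := k) (by omega)
    rw [hal, hG] at hG2
    rw [hal, hG'] at hG2'
    rw [hde, hG] at hH2
    have a2 : g.G 2 k = g.s k ^ 2 := by linear_combination hG2
    have a2' : g.G 2 (k + 1) = g.s (k + 1) ^ 2 := by linear_combination hG2'
    have b1 : g.H 1 k = (g.s k)⁻¹ := by
      field_simp
      linear_combination hH
    have b2 : g.H 2 k = ((g.s k)⁻¹) ^ 2 := by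
      have : g.s k * g.H 2 k = g.H 1 k := by linear_combination hH2
      rw [b1] at this
      field_simp at this ⊢
      linear_combination this
    rw [hG', hG, b1] at u1
    rw [a2', a2, b2, hT] at u2
    have p2 : (g.t 1 ^ 2) ^ k = (g.t 1 ^ k) ^ 2 := by
      rw [← pow_mul, ← pow_mul, mul_comm]
    rw [p2] at u2
    have key : g.lam k * ((1 - g.lam k) * (g.t 1 * g.s k - g.t 1 ^ k * (g.s k)⁻¹) ^ 2) = 0 := by
      rw [u1] at u2
      linear_combination -u2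
    have hs1 : g.s (k + 1) = g.t 1 * g.s k := by
      rcases mul_eq_zero.1 key with h | h
      · rw [u1, h]
        ring
      · have h2 := (mul_eq_zero.1 h).resolve_left (sub_ne_zero.2 (g.lam_ne k (by omega)).symm)
        have h3 : g.t 1 * g.s k - g.t 1 ^ k * (g.s k)⁻¹ = 0 := pow_eq_zero_iff (by norm_num) |>.1 h2
        rw [u1]
        linear_combination -g.lam k * h3
    rw [hs1, ih (by omega)]
    ring

/-- scalar step: `al`, `de` known, `f(3) = 0` gives `T = t^2` -/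
private theorem xo_three {t T al de : F} (hT : T ≠ 0) (ht : t ≠ 0) (ht1 : t - 1 ≠ 0)
    (hT1 : T - 1 ≠ 0) (hTt : T - t ≠ 0)
    (h1 : al * (t ^ 2 - 1) = T - 1) (h2 : de * T * (t ^ 2 - 1) = t ^ 2 * (T - 1))
    (h3 : (t ^ 3 - 1) * (al * t ^ 3 + de * T ^ 3) = t ^ 3 * (T ^ 3 - 1)) : T = t ^ 2 := by
  have key : T * t ^ 2 * (T - 1) * (t - 1) * (T - t) * (T - t ^ 2) = 0 := by
    linear_combination T * (t ^ 2 - 1) * h3 - T * t ^ 3 * (t ^ 3 - 1) * h1 -
      T ^ 3 * (t ^ 3 - 1) * h2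
  have n : T * t ^ 2 * (T - 1) * (t - 1) * (T - t) ≠ 0 := by simp [hT, ht, ht1, hT1, hTt]
  exact sub_eq_zero.1 ((mul_eq_zero.1 key).resolve_left n)

theorem xone_diag (g : GForm F m) (hm : 5 ≤ m) (hx : g.lam' 0 = 0) (hx' : g.mu' 0 = 1)
    (hs : g.s 1 = g.t 1) : ∀ k, k ≤ m → g.s k = g.t 1 ^ k := by
  have ht := g.t_ne 1 (by omega)
  have hT := g.t_ne 2 (by omega)
  have ht1 := xo_t1 g (by omega)
  have hT1 := xo_T1 g (by omega)
  have hTt := xo_Tt g (by omega)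
  have hS1 := xo_T1 g.swap (by omega)
  simp only [GForm.swap_t] at hS1
  have hS := g.s_ne 2 (by omega)
  -- the swapped form has `x = x' = 1` too
  have e1 := xo_G g (by omega) hx (k := 1) (by omega)
  have e2 := xo_H g (by omega) hx' (k := 1) (by omega)
  have f1 := g.swap.row1G (k := 1) (by omega) (by omega)
  have f2 := g.swap.row1H (k := 1) (by omega) (by omega)
  have l1 : g.swap.lam' 0 = g.lam 0 := rfl
  have l2 : g.swap.mu' 0 = g.mu 0 := rfl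
  simp only [GForm.swap_G, GForm.swap_H, GForm.swap_s] at f1 f2
  rw [l1] at f1
  rw [l2] at f2
  have hl : g.swap.lam' 0 = 0 := by
    rw [l1]
    apply mul_left_cancel₀ ht1
    linear_combination f1 - e1 - hs
  have hu : g.swap.mu' 0 = 1 := by
    rw [l2]
    apply mul_left_cancel₀ ht1
    rw [hs] at e2
    linear_combination f2 - e2
  -- column 1
  have cG := g.row2G (k := 1) (by omega) (by omega)
  have cH := g.row2H (k := 1) (by omega) (by omega)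
  have dG := xo_G g.swap (by omega) hl (k := 2) (by omega)
  have dH := xo_H g.swap (by omega) hu (k := 2) (by omega)
  simp only [GForm.swap_G, GForm.swap_H, GForm.swap_s] at dG dH
  rw [dG, e1] at cG
  rw [e1] at cH
  rw [hs] at cG cH e2
  have h1 : (1 - g.lam' 1) * (g.t 1 ^ 2 - 1) = g.t 2 - 1 := by
    linear_combination -cG - g.lam' 1 * e2
  have h2 : g.mu' 1 * g.t 2 * (g.t 1 ^ 2 - 1) = g.t 1 ^ 2 * (g.t 2 - 1) := by
    linear_combination g.t 1 * g.t 2 * cH - g.t 1 ^ 2 * dH + g.mu' 1 * g.t 2 * e2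
  have t21 : g.t 1 ^ 2 - 1 ≠ 0 := by
    intro h0
    rw [h0, mul_zero] at h1
    exact hT1 h1.symm
  -- row 1
  have cG' := g.swap.row2G (k := 1) (by omega) (by omega)
  have dG' := xo_G g (by omega) hx (k := 2) (by omega)
  have dH' := xo_H g (by omega) hx' (k := 2) (by omega)
  have l3 : g.swap.lam' 1 = g.lam 1 := rfl
  simp only [GForm.swap_G, GForm.swap_H, GForm.swap_s] at cG'
  rw [l3, dG', e1, hs] at cG'
  have h1' : (1 - g.lam 1) * (g.t 1 ^ 2 - 1) = g.s 2 - 1 := by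
    linear_combination -cG' - g.lam 1 * e2
  -- the cell (2,2)
  have a22 := g.row2G (k := 2) (by omega) (by omega)
  have b22 := g.swap.row2G (k := 2) (by omega) (by omega)
  simp only [GForm.swap_G, GForm.swap_H, GForm.swap_s] at b22
  rw [l3, dG] at b22
  rw [dG'] at a22
  have c22 : (1 - g.lam' 1) * (g.s 2 ^ 2 - 1) = (1 - g.lam 1) * (g.t 2 ^ 2 - 1) := by
    linear_combination b22 - a22 - g.lam' 1 * dH' + g.lam 1 * dH
  have hST : g.s 2 = g.t 2 := by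
    have key : (g.t 2 - 1) * (g.s 2 - 1) * (g.s 2 - g.t 2) = 0 := by
      linear_combination (g.t 1 ^ 2 - 1) * c22 - (g.s 2 ^ 2 - 1) * h1 + (g.t 2 ^ 2 - 1) * h1'
    exact sub_eq_zero.1 ((mul_eq_zero.1 key).resolve_left (mul_ne_zero hT1 hS1))
  -- `T = t^2`
  have hT2 : g.t 2 = g.t 1 ^ 2 := by
    by_contra hne
    have k3 : g.kap 1 3 = 0 := by
      by_contra hk
      exact hne (xo_three hT ht ht1 hT1 hTt h1 h2 (xo_f g (by omega) hx hx' (by omega) hk))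
    have f4 := xo_f' g (by omega) hx hx' (k := 3) (by omega) k3
    have g3 := xo_G g (by omega) hx (k := 3) (by omega)
    have h3 := xo_H g (by omega) hx' (k := 3) (by omega)
    rw [GForm.kap, g3] at k3
    have q3 : g.t 1 * ((g.s 3 - g.t 1) * (g.s 3 + g.t 1)) = 0 := by
      linear_combination g.s 3 * k3 + g.t 1 ^ 3 * h3
    have q4 := (mul_eq_zero.1 q3).resolve_left ht
    have n3 : g.s 3 - g.t 1 ≠ 0 := by
      rw [← hs]
      exact sub_ne_zero.2 (g.s_inj 1 3 (by omega) (by omega)).symm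
    have q5 := (mul_eq_zero.1 q4).resolve_left n3
    have key : g.t 2 * (g.t 1 ^ 2 - 1) * g.t 1 ^ 2 * (g.t 2 - 1) * (g.t 2 - g.t 1) *
        (g.t 2 - g.t 1 ^ 2) * (g.t 2 + g.t 1) = 0 := by
      norm_num at f4
      linear_combination g.t 2 * (g.t 1 ^ 2 - 1) * f4 - g.t 2 * g.t 1 ^ 4 * (g.t 1 ^ 4 - 1) * h1 -
        g.t 2 ^ 4 * (g.t 1 ^ 4 - 1) * h2
    have n : g.t 2 * (g.t 1 ^ 2 - 1) * g.t 1 ^ 2 * (g.t 2 - 1) * (g.t 2 - g.t 1) *
        (g.t 2 - g.t 1 ^ 2) ≠ 0 := by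
      simp [hT, ht, t21, hT1, hTt, sub_ne_zero.2 hne]
    have q6 := (mul_eq_zero.1 key).resolve_left n
    exact g.s_inj 2 3 (by omega) (by omega) (by rw [hST]; linear_combination q6 - q5)
  refine xo_torus g (by omega) hx hx' hT2 ?_ ?_
  · apply mul_right_cancel₀ t21
    rw [hT2] at h1
    linear_combination -h1
  · have n : g.t 1 ^ 2 * (g.t 1 ^ 2 - 1) ≠ 0 := mul_ne_zero (pow_ne_zero 2 ht) t21
    apply mul_right_cancel₀ n
    rw [hT2] at h2
    linear_combination h2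

theorem xone_off (g : GForm F m) (hm : 7 ≤ m) (hx : g.lam' 0 = 0) (hx' : g.mu' 0 = 1)
    (hs : ∀ k, k ≤ 7 → g.s k = g.s 1 ^ k) : g.s 1 = g.t 1 := by
  by_contra hne
  have ht := g.t_ne 1 (by omega)
  have hT := g.t_ne 2 (by omega)
  have ht1 := xo_t1 g (by omega)
  have hT1 := xo_T1 g (by omega)
  have hTt := xo_Tt g (by omega)
  have hs1 := g.s_ne 1 (by omega)
  have hk : ∀ k, k ≤ 6 → g.kap 1 k ≠ 0 := by
    intro k hk h0
    have e := xo_deg g (by omega) hx (k := k) (by omega) h0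
    rw [hs (k + 1) (by omega), hs k (by omega), pow_succ] at e
    have key : g.s 1 ^ k * (g.s 1 - g.t 1) = 0 := by linear_combination e
    exact hne (sub_eq_zero.1 ((mul_eq_zero.1 key).resolve_left (pow_ne_zero k hs1)))
  have f1 := xo_f g (by omega) hx hx' (k := 1) (by omega) (hk 1 (by omega))
  have f2 := xo_f g (by omega) hx hx' (k := 2) (by omega) (hk 2 (by omega))
  have f3 := xo_f g (by omega) hx hx' (k := 3) (by omega) (hk 3 (by omega))
  rw [pow_one, pow_one] at f1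
  have h1 : (1 - g.lam' 1) * (g.t 1 ^ 2 - 1) = g.t 2 - 1 := by
    apply mul_left_cancel₀ (mul_ne_zero ht hTt)
    linear_combination (g.t 1 + 1) * g.t 2 * f1 - f2
  have h2 : g.mu' 1 * g.t 2 * (g.t 1 ^ 2 - 1) = g.t 1 ^ 2 * (g.t 2 - 1) := by
    apply mul_left_cancel₀ hTt
    linear_combination f2 - (g.t 1 + 1) * g.t 1 * f1
  have t21 : g.t 1 ^ 2 - 1 ≠ 0 := by
    intro h0
    rw [h0, mul_zero] at h1
    exact hT1 h1.symm
  have hT2 := xo_three hT ht ht1 hT1 hTt h1 h2 f3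
  have := xo_torus g (by omega) hx hx' hT2 (by
    apply mul_right_cancel₀ t21
    rw [hT2] at h1
    linear_combination -h1) (by
    have n : g.t 1 ^ 2 * (g.t 1 ^ 2 - 1) ≠ 0 := mul_ne_zero (pow_ne_zero 2 ht) t21
    apply mul_right_cancel₀ n
    rw [hT2] at h2
    linear_combination h2) 1 (by omega)
  rw [pow_one] at this
  exact hne this

end Pool.Agent.Helper31.IPF
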