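import Pool.Agent.Helper31.IPF.Windows
import Pool.Agent.Helper31.IPF.Row
import Pool.Agent.Helper31.IPF.XOne
import Pool.Agent.Helper31.IPF.Sep
import Pool.Agent.Helper54.IP.E3

/-!
TH-P long-strip line, M12: `elim` for `m ≥ 55`.
-/

namespace Pool.Agent.Helper31.IPF

open Pool.Agent.Helper54.IP

variable {F : Type*} [Field F] {m : ℕ}

private theorem el_row (g : GForm F m) (hm : 55 ≤ m) (hx : g.lam' 0 ≠ 0 ∨ g.mu' 0 ≠ 1) :
    (∀ i, 1 ≤ i → i ≤ 17 → g.t 1 ^ i ≠ 1) ∧ ∀ j, j ≤ 7 → g.t j = g.t 1 ^ j := by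
  obtain ⟨kp, hkp, S, hS, h⟩ := normal_card (toStrip g (by omega)) (by
    rcases hx with hx | hx
    · left
      intro hh
      have hh' : 1 - g.lam' 0 = 1 := hh
      exact hx (by linear_combination -hh')
    · right
      exact hx) hm
  exact row_lemma g (by omega) hx hkp S hS h

/-- `lam 0 = 0` and `mu 0 = 1` from `lam' 0 = 0`, `mu' 0 = 1`, `s 1 = t 1` -/
private theorem el_swap (g : GForm F m) (hm : 1 ≤ m) (hs : g.s 1 = g.t 1) :
    (g.lam 0 = g.lam' 0) ∧ (g.mu 0 = g.mu' 0) := by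
  have h1 : g.t 1 - 1 ≠ 0 := by
    rw [← g.t0]
    exact sub_ne_zero.2 (g.t_inj 0 1 (by omega) (by omega)).symm
  have e1 := g.row1G (k := 1) hm hm
  have e2 := g.row1H (k := 1) hm hm
  have f1 := g.swap.row1G (k := 1) hm hm
  have f2 := g.swap.row1H (k := 1) hm hm
  simp only [GForm.swap_G, GForm.swap_H, GForm.swap_s] at f1 f2
  have l1 : g.swap.lam' 0 = g.lam 0 := rfl
  have l2 : g.swap.mu' 0 = g.mu 0 := rfl
  rw [l1] at f1
  rw [l2] at f2
  rw [hs] at e1 e2
  constructor
  · apply mul_left_cancel₀ h1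
    linear_combination f1 - e1
  · apply mul_left_cancel₀ h1
    linear_combination f2 - e2

private theorem el_off (g : GForm F m) (hm : 55 ≤ m) (hne : g.s 1 ≠ g.t 1)
    (hx : g.lam' 0 = 0) (hx' : g.mu' 0 = 1) : False := by
  by_cases hy : g.lam 0 ≠ 0 ∨ g.mu 0 ≠ 1
  · obtain ⟨-, h⟩ := el_row g.swap hm hy
    exact hne (xone_off g (by omega) hx hx' h)
  · push Not at hy
    obtain ⟨hy, -⟩ := hy
    have e1 := g.row1G (k := 1) (by omega) (by omega)
    have f1 := g.swap.row1G (k := 1) (by omega) (by omega)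
    simp only [GForm.swap_G, GForm.swap_s] at f1
    have l1 : g.swap.lam' 0 = g.lam 0 := rfl
    rw [l1, hy] at f1
    rw [hx] at e1
    exact hne (by linear_combination f1 - e1)

/-- the elimination theorem for `m ≥ 55` -/
theorem elim_large (g : GForm F m) (hm : 55 ≤ m) :
    ∀ i, i + 1 < m → g.t i = g.t 1 ^ i ∧ g.s i = g.t 1 ^ i := by
  by_cases hst : g.s 1 = g.t 1
  · obtain ⟨hl, hu⟩ := el_swap g (by omega) hst
    by_cases hx : g.lam' 0 ≠ 0 ∨ g.mu' 0 ≠ 1
    · obtain ⟨-, h1⟩ := el_row g hm hx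
      obtain ⟨-, h2⟩ := el_row g.swap hm (by
        show g.lam 0 ≠ 0 ∨ g.mu 0 ≠ 1
        rw [hl, hu]
        exact hx)
      have h2' : ∀ k, k ≤ 7 → g.s k = g.t 1 ^ k := fun k hk => by
        have := h2 k hk
        simp only [GForm.swap_t] at this
        rw [this, hst]
      have a := e3 g (by omega) (g.t 1) (fun j hj => h1 j (by omega))
        (by rw [h2' 1 (by omega), pow_one]) (h2' 2 (by omega))
      have b := e3 g.swap (by omega) (g.t 1) (fun j hj => h2' j (by omega)) rfl (h1 2 (by omega))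
      intro i hi
      exact ⟨b i hi, a i hi⟩
    · push Not at hx
      obtain ⟨hx, hx'⟩ := hx
      have a := xone_diag g (by omega) hx hx' hst
      have b := xone_diag g.swap (by omega) (by
        show g.lam 0 = 0
        rw [hl, hx]) (by
        show g.mu 0 = 1
        rw [hu, hx']) (by
        show g.t 1 = g.s 1
        exact hst.symm)
      intro i hi
      refine ⟨?_, a i (by omega)⟩
      have := b i (by omega)
      simp only [GForm.swap_t, GForm.swap_s] at this
      rw [this, hst]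
  · exfalso
    by_cases hx : g.lam' 0 ≠ 0 ∨ g.mu' 0 ≠ 1
    · by_cases hy : g.lam 0 ≠ 0 ∨ g.mu 0 ≠ 1
      · obtain ⟨ho, h1⟩ := el_row g hm hx
        obtain ⟨-, h2⟩ := el_row g.swap hm hy
        have a := sep8 g (by omega) (h1 2 (by omega)) h2 hst
        have b := sep8 g.swap (by omega) (h2 2 (by omega)) h1 (fun h => hst h.symm)
        simp only [GForm.swap_t, GForm.swap_s] at b
        refine ho 12 (by omega) (by omega) ?_
        have ht : g.t 1 ^ 4 ≠ 0 := pow_ne_zero 4 (g.t_ne 1 (by omega))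
        apply mul_left_cancel₀ ht
        linear_combination a + (g.t 1 ^ 8 + g.s 1 ^ 4) * b
      · push Not at hy
        exact el_off g.swap hm (fun h => hst h.symm) hy.1 hy.2
    · push Not at hx
      exact el_off g hm hst hx.1 hx.2

end Pool.Agent.Helper31.IPF
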