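import Pool.Agent.Helper54.IP.GSwap

/-!
TH-P: the inversion symmetry of the Szegő form: `t, s -> 1/t, 1/s`, `G <-> H`, `lam -> 1 - mu`,
`mu -> 1 - lam` (and the same for the primes).
-/

namespace Pool.Agent.Helper31.IPF

open Pool.Agent.Helper54.IP

variable {F : Type*} [Field F] {m : ℕ}

private theorem gi_one {t G G' H lam : F} {k : ℕ} (ht : t ≠ 0)
    (h : G' = (1 - lam) * (t * G) + lam * (t ^ k * H)) :
    t⁻¹ ^ (k + 1) * G' = (1 - (1 - lam)) * (t⁻¹ * H) + (1 - lam) * (t⁻¹ ^ k * G) := by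
  rw [h]
  rw [inv_pow, inv_pow, pow_succ]
  have hp : t ^ k ≠ 0 := pow_ne_zero k ht
  field_simp
  ring

private theorem gi_two {t G H' H mu : F} {k : ℕ} (ht : t ≠ 0)
    (h : t ^ (k + 1) * H' = (1 - mu) * (t * G) + mu * (t ^ k * H)) :
    H' = (1 - (1 - mu)) * (t⁻¹ * H) + (1 - mu) * (t⁻¹ ^ k * G) := by
  have hp : t ^ k ≠ 0 := pow_ne_zero k ht
  rw [inv_pow]
  field_simp
  rw [pow_succ] at h
  linear_combination h

/-- inversion of the Szegő form -/
def ginv (g : GForm F m) : GForm F m where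
  t := fun j => (g.t j)⁻¹
  s := fun k => (g.s k)⁻¹
  G := g.H
  H := g.G
  lam := fun k => 1 - g.mu k
  mu := fun k => 1 - g.lam k
  lam' := fun k => 1 - g.mu' k
  mu' := fun k => 1 - g.lam' k
  t0 := by simp [g.t0]
  s0 := by simp [g.s0]
  t_ne := fun i hi => inv_ne_zero (g.t_ne i hi)
  s_ne := fun i hi => inv_ne_zero (g.s_ne i hi)
  t_inj := fun i j hij hj h => g.t_inj i j hij hj (inv_injective h)
  s_inj := fun i j hij hj h => g.s_inj i j hij hj (inv_injective h)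
  G0 := g.H0
  G0' := g.H0'
  H0 := g.G0
  H0' := g.G0'
  U1 := fun j k hj hk => gi_two (g.t_ne j hj) (g.U2 j k hj hk)
  U2 := fun j k hj hk => gi_one (g.t_ne j hj) (g.U1 j k hj hk)
  V1 := fun j k hj hk => gi_two (g.s_ne k hk) (g.V2 j k hj hk)
  V2 := fun j k hj hk => gi_one (g.s_ne k hk) (g.V1 j k hj hk)
  lam_ne := fun k hk h => g.mu_ne k hk (by linear_combination -h)
  mu_ne := fun k hk h => g.lam_ne k hk (by linear_combination -h)
  lm_ne := fun k hk h => g.lm_ne k hk (by linear_combination h)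
  lam'_ne := fun k hk h => g.mu'_ne k hk (by linear_combination -h)
  mu'_ne := fun k hk h => g.lam'_ne k hk (by linear_combination -h)
  lm'_ne := fun k hk h => g.lm'_ne k hk (by linear_combination h)

@[simp] theorem ginv_t (g : GForm F m) (j : ℕ) : (ginv g).t j = (g.t j)⁻¹ := rfl
@[simp] theorem ginv_s (g : GForm F m) (k : ℕ) : (ginv g).s k = (g.s k)⁻¹ := rfl
@[simp] theorem ginv_lam' (g : GForm F m) (k : ℕ) : (ginv g).lam' k = 1 - g.mu' k := rfl
@[simp] theorem ginv_mu' (g : GForm F m) (k : ℕ) : (ginv g).mu' k = 1 - g.lam' k := rfl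

theorem ginv_kap (g : GForm F m) {j k : ℕ} (hj : j ≤ m) :
    g.t j ^ (k + 1) * (ginv g).kap j k = -g.kap j k := by
  have ht := g.t_ne j hj
  have hp : g.t j ^ k ≠ 0 := pow_ne_zero k ht
  show g.t j ^ (k + 1) * ((g.t j)⁻¹ * g.H j k - (g.t j)⁻¹ ^ k * g.G j k) =
    -(g.t j * g.G j k - g.t j ^ k * g.H j k)
  rw [inv_pow, pow_succ]
  field_simp
  ring

theorem ginv_kap_ne (g : GForm F m) {j k : ℕ} (hj : j ≤ m) (h : g.kap j k ≠ 0) :
    (ginv g).kap j k ≠ 0 := by
  intro h0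
  have := ginv_kap g (k := k) hj
  rw [h0, mul_zero] at this
  exact h (neg_eq_zero.1 this.symm)

end Pool.Agent.Helper31.IPF
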