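import Pool.Agent.Helper31.IPF.StripDefs

/-!
TH-P long-strip line: (L1) and (L2) from (E1), (E2) at a nondegenerate column (scalar identities).
-/

namespace Pool.Agent.Helper31.IPF

variable {F : Type*} [Field F]

private theorem la_id1 (t T x x' al de s X Y g r : F) (hg : g = 1 - x + x * s)
    (hr : r = (1 - x') * s + x') :
    (T * X * (-(Y * g * (s * g))) * (T - 1) * (t - 1)
      + (1 - x) * T * (Y * (s * g)) * X * (T - t) * (t - 1)
      - x * X * Y * (s * g - X * r) * s * (T - t) * (T - 1)) *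
    (t * (X * s * (al * s * g + (1 - al) * r) * r - Y * g * ((1 - de) * s * g + de * r)) *
        (T - 1) * (t - 1)
      - (1 - x') * (s * s * (al * s * g + (1 - al) * r) - Y * ((1 - de) * s * g + de * r)) * X *
        (T - t) * (t - 1)
      - x' * (al * X + (1 - al) * t) * (s * g - X * r) * s * (T - t) * (T - 1)) -
    (t * (-(Y * g * (s * g))) * (T - 1) * (t - 1)
      + (1 - x') * (Y * (s * g)) * X * (T - t) * (t - 1)) *
    (T * X * (X * s * (al * s * g + (1 - al) * r) * r - Y * g * ((1 - de) * s * g + de * r)) *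
        (T - 1) * (t - 1)
      - (1 - x) * T * (s * s * (al * s * g + (1 - al) * r) - Y * ((1 - de) * s * g + de * r)) * X *
        (T - t) * (t - 1)
      - x * ((1 - de) * X + de * t) * Y * (s * g - X * r) * s * (T - t) * (T - 1)) =
    -((T - 1) * (T - t) * s * Y * (s * g - X * r) * (t * s * g - X * r)) *
      l1e t T x x' al de s X Y := by
  subst hg hr
  rw [l1e]
  ring

private theorem la_id2 (t T x x' al de s X Y g r : F) (hg : g = 1 - x + x * s)
    (hr : r = (1 - x') * s + x') :
    (T * X * (X * s * r * r) * (T - 1) * (t - 1)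
      - (1 - x) * T * (s * s * r) * X * (T - t) * (t - 1)) *
    (t * (X * s * (al * s * g + (1 - al) * r) * r - Y * g * ((1 - de) * s * g + de * r)) *
        (T - 1) * (t - 1)
      - (1 - x') * (s * s * (al * s * g + (1 - al) * r) - Y * ((1 - de) * s * g + de * r)) * X *
        (T - t) * (t - 1)
      - x' * (al * X + (1 - al) * t) * (s * g - X * r) * s * (T - t) * (T - 1)) -
    (t * (X * s * r * r) * (T - 1) * (t - 1)
      - (1 - x') * (s * s * r) * X * (T - t) * (t - 1)
      - x' * t * (s * g - X * r) * s * (T - t) * (T - 1)) *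
    (T * X * (X * s * (al * s * g + (1 - al) * r) * r - Y * g * ((1 - de) * s * g + de * r)) *
        (T - 1) * (t - 1)
      - (1 - x) * T * (s * s * (al * s * g + (1 - al) * r) - Y * ((1 - de) * s * g + de * r)) * X *
        (T - t) * (t - 1)
      - x * ((1 - de) * X + de * t) * Y * (s * g - X * r) * s * (T - t) * (T - 1)) =
    ((T - 1) * (T - t) * s * (s * g - X * r) * (t * s * g - X * r)) *
      l2e t T x x' al de s X Y := by
  subst hg hr
  rw [l2e]
  ring

/-- (L1), (L2) from (E1), (E2) -/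
theorem l12_of {t T x x' al de s X Y g1 h1 g2 h2 : F} (hs : s ≠ 0) (hY : Y ≠ 0)
    (hT : T ≠ 1) (htT : T ≠ t) (hg1 : g1 = 1 - x + x * s) (hh1 : s * h1 = (1 - x') * s + x')
    (hg2 : g2 = s * (al * g1 + (1 - al) * h1)) (hh2 : s * h2 = (1 - de) * g1 + de * h1)
    (hE1 : t * (g2 * (X * h1) - Y * h2 * g1) * (T - 1) * (t - 1)
      - X * (1 - x') * (g2 - Y * h2) * (T - t) * (t - 1)
      - x' * (al * X + (1 - al) * t) * (g1 - X * h1) * (T - t) * (T - 1) = 0)
    (hE2 : T * X * (X * h1 * g2 - g1 * (Y * h2)) * (T - 1) * (t - 1)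
      - T * X * (1 - x) * (g2 - Y * h2) * (T - t) * (t - 1)
      - x * Y * ((1 - de) * X + de * t) * (g1 - X * h1) * (T - t) * (T - 1) = 0)
    (hD : g1 - X * h1 ≠ 0) (hk : t * g1 - X * h1 ≠ 0) :
    l1e t T x x' al de s X Y = 0 ∧ l2e t T x x' al de s X Y = 0 := by
  obtain ⟨r, hr⟩ : ∃ r, r = (1 - x') * s + x' := ⟨_, rfl⟩
  rw [← hr] at hh1
  have e2 : g2 = al * s * g1 + (1 - al) * r := by
    rw [hg2]
    linear_combination (1 - al) * hh1
  have e3 : s * s * h2 = (1 - de) * s * g1 + de * r := by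
    linear_combination s * hh2 + de * hh1
  have p1 : t * (X * s * (al * s * g1 + (1 - al) * r) * r - Y * g1 * ((1 - de) * s * g1 + de * r)) *
        (T - 1) * (t - 1)
      - (1 - x') * (s * s * (al * s * g1 + (1 - al) * r) - Y * ((1 - de) * s * g1 + de * r)) * X *
        (T - t) * (t - 1)
      - x' * (al * X + (1 - al) * t) * (s * g1 - X * r) * s * (T - t) * (T - 1) = 0 := by
    rw [← e2, ← e3, ← hh1]
    linear_combination s * s * hE1
  have p2 : T * X * (X * s * (al * s * g1 + (1 - al) * r) * r -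
        Y * g1 * ((1 - de) * s * g1 + de * r)) * (T - 1) * (t - 1)
      - (1 - x) * T * (s * s * (al * s * g1 + (1 - al) * r) -
        Y * ((1 - de) * s * g1 + de * r)) * X * (T - t) * (t - 1)
      - x * ((1 - de) * X + de * t) * Y * (s * g1 - X * r) * s * (T - t) * (T - 1) = 0 := by
    rw [← e2, ← e3, ← hh1]
    linear_combination s * s * hE2
  have i1 := la_id1 t T x x' al de s X Y g1 r hg1 hr
  have i2 := la_id2 t T x x' al de s X Y g1 r hg1 hr
  rw [p1, p2, mul_zero, mul_zero, sub_zero] at i1 i2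
  have n1 : T - 1 ≠ 0 := sub_ne_zero.2 hT
  have n2 : T - t ≠ 0 := sub_ne_zero.2 htT
  have n3 : s * g1 - X * r ≠ 0 := by
    have : s * g1 - X * r = s * (g1 - X * h1) := by
      rw [← hh1]
      ring
    rw [this]
    exact mul_ne_zero hs hD
  have n4 : t * s * g1 - X * r ≠ 0 := by
    have : t * s * g1 - X * r = s * (t * g1 - X * h1) := by
      rw [← hh1]
      ring
    rw [this]
    exact mul_ne_zero hs hk
  constructor
  · exact (mul_eq_zero.1 i1.symm).resolve_left (by simp [n1, n2, hs, hY, n3, n4])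
  · exact (mul_eq_zero.1 i2.symm).resolve_left (by simp [n1, n2, hs, n3, n4])

end Pool.Agent.Helper31.IPF
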