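import Pool.Agent.Helper31.IPF.Coef

/-!
TH-P long-strip line, M4: ten good columns `k0..k0+9`, all nine steps of type 1.

PROOF.  Put `r = T/t`.  Two consecutive type 1 steps `k, k+1` give `t * s (k+2) = T * s k`
(divide `al s_(k+1) s_(k+2) t^(k+1) = de T^(k+1)` by `al s_k s_(k+1) t^k = de T^k`).
So `s (k0+2i) = r^i s k0`, `s (k0+1+2i) = r^i s (k0+1)`, `i <= 4`; injectivity of `s`: `r^i <> 1`
for `1 <= i <= 4`.
Divide `l1_coef` at `k = k0 + 2i` by `s_k t^k` (`R = T^k/t^k = r^k`):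
`a0 + a1 s_k + a2 R/s_k + a3 R - a4 t^k - a5 t^k R/s_k = 0`, that is for `i = 0..4`
`c0 + c1 r^i + c2 (r^2)^i + c3 (t^2)^i + c4 (t^2 r)^i = 0`,
`c0 = a0`, `c1 = a1 s + a2 R/s`, `c2 = a3 R <> 0`, `c3 = - a4 X <> 0`, `c4 = - a5 X R/s`
(`s = s k0`, `R = r^k0`, `X = t^k0`).
(1) `c2 (r^2-1)(r^2-r)(r^2-t^2)(r^2-t^2 r) = 0` (combination of the five equations with the
coefficients of `L(z) = (z-1)(z-r)(z-t^2)(z-t^2 r)`), so `r^2 = t^2` or `r = t^2`.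
(2) `r^2 = t^2`: the nodes are `1, r, r^2, r^3`, so `c4 (r^3-1)(r^3-r)(r^3-r^2) = 0`: `a5 = 0`, so
`x' = 1`.  The same for `g.inv` gives `x = 1`.  Contradiction.
(3) `r = t^2` (`T = t^3`): nodes `1, t^2, t^4` distinct: `c0 = 0`, `c1 + c3 = 0`, `c2 + c4 = 0`.
`c2 + c4 = 0` says `s k0 = kp t^k0` with `a3 kp = a5` (`R = X^2`), `c1 + c3 = 0` says
`a1 kp^2 + a2 = a4 kp`.
(4) For `g.inv` (also a run of type 1, `Strip.inv_one`) one gets `g.inv.ParB kp1` with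
`(s k0)⁻¹ = kp1 (t⁻¹)^k0`, so `kp1 = kp⁻¹`.
-/

namespace Pool.Agent.Helper31.IPF

variable {F : Type*} [Field F] {m : ℕ}

/-- two type 1 steps: `t s (k+2) = T s k` -/
private theorem on_two (g : Strip F m) {k : ℕ} (hk : k + 2 ≤ m) (h1 : g.One k) (h2 : g.One (k + 1)) :
    g.t * g.s (k + 2) = g.T * g.s k := by
  obtain ⟨-, -, e1⟩ := h1
  obtain ⟨-, -, e2⟩ := h2
  have hs1 := g.s_ne (k + 1) (by omega)
  have ht := g.t_ne
  have hT := g.T_ne
  have hz := pow_ne_zero k g.t_ne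
  rw [show k + 1 + 1 = k + 2 from rfl] at e2
  have n : g.al * g.s (k + 1) * g.t ^ k ≠ 0 := mul_ne_zero (mul_ne_zero g.al_ne hs1) hz
  apply mul_left_cancel₀ n
  rw [pow_succ, pow_succ] at e2
  linear_combination e2 - g.T * e1

/-- the five node relation, `i`-th column of one parity -/
private theorem on_col (g : Strip F m) {k : ℕ} (hk : k ≤ m) (hg : g.Good k) {s R X : F}
    (hs0 : s ≠ 0) (hX : X ≠ 0) (r : F) (i : ℕ) (hs : g.s k = r ^ i * s)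
    (ht : g.t ^ k = g.t ^ (2 * i) * X) (hT : g.T ^ k = g.t ^ (2 * i) * X * (r ^ (2 * i) * R))
    (hr : r ≠ 0) :
    g.a0 + (g.a1 * s + g.a2 * (R / s)) * r ^ i + g.a3 * R * (r ^ 2) ^ i
      - g.a4 * X * (g.t ^ 2) ^ i - g.a5 * (X * (R / s)) * (g.t ^ 2 * r) ^ i = 0 := by
  have h := g.l1_coef hg hk
  rw [hs, ht, hT] at h
  have hti : g.t ^ (2 * i) ≠ 0 := pow_ne_zero _ g.t_ne
  have hri : r ^ i ≠ 0 := pow_ne_zero _ hr
  have n : r ^ i * s * (g.t ^ (2 * i) * X) ≠ 0 := by simp [hs0, hX, hri, hti]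
  have e1 : (g.t ^ 2) ^ i = g.t ^ (2 * i) := by rw [← pow_mul]
  have e2 : (r ^ 2) ^ i = r ^ (2 * i) := by rw [← pow_mul]
  have e3 : r ^ (2 * i) = r ^ i * r ^ i := by rw [← pow_add]; congr 1; omega
  rw [mul_pow, e1, e2, e3]
  rw [e3] at h
  refine (mul_eq_zero.1 ?_).resolve_left n
  obtain ⟨u, hu⟩ : ∃ u, u = R / s := ⟨_, rfl⟩
  have hR : R = u * s := by
    rw [hu]
    field_simp
  rw [← hu]
  rw [hR] at h
  rw [hR]
  linear_combination h

private theorem on_main (g : Strip F m) (k0 : ℕ) (hk : k0 + 9 ≤ m)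
    (hrun : ∀ i, i < 9 → g.One (k0 + i)) :
    (g.T ^ 2 = g.t ^ 4 ∧ g.a5 = 0) ∨
    (g.T = g.t ^ 3 ∧ g.a0 = 0 ∧ g.a1 * g.s k0 ^ 2 + g.a2 * (g.t ^ k0) ^ 2 = g.a4 * (g.s k0 * g.t ^ k0) ∧
      g.a3 * g.s k0 = g.a5 * g.t ^ k0) := by
  have ht := g.t_ne
  have hT := g.T_ne
  obtain ⟨r, hr⟩ : ∃ r, r = g.T / g.t := ⟨_, rfl⟩
  have hTr : g.T = g.t * r := by
    rw [hr]
    field_simp
  have hr0 : r ≠ 0 := by
    rw [hr]
    exact div_ne_zero hT ht
  have hs0 := g.s_ne k0 (by omega)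
  have hX : g.t ^ k0 ≠ 0 := pow_ne_zero _ ht
  have two : ∀ i, i < 8 → g.s (k0 + i + 2) = r * g.s (k0 + i) := by
    intro i hi
    have h := on_two g (k := k0 + i) (by omega) (hrun i (by omega)) (hrun (i + 1) (by omega))
    apply mul_left_cancel₀ ht
    rw [h, hTr]
    ring
  have s2 : g.s (k0 + 2) = r ^ 1 * g.s k0 := by
    rw [pow_one]
    exact two 0 (by omega)
  have s4 : g.s (k0 + 4) = r ^ 2 * g.s k0 := by
    have := two 2 (by omega)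
    rw [show k0 + 2 + 2 = k0 + 4 from rfl, s2] at this
    rw [this]
    ring
  have s6 : g.s (k0 + 6) = r ^ 3 * g.s k0 := by
    have := two 4 (by omega)
    rw [show k0 + 4 + 2 = k0 + 6 from rfl, s4] at this
    rw [this]
    ring
  have s8 : g.s (k0 + 8) = r ^ 4 * g.s k0 := by
    have := two 6 (by omega)
    rw [show k0 + 6 + 2 = k0 + 8 from rfl, s6] at this
    rw [this]
    ring
  have nr : ∀ i, 1 ≤ i → i ≤ 4 → r ^ i ≠ 1 := by
    intro i h1 h4 h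
    have hh : g.s (k0 + 2 * i) = g.s k0 := by
      interval_cases i
      · rw [show k0 + 2 * 1 = k0 + 2 from rfl, s2, h, one_mul]
      · rw [show k0 + 2 * 2 = k0 + 4 from rfl, s4, h, one_mul]
      · rw [show k0 + 2 * 3 = k0 + 6 from rfl, s6, h, one_mul]
      · rw [show k0 + 2 * 4 = k0 + 8 from rfl, s8, h, one_mul]
    exact g.s_inj k0 (k0 + 2 * i) (by omega) (by omega) hh.symm
  have r1 : r - 1 ≠ 0 := by
    have := nr 1 (by omega) (by omega)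
    rw [pow_one] at this
    exact sub_ne_zero.2 this
  have r2 : r ^ 2 - 1 ≠ 0 := sub_ne_zero.2 (nr 2 (by omega) (by omega))
  have r3 : r ^ 3 - 1 ≠ 0 := sub_ne_zero.2 (nr 3 (by omega) (by omega))
  have gd : ∀ i, i < 9 → g.Good (k0 + i) := fun i hi => (hrun i hi).1
  have pt : ∀ i, g.t ^ (k0 + 2 * i) = g.t ^ (2 * i) * g.t ^ k0 := fun i => by
    rw [pow_add, mul_comm]
  have pT : ∀ i, g.T ^ (k0 + 2 * i) = g.t ^ (2 * i) * g.t ^ k0 * (r ^ (2 * i) * r ^ k0) := fun i => by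
    rw [hTr, mul_pow, pow_add, pow_add]
    ring
  have c0 := on_col g (k := k0) (by omega) (gd 0 (by omega)) hs0 hX r 0 (by rw [pow_zero, one_mul])
    (pt 0) (pT 0) hr0
  have c1 := on_col g (k := k0 + 2) (by omega) (gd 2 (by omega)) hs0 hX r 1 s2 (pt 1) (pT 1) hr0
  have c2 := on_col g (k := k0 + 4) (by omega) (gd 4 (by omega)) hs0 hX r 2 s4 (pt 2) (pT 2) hr0
  have c3 := on_col g (k := k0 + 6) (by omega) (gd 6 (by omega)) hs0 hX r 3 s6 (pt 3) (pT 3) hr0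
  have c4 := on_col g (k := k0 + 8) (by omega) (gd 8 (by omega)) hs0 hX r 4 s8 (pt 4) (pT 4) hr0
  obtain ⟨A1, hA1⟩ : ∃ A, A = g.a1 * g.s k0 + g.a2 * (r ^ k0 / g.s k0) := ⟨_, rfl⟩
  obtain ⟨A2, hA2⟩ : ∃ A, A = g.a3 * r ^ k0 := ⟨_, rfl⟩
  obtain ⟨A3, hA3⟩ : ∃ A, A = g.a4 * g.t ^ k0 := ⟨_, rfl⟩
  obtain ⟨A4, hA4⟩ : ∃ A, A = g.a5 * (g.t ^ k0 * (r ^ k0 / g.s k0)) := ⟨_, rfl⟩
  rw [← hA1, ← hA2, ← hA3, ← hA4] at c0 c1 c2 c3 c4
  obtain ⟨t2, ht2⟩ : ∃ t2, t2 = g.t ^ 2 := ⟨_, rfl⟩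
  rw [← ht2] at c0 c1 c2 c3 c4
  have nA2 : A2 ≠ 0 := by
    rw [hA2]
    exact mul_ne_zero g.a3_ne (pow_ne_zero _ hr0)
  -- the node `r^2`
  have k1 : A2 * ((r ^ 2 - 1) * (r ^ 2 - r) * ((r ^ 2 - t2) * (r ^ 2 - t2 * r))) = 0 := by
    linear_combination c4 - (1 + r + t2 + t2 * r) * c3 +
      (r + t2 + t2 * r + r * t2 + r * (t2 * r) + t2 * (t2 * r)) * c2 -
      (r * t2 + r * (t2 * r) + t2 * (t2 * r) + r * t2 * (t2 * r)) * c1 + r * t2 * (t2 * r) * c0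
  have n1 : (r ^ 2 - 1) * (r ^ 2 - r) ≠ 0 := by
    have : r ^ 2 - r = r * (r - 1) := by ring
    rw [this]
    exact mul_ne_zero r2 (mul_ne_zero hr0 r1)
  have k2 := (mul_eq_zero.1 ((mul_eq_zero.1 k1).resolve_left nA2)).resolve_left n1
  rcases mul_eq_zero.1 k2 with k3 | k3
  · -- `r^2 = t^2`
    left
    have e : t2 = r ^ 2 := (sub_eq_zero.1 k3).symm
    rw [e] at c0 c1 c2 c3
    have k4 : A4 * ((r ^ 3 - 1) * (r ^ 3 - r) * (r ^ 3 - r ^ 2)) = 0 := by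
      linear_combination -c3 + (1 + r + r ^ 2) * c2 - (r + r ^ 2 + r ^ 3) * c1 + r ^ 3 * c0
    have n2 : (r ^ 3 - 1) * (r ^ 3 - r) * (r ^ 3 - r ^ 2) ≠ 0 := by
      have q1 : r ^ 3 - r = r * (r ^ 2 - 1) := by ring
      have q2 : r ^ 3 - r ^ 2 = r ^ 2 * (r - 1) := by ring
      rw [q1, q2]
      exact mul_ne_zero (mul_ne_zero r3 (mul_ne_zero hr0 r2)) (mul_ne_zero (pow_ne_zero 2 hr0) r1)
    have k5 := (mul_eq_zero.1 k4).resolve_right n2
    constructor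
    · rw [hTr, mul_pow, ← e, ht2]
      ring
    · rw [hA4] at k5
      exact (mul_eq_zero.1 k5).resolve_right
        (mul_ne_zero hX (div_ne_zero (pow_ne_zero _ hr0) hs0))
  · -- `r = t^2`
    right
    have e : t2 = r := by
      have : r * (r - t2) = 0 := by linear_combination k3
      exact (sub_eq_zero.1 ((mul_eq_zero.1 this).resolve_left hr0)).symm
    rw [e] at c0 c1 c2
    have n3 : (r - 1) ≠ 0 := r1
    have n4 : (r ^ 2 - 1) * (r ^ 2 - r) ≠ 0 := n1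
    have p2 : (A2 - A4) * ((r ^ 2 - 1) * (r ^ 2 - r)) = 0 := by
      linear_combination c2 - (1 + r) * c1 + r * c0
    have p1 : A2 = A4 := sub_eq_zero.1 ((mul_eq_zero.1 p2).resolve_right n4)
    have p3 : (A1 - A3) * (r - 1) = 0 := by
      rw [p1] at c0 c1
      linear_combination c1 - c0
    have p4 : A1 = A3 := sub_eq_zero.1 ((mul_eq_zero.1 p3).resolve_right n3)
    have p5 : g.a0 = 0 := by
      rw [p1, p4] at c0
      linear_combination c0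
    have hR : r ^ k0 = g.t ^ k0 * g.t ^ k0 := by
      rw [← e, ht2, ← mul_pow]
      congr 1
      ring
    refine ⟨?_, p5, ?_, ?_⟩
    · rw [hTr, ← e, ht2]
      ring
    · rw [hA1, hA3, hR] at p4
      field_simp at p4
      linear_combination p4
    · rw [hA2, hA4, hR] at p1
      field_simp at p1
      linear_combination p1

theorem one_run (g : Strip F m) (hx : g.x ≠ 1 ∨ g.x' ≠ 1) (k0 : ℕ) (hk : k0 + 9 ≤ m)
    (hrun : ∀ i, i < 9 → g.One (k0 + i)) :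
    g.T = g.t ^ 3 ∧ ∃ kp : F, kp ≠ 0 ∧ g.ParB kp ∧ g.inv.ParB kp⁻¹ := by
  have ht := g.t_ne
  have hT := g.T_ne
  have hs0 := g.s_ne k0 (by omega)
  have hX : g.t ^ k0 ≠ 0 := pow_ne_zero _ ht
  have hrun' : ∀ i, i < 9 → g.inv.One (k0 + i) := fun i hi => g.inv_one (by omega) (hrun i hi)
  have h1 := on_main g k0 hk hrun
  have h2 := on_main g.inv k0 hk hrun'
  have key : g.T = g.t ^ 3 ∧ g.a0 = 0 ∧
      g.a1 * g.s k0 ^ 2 + g.a2 * (g.t ^ k0) ^ 2 = g.a4 * (g.s k0 * g.t ^ k0) ∧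
      g.a3 * g.s k0 = g.a5 * g.t ^ k0 := by
    rcases h1 with ⟨h1, h1'⟩ | h1
    · exfalso
      have x1 : g.x' = 1 := by
        have n : g.x * (g.T - g.t) * g.de * (g.t - 1) ≠ 0 := by
          have a1 := g.x_ne
          have a2 := sub_ne_zero.2 g.T_net
          have a3 := g.de_ne
          have a4 := sub_ne_zero.2 g.t_ne1
          simp [a1, a2, a3, a4]
        rw [Strip.a5] at h1'
        have : g.x * (g.T - g.t) * g.de * (g.t - 1) * (1 - g.x') = 0 := by linear_combination h1'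
        have := (mul_eq_zero.1 this).resolve_left n
        linear_combination -this
      rcases h2 with ⟨h2, h2'⟩ | ⟨h2, -, -, h2'⟩
      · have x2 : g.x = 1 := by
          have n : g.x' * (g.T⁻¹ - g.t⁻¹) * g.al * (g.t⁻¹ - 1) ≠ 0 := by
            have a1 := g.x'_ne
            have a2 := sub_ne_zero.2 g.inv.T_net
            have a3 := g.al_ne
            have a4 := sub_ne_zero.2 g.inv.t_ne1
            have b2 : g.T⁻¹ - g.t⁻¹ ≠ 0 := a2
            have b4 : g.t⁻¹ - 1 ≠ 0 := a4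
            simp [a1, b2, a3, b4]
          have h3 : g.x' * (g.T⁻¹ - g.t⁻¹) * (1 - g.x) * g.al * (g.t⁻¹ - 1) = 0 := h2'
          have : g.x' * (g.T⁻¹ - g.t⁻¹) * g.al * (g.t⁻¹ - 1) * (1 - g.x) = 0 := by
            linear_combination h3
          have := (mul_eq_zero.1 this).resolve_left n
          linear_combination -this
        rcases hx with hx | hx
        · exact hx x2
        · exact hx x1
      · -- `T = t^3` from the inverse strip and `T^2 = t^4`: `t^2 = 1`, `T = t`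
        have e1 : g.T⁻¹ = (g.t⁻¹) ^ 3 := h2
        have e2 : g.T = g.t ^ 3 := by
          rw [inv_pow] at e1
          exact inv_injective e1
        have e3 : g.t ^ 4 * (g.t ^ 2 - 1) = 0 := by
          rw [e2] at h1
          linear_combination h1
        have e4 := (mul_eq_zero.1 e3).resolve_left (pow_ne_zero 4 ht)
        exact g.T_net (by rw [e2]; linear_combination g.t * e4)
    · exact h1
  obtain ⟨k1, k2, k3, k4⟩ := key
  have key' : g.inv.a0 = 0 ∧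
      g.inv.a1 * (g.s k0)⁻¹ ^ 2 + g.inv.a2 * (g.t⁻¹ ^ k0) ^ 2 =
        g.inv.a4 * ((g.s k0)⁻¹ * g.t⁻¹ ^ k0) ∧
      g.inv.a3 * (g.s k0)⁻¹ = g.inv.a5 * g.t⁻¹ ^ k0 := by
    rcases h2 with ⟨h2, h2'⟩ | ⟨-, h2⟩
    · exfalso
      have e1 : g.T⁻¹ ^ 2 = g.t⁻¹ ^ 4 := h2
      rw [inv_pow, inv_pow] at e1
      have e2 : g.T ^ 2 = g.t ^ 4 := inv_injective e1
      have e3 : g.t ^ 4 * (g.t ^ 2 - 1) = 0 := by
        rw [k1] at e2
        linear_combination e2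
      have e4 := (mul_eq_zero.1 e3).resolve_left (pow_ne_zero 4 ht)
      exact g.T_net (by rw [k1]; linear_combination g.t * e4)
    · exact h2
  obtain ⟨l1, l2, l3⟩ := key'
  refine ⟨k1, g.s k0 / g.t ^ k0, div_ne_zero hs0 hX, ⟨k2, ?_, ?_⟩, ⟨l1, ?_, ?_⟩⟩
  · field_simp
    linear_combination k3
  · field_simp
    linear_combination k4
  · have e : (g.s k0 / g.t ^ k0)⁻¹ = g.t ^ k0 * (g.s k0)⁻¹ := by
      rw [inv_div, div_eq_mul_inv]
    rw [e]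
    rw [inv_pow g.t k0] at l2
    have hz : g.t ^ k0 * (g.t ^ k0)⁻¹ = 1 := mul_inv_cancel₀ hX
    have l2' : (g.t ^ k0) ^ 2 * (g.inv.a1 * (g.s k0)⁻¹ ^ 2 + g.inv.a2 * ((g.t ^ k0)⁻¹) ^ 2) =
        (g.t ^ k0) ^ 2 * (g.inv.a4 * ((g.s k0)⁻¹ * (g.t ^ k0)⁻¹)) := by rw [l2]
    linear_combination l2' - g.inv.a2 * (g.t ^ k0 * (g.t ^ k0)⁻¹ + 1) * hz +
      g.inv.a4 * (g.s k0)⁻¹ * g.t ^ k0 * hz
  · have e : (g.s k0 / g.t ^ k0)⁻¹ = g.t ^ k0 * (g.s k0)⁻¹ := by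
      rw [inv_div, div_eq_mul_inv]
    rw [e]
    rw [inv_pow] at l3
    have hz : g.t ^ k0 * (g.t ^ k0)⁻¹ = 1 := mul_inv_cancel₀ hX
    linear_combination g.t ^ k0 * l3 + g.inv.a5 * hz

end Pool.Agent.Helper31.IPF
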