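import Mathlib

/-!
TH-P (MP_d2f54f_al), long-strip line: the strip (rows 0, 1, 2 of a `GForm`) as an abstract structure.
Paper proof: message 28423.  Dictionary: `t = t_1`, `T = t_2`, `x = 1 - lam'_0`, `x' = mu'_0`,
`al = 1 - lam'_1`, `de = mu'_1`, `be = 1 - al`, `ga = 1 - de`, `s k = s_k`, `kap k = kap_1^(k)`,
`X = t^k`, `Y = T^k`.
-/

namespace Pool.Agent.Helper31.IPF

/-- relation (L1) of helper76, cleared: `s = s_k`, `X = t^k`, `Y = T^k` -/
def l1e {F : Type*} [Field F] (t T x x' al de s X Y : F) : F :=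
  T * (t - 1) ^ 2 * (1 - x) * (al * x * s + (al * (1 - x) + (1 - al) * (1 - x'))) * X * s
    - x * x' * (1 - al) * t * (T - 1) ^ 2 * X * s
    + x * t * (T - 1) * (t - 1) * de * Y * ((1 - x) + x * s)
    - x * (T - t) * X * (x' * al * (T - 1) * X * s + (1 - x') * de * (t - 1) * Y)

/-- relation (L2) of helper76, cleared (the inversion of (L1)) -/
def l2e {F : Type*} [Field F] (t T x x' al de s X Y : F) : F :=
  T * (t - 1) ^ 2 * (1 - x') * (de * x' + (de * (1 - x') + (1 - de) * (1 - x)) * s) * X * Y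
    - x * x' * (1 - de) * t * (T - 1) ^ 2 * X * Y * s
    + x' * T * (T - 1) * (t - 1) * al * X ^ 2 * s * ((1 - x') * s + x')
    - x' * (T - t) * (x * de * t * (T - 1) * Y * s + (1 - x) * al * T * (t - 1) * s ^ 2 * X)

/-- relation (QX), cleared -/
def qxe {F : Type*} [Field F] (t T x x' al de s X : F) : F :=
  x * x' * (T - t) * (T - 1) * (al * (1 - de) * X ^ 2 + (1 - al) * de * t) * s
    + (x * x' * (T - 1) * ((1 - al) * (1 - de) * t * (T - 1) - al * de * (t ^ 2 - T))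
      - T * (t - 1) ^ 2 * (al * (1 - x) + (1 - al) * (1 - x')) *
        ((1 - de) * (1 - x) + de * (1 - x'))) * X * s
    - T * (t - 1) ^ 2 * (al * x * ((1 - de) * (1 - x) + de * (1 - x')) * s ^ 2
      + de * x' * (al * (1 - x) + (1 - al) * (1 - x'))) * X

/-- the strip, rows 0, 1, 2 and columns `0..m` -/
structure Strip (F : Type*) [Field F] (m : ℕ) where
  t : F
  T : F
  x : F
  x' : F
  al : F
  de : F
  s : ℕ → F
  kap : ℕ → F
  t_ne : t ≠ 0
  T_ne : T ≠ 0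
  t_ne1 : t ≠ 1
  T_ne1 : T ≠ 1
  T_net : T ≠ t
  x_ne : x ≠ 0
  x'_ne : x' ≠ 0
  al_ne : al ≠ 0
  de_ne : de ≠ 0
  xx_ne : x + x' ≠ 1
  ad_ne : al + de ≠ 1
  s0 : s 0 = 1
  s_ne : ∀ k, k ≤ m → s k ≠ 0
  s_inj : ∀ i j, i < j → j ≤ m → s i ≠ s j
  kap0 : kap 0 ≠ 0
  /-- a degenerate column -/
  deg : ∀ k, k < m → kap k = 0 →
    x * s (k + 1) + (1 - x) = t * (x * s k + (1 - x)) ∧
    t * s k * ((1 - x') * s (k + 1) + x') = s (k + 1) * ((1 - x') * s k + x')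
  L1 : ∀ k, 1 ≤ k → k ≤ m → kap (k - 1) ≠ 0 → kap k ≠ 0 →
    l1e t T x x' al de (s k) (t ^ k) (T ^ k) = 0
  L2 : ∀ k, 1 ≤ k → k ≤ m → kap (k - 1) ≠ 0 → kap k ≠ 0 →
    l2e t T x x' al de (s k) (t ^ k) (T ^ k) = 0
  QX : ∀ k, 1 ≤ k → k ≤ m → kap (k - 1) ≠ 0 → kap k ≠ 0 →
    qxe t T x x' al de (s k) (t ^ k) = 0
  /-- local flatness: step `k -> k+1` is of type 0 or of type 1 -/
  flat : ∀ k, 1 ≤ k → k < m → kap (k - 1) ≠ 0 → kap k ≠ 0 → kap (k + 1) ≠ 0 →
    T * s k = t * s (k + 1) ∨ al * (s k * s (k + 1)) * t ^ k = de * T ^ k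

variable {F : Type*} [Field F] {m : ℕ}

/-- a good column -/
def Strip.Good (g : Strip F m) (k : ℕ) : Prop := 1 ≤ k ∧ g.kap (k - 1) ≠ 0 ∧ g.kap k ≠ 0

/-- a type 0 step between two good columns -/
def Strip.Zero (g : Strip F m) (k : ℕ) : Prop :=
  g.Good k ∧ g.Good (k + 1) ∧ g.T * g.s k = g.t * g.s (k + 1)

/-- a type 1 step between two good columns -/
def Strip.One (g : Strip F m) (k : ℕ) : Prop :=
  g.Good k ∧ g.Good (k + 1) ∧ g.al * (g.s k * g.s (k + 1)) * g.t ^ k = g.de * g.T ^ k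

/-- a normal column, with parameter `kp` -/
def Strip.Normal (g : Strip F m) (kp : F) (k : ℕ) : Prop :=
  g.s k = kp * g.t ^ k ∧ g.kap k ≠ 0

theorem l1e_inv {t T x x' al de s X Y : F} (ht : t ≠ 0) (hT : T ≠ 0) (hs : s ≠ 0) (hX : X ≠ 0)
    (hY : Y ≠ 0) :
    t ^ 2 * T ^ 2 * X ^ 2 * Y * s ^ 2 * l1e t⁻¹ T⁻¹ x' x de al s⁻¹ X⁻¹ Y⁻¹ =
      l2e t T x x' al de s X Y := by
  rw [l1e, l2e]
  field_simp
  ring

theorem l2e_inv {t T x x' al de s X Y : F} (ht : t ≠ 0) (hT : T ≠ 0) (hs : s ≠ 0) (hX : X ≠ 0)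
    (hY : Y ≠ 0) :
    t ^ 2 * T ^ 2 * X ^ 2 * Y * s ^ 2 * l2e t⁻¹ T⁻¹ x' x de al s⁻¹ X⁻¹ Y⁻¹ =
      l1e t T x x' al de s X Y := by
  rw [l1e, l2e]
  field_simp
  ring

theorem qxe_inv {t T x x' al de s X : F} (ht : t ≠ 0) (hT : T ≠ 0) (hs : s ≠ 0) (hX : X ≠ 0) :
    t ^ 2 * T ^ 2 * X ^ 2 * s ^ 2 * qxe t⁻¹ T⁻¹ x' x de al s⁻¹ X⁻¹ =
      qxe t T x x' al de s X := by
  rw [qxe, qxe]
  field_simp
  ring

/-- the inversion symmetry `t, T, s -> 1/t, 1/T, 1/s`, `x <-> x'`, `al <-> de` -/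
def Strip.inv (g : Strip F m) : Strip F m where
  t := g.t⁻¹
  T := g.T⁻¹
  x := g.x'
  x' := g.x
  al := g.de
  de := g.al
  s := fun k => (g.s k)⁻¹
  kap := g.kap
  t_ne := inv_ne_zero g.t_ne
  T_ne := inv_ne_zero g.T_ne
  t_ne1 := fun h => g.t_ne1 (inv_eq_one.1 h)
  T_ne1 := fun h => g.T_ne1 (inv_eq_one.1 h)
  T_net := fun h => g.T_net (inv_injective h)
  x_ne := g.x'_ne
  x'_ne := g.x_ne
  al_ne := g.de_ne
  de_ne := g.al_ne
  xx_ne := by rw [add_comm]; exact g.xx_ne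
  ad_ne := by rw [add_comm]; exact g.ad_ne
  s0 := by simp [g.s0]
  s_ne := fun k hk => inv_ne_zero (g.s_ne k hk)
  s_inj := fun i j hij hj h => g.s_inj i j hij hj (inv_injective h)
  kap0 := g.kap0
  deg := fun k hk h => by
    obtain ⟨h1, h2⟩ := g.deg k hk h
    have e1 := g.s_ne k (by omega)
    have e2 := g.s_ne (k + 1) (by omega)
    have e3 := g.t_ne
    constructor
    · field_simp
      linear_combination h2
    · field_simp
      linear_combination h1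
  L1 := fun k h1 hk ha hb => by
    have e' := l1e_inv (x := g.x) (x' := g.x') (al := g.al) (de := g.de) g.t_ne g.T_ne (g.s_ne k hk)
      (pow_ne_zero k g.t_ne) (pow_ne_zero k g.T_ne)
    rw [g.L2 k h1 hk ha hb] at e'
    rw [inv_pow, inv_pow]
    have e1 := g.s_ne k (by omega)
    have h2 := g.t_ne
    have h3 := g.T_ne
    exact (mul_eq_zero.1 e').resolve_left (by simp [h2, h3, e1])
  L2 := fun k h1 hk ha hb => by
    have e' := l2e_inv (x := g.x) (x' := g.x') (al := g.al) (de := g.de) g.t_ne g.T_ne (g.s_ne k hk)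
      (pow_ne_zero k g.t_ne) (pow_ne_zero k g.T_ne)
    rw [g.L1 k h1 hk ha hb] at e'
    rw [inv_pow, inv_pow]
    have e1 := g.s_ne k (by omega)
    have h2 := g.t_ne
    have h3 := g.T_ne
    exact (mul_eq_zero.1 e').resolve_left (by simp [h2, h3, e1])
  QX := fun k h1 hk ha hb => by
    have e' := qxe_inv (x := g.x) (x' := g.x') (al := g.al) (de := g.de) g.t_ne g.T_ne (g.s_ne k hk)
      (pow_ne_zero k g.t_ne)
    rw [g.QX k h1 hk ha hb] at e'
    rw [inv_pow]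
    have e1 := g.s_ne k (by omega)
    have h2 := g.t_ne
    have h3 := g.T_ne
    exact (mul_eq_zero.1 e').resolve_left (by simp [h2, h3, e1])
  flat := fun k h1 hk ha hb hc => by
    have e1 := g.s_ne k (by omega)
    have e2 := g.s_ne (k + 1) (by omega)
    have e3 := g.t_ne
    have e4 := g.T_ne
    rcases g.flat k h1 hk ha hb hc with h | h
    · left
      field_simp
      linear_combination -h
    · right
      have e5 := pow_ne_zero k g.t_ne
      have e6 := pow_ne_zero k g.T_ne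
      rw [inv_pow, inv_pow]
      field_simp
      linear_combination -h

end Pool.Agent.Helper31.IPF
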