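import Pool.Agent.Helper31.IPF.Coef

/-!
TH-P long-strip line, M6: the case `T = t^2`, one type 0 step at `k0`.

PROOF.  `Y = T^k = X^2`.  (L1) divided by `s X`: `a0 + a1 s + a2 X/s + a3 X - a4 X - a5 X^2/s = 0`.
Put `kp = s k0 / t^k0`; type 0 with `T = t^2`: `s (k0+1) = t s k0`, so `s (k0+1) = kp t^(k0+1)`.
(L1) at `k0`, `k0+1`: `a0 + a2/kp + X (a1 kp + a3 - a4 - a5/kp) = 0` for `X = t^k0, t^(k0+1)`: both
brackets vanish (`g.ParA kp`).  The same for `g.inv` with `kp⁻¹`.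
Now let `k` be good, `s = s k = sg X`, `X = t^k`, `sg <> kp`.  Subtracting:
 `-a2/(sg kp) + X (a1 + a5/(sg kp)) = 0`, i.e. (E1) `a1 kp s + a5 X = a2`; with `T = t^2`, divided by
 `x t (t-1)^2`:   (E1) `t xi al kp s + xi' de X = (t+1) de xi`.
For the inverse:   (E2) `xi' de / (kp s) + t xi al / X = (t+1) al xi'`.
`t <> -1` (`T <> 1`).  If `xi = 0` then (E1) gives `xi' = 0`; if `xi' = 0` then (E2) gives `xi = 0`.
(E2) times `kp s X`, minus (E1): `de xi = al xi' kp s X`.  (E1) times `X` then gives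
 `(xi' X - xi)(xi' X - t xi) = 0`.  So `X` takes at most two values, and `s = de xi/(al xi' kp X)` is
determined by `X`; three such columns would give two equal `s`.
-/

namespace Pool.Agent.Helper31.IPF

variable {F : Type*} [Field F] {m : ℕ}

private theorem sa_par (g : Strip F m) (hT : g.T = g.t ^ 2) {k0 : ℕ} (hk0 : k0 < m)
    (h0 : g.Zero k0) : g.ParA (g.s k0 / g.t ^ k0) := by
  obtain ⟨h1, h2, h3⟩ := h0
  have ht := g.t_ne
  have hX : g.t ^ k0 ≠ 0 := pow_ne_zero _ ht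
  have e1 := g.l1_coef h1 hk0.le
  have e2 := g.l1_coef h2 hk0
  obtain ⟨kp, hkp⟩ : ∃ kp, kp = g.s k0 / g.t ^ k0 := ⟨_, rfl⟩
  rw [← hkp]
  have hs : g.s k0 = kp * g.t ^ k0 := by rw [hkp]; field_simp
  have hs1 : g.s (k0 + 1) = kp * (g.t * g.t ^ k0) := by
    apply mul_left_cancel₀ ht
    rw [hT, hs] at h3
    linear_combination -h3
  have hT0 : g.T ^ k0 = (g.t ^ k0) ^ 2 := by rw [hT, ← pow_mul, mul_comm, pow_mul]
  have hT1 : g.T ^ (k0 + 1) = (g.t * g.t ^ k0) ^ 2 := by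
    rw [pow_succ, hT0, hT]
    ring
  have ht1 : g.t ^ (k0 + 1) = g.t * g.t ^ k0 := by rw [pow_succ]; ring
  rw [hT1, hs1, ht1] at e2
  rw [hT0, hs] at e1
  obtain ⟨X, hXd⟩ : ∃ X, X = g.t ^ k0 := ⟨_, rfl⟩
  rw [← hXd] at e1 e2 hX
  have f1 : (g.a0 * kp + g.a2) + X * (g.a1 * kp ^ 2 + (g.a3 - g.a4) * kp - g.a5) = 0 := by
    apply mul_left_cancel₀ (pow_ne_zero 2 hX)
    linear_combination e1
  have f2 : (g.a0 * kp + g.a2)
      + g.t * X * (g.a1 * kp ^ 2 + (g.a3 - g.a4) * kp - g.a5) = 0 := by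
    apply mul_left_cancel₀ (pow_ne_zero 2 (mul_ne_zero ht hX))
    linear_combination e2
  have f3 : g.a1 * kp ^ 2 + (g.a3 - g.a4) * kp - g.a5 = 0 := by
    apply mul_left_cancel₀ (mul_ne_zero hX (sub_ne_zero.2 g.t_ne1))
    linear_combination f2 - f1
  refine ⟨?_, f3⟩
  linear_combination f1 - X * f3

private theorem sa_e1 (g : Strip F m) (hT : g.T = g.t ^ 2) {kp : F} (hkp : kp ≠ 0)
    (hP : g.ParA kp) {k : ℕ} (hk : g.Good k) (hkm : k ≤ m) (hn : g.s k ≠ kp * g.t ^ k) :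
    g.t * (1 - g.x) * g.al * kp * g.s k + (1 - g.x') * g.de * g.t ^ k =
      (g.t + 1) * g.de * (1 - g.x) := by
  obtain ⟨p1, p2⟩ := hP
  have ht := g.t_ne
  have e := g.l1_coef hk hkm
  have hT0 : g.T ^ k = (g.t ^ k) ^ 2 := by rw [hT, ← pow_mul, mul_comm, pow_mul]
  rw [hT0] at e
  have hX : g.t ^ k ≠ 0 := pow_ne_zero _ ht
  obtain ⟨X, hXd⟩ : ∃ X, X = g.t ^ k := ⟨_, rfl⟩
  rw [← hXd] at e hX hn ⊢
  have e1 : g.a1 * kp * g.s k + g.a5 * X = g.a2 := by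
    apply mul_left_cancel₀ (sub_ne_zero.2 hn)
    apply mul_left_cancel₀ hX
    linear_combination kp * e - X * g.s k * p1 - X ^ 2 * g.s k * p2
  have hne : g.x * g.t * (g.t - 1) ^ 2 ≠ 0 :=
    mul_ne_zero (mul_ne_zero g.x_ne ht) (pow_ne_zero 2 (sub_ne_zero.2 g.t_ne1))
  apply mul_left_cancel₀ hne
  simp only [Strip.a1, Strip.a5, Strip.a2, hT] at e1
  linear_combination e1

theorem struct_a (g : Strip F m) (hx : g.x ≠ 1 ∨ g.x' ≠ 1) (hT : g.T = g.t ^ 2) {k0 : ℕ}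
    (hk0 : k0 < m) (h0 : g.Zero k0) :
    ∃ kp : F, kp ≠ 0 ∧ ∀ i j k, i < j → j < k → k ≤ m → g.Good i → g.Good j → g.Good k →
      g.s i = kp * g.t ^ i ∨ g.s j = kp * g.t ^ j ∨ g.s k = kp * g.t ^ k := by
  have ht := g.t_ne
  have ht1 := sub_ne_zero.2 g.t_ne1
  have htp : g.t + 1 ≠ 0 := by
    intro h
    apply g.T_ne1
    rw [hT]
    linear_combination (g.t - 1) * h
  have hP := sa_par g hT hk0 h0
  have hTi : g.inv.T = g.inv.t ^ 2 := by
    show g.T⁻¹ = g.t⁻¹ ^ 2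
    rw [hT, inv_pow]
  have hP' := sa_par g.inv hTi hk0 (g.inv_zero hk0 h0)
  have hs0 := g.s_ne k0 hk0.le
  obtain ⟨kp, hkp⟩ : ∃ kp, kp = g.s k0 / g.t ^ k0 := ⟨_, rfl⟩
  have hkp0 : kp ≠ 0 := by rw [hkp]; exact div_ne_zero hs0 (pow_ne_zero _ ht)
  have hkpi : g.inv.s k0 / g.inv.t ^ k0 = kp⁻¹ := by
    show (g.s k0)⁻¹ / (g.t⁻¹) ^ k0 = kp⁻¹
    rw [hkp, inv_pow]
    field_simp
  rw [hkpi] at hP'
  rw [← hkp] at hP
  refine ⟨kp, hkp0, ?_⟩
  -- the two relations for an abnormal column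
  have rel : ∀ k, k ≤ m → g.Good k → g.s k ≠ kp * g.t ^ k →
      g.de * (1 - g.x) = g.al * (1 - g.x') * kp * g.s k * g.t ^ k ∧
      ((1 - g.x') * g.t ^ k - (1 - g.x)) * ((1 - g.x') * g.t ^ k - g.t * (1 - g.x)) = 0 := by
    intro k hkm hk hn
    have hs := g.s_ne k hkm
    have hX : g.t ^ k ≠ 0 := pow_ne_zero _ ht
    have e1 := sa_e1 g hT hkp0 hP hk hkm hn
    have e2 := sa_e1 g.inv hTi (inv_ne_zero hkp0) hP' ((g.inv_good k).2 hk) hkm (by
      show (g.s k)⁻¹ ≠ kp⁻¹ * (g.t⁻¹) ^ k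
      rw [inv_pow, ← mul_inv]
      exact fun h => hn (inv_injective h))
    replace e2 : g.t⁻¹ * (1 - g.x') * g.de * kp⁻¹ * (g.s k)⁻¹ + (1 - g.x) * g.al * (g.t⁻¹) ^ k =
      (g.t⁻¹ + 1) * g.al * (1 - g.x') := e2
    rw [inv_pow] at e2
    have e3 : (1 - g.x') * g.de * g.t ^ k + g.t * (1 - g.x) * g.al * kp * g.s k =
        (g.t + 1) * g.al * (1 - g.x') * kp * g.s k * g.t ^ k := by
      have h1 : (1 - g.x') * g.de * g.t ^ k + g.t * (1 - g.x) * g.al * kp * g.s k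
          = (g.t * kp * g.s k * g.t ^ k) * (g.t⁻¹ * (1 - g.x') * g.de * kp⁻¹ * (g.s k)⁻¹
            + (1 - g.x) * g.al * (g.t ^ k)⁻¹) := by
        field_simp
      rw [h1, e2]
      field_simp
      ring
    have e4 : g.de * (1 - g.x) = g.al * (1 - g.x') * kp * g.s k * g.t ^ k := by
      apply mul_left_cancel₀ htp
      linear_combination e3 - e1
    refine ⟨e4, ?_⟩
    apply mul_left_cancel₀ g.de_ne
    linear_combination (1 - g.x') * g.t ^ k * e1 + g.t * (1 - g.x) * e4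
  intro i j k hij hjk hkm hi hj hk
  by_contra hcon
  push Not at hcon
  obtain ⟨n1, n2, n3⟩ := hcon
  obtain ⟨r1, q1⟩ := rel i (by omega) hi n1
  obtain ⟨r2, q2⟩ := rel j (by omega) hj n2
  obtain ⟨r3, q3⟩ := rel k hkm hk n3
  have hxi : ∀ k, k ≤ m → g.de * (1 - g.x) = g.al * (1 - g.x') * kp * g.s k * g.t ^ k →
      1 - g.x ≠ 0 ∧ 1 - g.x' ≠ 0 := by
    intro k hkm e
    have hs := g.s_ne k hkm
    have hX : g.t ^ k ≠ 0 := pow_ne_zero _ ht
    have hne : g.al * kp * g.s k * g.t ^ k ≠ 0 :=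
      mul_ne_zero (mul_ne_zero (mul_ne_zero g.al_ne hkp0) hs) hX
    have a1 : 1 - g.x = 0 → 1 - g.x' = 0 := by
      intro h
      apply mul_left_cancel₀ hne
      linear_combination (-1 : F) * e + g.de * h
    have a2 : 1 - g.x' = 0 → 1 - g.x = 0 := by
      intro h
      apply mul_left_cancel₀ g.de_ne
      rw [e, h]
      ring
    rcases hx with hx | hx
    · have : 1 - g.x ≠ 0 := sub_ne_zero.2 hx.symm
      exact ⟨this, fun h => this (a2 h)⟩
    · have : 1 - g.x' ≠ 0 := sub_ne_zero.2 hx.symm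
      exact ⟨fun h => this (a1 h), this⟩
  obtain ⟨hx0, hx'0⟩ := hxi k hkm r3
  -- equal `t^k` gives equal `s_k`
  have key : ∀ a b, a < b → b ≤ m →
      g.de * (1 - g.x) = g.al * (1 - g.x') * kp * g.s a * g.t ^ a →
      g.de * (1 - g.x) = g.al * (1 - g.x') * kp * g.s b * g.t ^ b →
      (1 - g.x') * g.t ^ a = (1 - g.x') * g.t ^ b → False := by
    intro a b hab hb ea eb h
    have h1 : g.t ^ a = g.t ^ b := mul_left_cancel₀ hx'0 h
    apply g.s_inj a b hab hb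
    have hne : g.al * (1 - g.x') * kp * g.t ^ b ≠ 0 :=
      mul_ne_zero (mul_ne_zero (mul_ne_zero g.al_ne hx'0) hkp0) (pow_ne_zero _ ht)
    apply mul_left_cancel₀ hne
    rw [h1] at ea
    linear_combination eb - ea
  rcases mul_eq_zero.1 q1 with c1 | c1 <;> rcases mul_eq_zero.1 q2 with c2 | c2 <;>
    rcases mul_eq_zero.1 q3 with c3 | c3
  · exact key i j hij (by omega) r1 r2 (by linear_combination c1 - c2)
  · exact key i j hij (by omega) r1 r2 (by linear_combination c1 - c2)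
  · exact key i k (by omega) hkm r1 r3 (by linear_combination c1 - c3)
  · exact key j k hjk hkm r2 r3 (by linear_combination c2 - c3)
  · exact key j k hjk hkm r2 r3 (by linear_combination c2 - c3)
  · exact key i k (by omega) hkm r1 r3 (by linear_combination c1 - c3)
  · exact key i j hij (by omega) r1 r2 (by linear_combination c1 - c2)
  · exact key i j hij (by omega) r1 r2 (by linear_combination c1 - c2)

end Pool.Agent.Helper31.IPF
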