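import Pool.Agent.Helper31.IPF.Coef

/-!
TH-P long-strip line, M7: the case `T = t^3`, with the parameter relations `ParB`.

PROOF.  `Y = T^k = X^3`.  (L1) divided by `s X`: `a0 + a1 s + a2 X^2/s + a3 X^2 - a4 X - a5 X^3/s = 0`.
With `s = sg X`, `a0 = 0`, `a1 kp + a2/kp = a4`, `a3 = a5/kp`, `sg <> kp`:
 `a1 - a2/(sg kp) + a5 X/(sg kp) = 0`, times `sg kp X`: `a1 kp s - a2 X + a5 X^2 = 0`; divided by
 `x t (t-1)^2` (`T = t^3`, `P = t^2+t+1`):
 (E1) `t^2 xi al kp s - P de xi X + (t+1) xi' de X^2 = 0`.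
For the inverse (multiply out): (E2) `P al xi' kp s X - xi' de X^2 - t (t+1) xi al kp s = 0`.
`t <> -1` (`T <> t`), `P <> 0` (`T <> 1`).  `xi = 0` => (E1) `xi' = 0`; `xi' = 0` => (E2) `xi = 0`.
Eliminating `kp s`: `t^2 xi * (E2)` with (E1): `(P xi - (t+1) xi' X)(P xi' X - t (t+1) xi) = t^2 xi xi' X`,
and this is `-(t+1) P (xi' X - xi)(xi' X - t xi) = 0` (`P^2 - t^2 + t (t+1)^2 = (t+1)^2 P`).
So `X` takes at most two values, and `s` is determined by `X` (E1): at most two such columns.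
-/

namespace Pool.Agent.Helper31.IPF

variable {F : Type*} [Field F] {m : ℕ}

private theorem sb_e1 (g : Strip F m) (hT : g.T = g.t ^ 3) {kp : F}
    (hP : g.ParB kp) {k : ℕ} (hk : g.Good k) (hkm : k ≤ m) (hn : g.s k ≠ kp * g.t ^ k) :
    g.t ^ 2 * (1 - g.x) * g.al * kp * g.s k
      - (g.t ^ 2 + g.t + 1) * g.de * (1 - g.x) * g.t ^ k
      + (g.t + 1) * (1 - g.x') * g.de * (g.t ^ k) ^ 2 = 0 := by
  obtain ⟨p0, p1, p2⟩ := hP
  have ht := g.t_ne
  have e := g.l1_coef hk hkm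
  have hT0 : g.T ^ k = (g.t ^ k) ^ 3 := by rw [hT, ← pow_mul, mul_comm, pow_mul]
  rw [hT0] at e
  have hX : g.t ^ k ≠ 0 := pow_ne_zero _ ht
  obtain ⟨X, hXd⟩ : ∃ X, X = g.t ^ k := ⟨_, rfl⟩
  rw [← hXd] at e hX hn ⊢
  have e1 : g.a1 * kp * g.s k - g.a2 * X + g.a5 * X ^ 2 = 0 := by
    apply mul_left_cancel₀ (sub_ne_zero.2 hn)
    apply mul_left_cancel₀ hX
    linear_combination kp * e - kp * X * g.s k * p0 - X ^ 2 * g.s k * p1
      - X ^ 3 * g.s k * p2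
  have hne : g.x * g.t * (g.t - 1) ^ 2 ≠ 0 :=
    mul_ne_zero (mul_ne_zero g.x_ne ht) (pow_ne_zero 2 (sub_ne_zero.2 g.t_ne1))
  apply mul_left_cancel₀ hne
  simp only [Strip.a1, Strip.a5, Strip.a2, hT] at e1
  linear_combination e1

theorem struct_b (g : Strip F m) (hx : g.x ≠ 1 ∨ g.x' ≠ 1) (hT : g.T = g.t ^ 3) {kp : F}
    (hkp : kp ≠ 0) (h1 : g.ParB kp) (h2 : g.inv.ParB kp⁻¹) :
    ∀ i j k, i < j → j < k → k ≤ m → g.Good i → g.Good j → g.Good k →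
      g.s i = kp * g.t ^ i ∨ g.s j = kp * g.t ^ j ∨ g.s k = kp * g.t ^ k := by
  have ht := g.t_ne
  have ht1 := sub_ne_zero.2 g.t_ne1
  have htp : g.t + 1 ≠ 0 := by
    intro h
    apply g.T_net
    rw [hT]
    linear_combination g.t * (g.t - 1) * h
  have hPne : g.t ^ 2 + g.t + 1 ≠ 0 := by
    intro h
    apply g.T_ne1
    rw [hT]
    linear_combination (g.t - 1) * h
  have hTi : g.inv.T = g.inv.t ^ 3 := by
    show g.T⁻¹ = g.t⁻¹ ^ 3
    rw [hT, inv_pow]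
  -- the relations for an abnormal column
  have rel : ∀ k, k ≤ m → g.Good k → g.s k ≠ kp * g.t ^ k →
      (g.t ^ 2 * (1 - g.x) * g.al * kp * g.s k
        - (g.t ^ 2 + g.t + 1) * g.de * (1 - g.x) * g.t ^ k
        + (g.t + 1) * (1 - g.x') * g.de * (g.t ^ k) ^ 2 = 0) ∧
      ((g.t ^ 2 + g.t + 1) * g.al * (1 - g.x') * kp * g.s k * g.t ^ k
        - (1 - g.x') * g.de * (g.t ^ k) ^ 2
        - g.t * (g.t + 1) * (1 - g.x) * g.al * kp * g.s k = 0) := by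
    intro k hkm hk hn
    have hs := g.s_ne k hkm
    have hX : g.t ^ k ≠ 0 := pow_ne_zero _ ht
    have e1 := sb_e1 g hT h1 hk hkm hn
    have e2 := sb_e1 g.inv hTi h2 ((g.inv_good k).2 hk) hkm (by
      show (g.s k)⁻¹ ≠ kp⁻¹ * (g.t⁻¹) ^ k
      rw [inv_pow, ← mul_inv]
      exact fun h => hn (inv_injective h))
    replace e2 : g.t⁻¹ ^ 2 * (1 - g.x') * g.de * kp⁻¹ * (g.s k)⁻¹
      - (g.t⁻¹ ^ 2 + g.t⁻¹ + 1) * g.al * (1 - g.x') * (g.t⁻¹) ^ k
      + (g.t⁻¹ + 1) * (1 - g.x) * g.al * ((g.t⁻¹) ^ k) ^ 2 = 0 := e2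
    rw [inv_pow g.t k] at e2
    refine ⟨e1, ?_⟩
    have e3 : (g.t ^ 2 + g.t + 1) * g.al * (1 - g.x') * kp * g.s k * g.t ^ k
        - (1 - g.x') * g.de * (g.t ^ k) ^ 2
        - g.t * (g.t + 1) * (1 - g.x) * g.al * kp * g.s k
        = - (g.t ^ 2 * kp * g.s k * (g.t ^ k) ^ 2) * (g.t⁻¹ ^ 2 * (1 - g.x') * g.de * kp⁻¹ * (g.s k)⁻¹
          - (g.t⁻¹ ^ 2 + g.t⁻¹ + 1) * g.al * (1 - g.x') * (g.t ^ k)⁻¹
          + (g.t⁻¹ + 1) * (1 - g.x) * g.al * ((g.t ^ k)⁻¹) ^ 2) := by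
      field_simp
      ring
    rw [e3, e2, mul_zero]
  -- `xi, xi' <> 0` as soon as there is an abnormal column
  have hxi : ∀ k, k ≤ m → g.Good k → g.s k ≠ kp * g.t ^ k → 1 - g.x ≠ 0 ∧ 1 - g.x' ≠ 0 := by
    intro k hkm hk hn
    obtain ⟨e1, e2⟩ := rel k hkm hk hn
    have hs := g.s_ne k hkm
    have hX : g.t ^ k ≠ 0 := pow_ne_zero _ ht
    have a1 : 1 - g.x = 0 → 1 - g.x' = 0 := by
      intro h
      have hne : (g.t + 1) * g.de * (g.t ^ k) ^ 2 ≠ 0 :=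
        mul_ne_zero (mul_ne_zero htp g.de_ne) (pow_ne_zero 2 hX)
      apply mul_left_cancel₀ hne
      rw [h] at e1
      linear_combination e1
    have a2 : 1 - g.x' = 0 → 1 - g.x = 0 := by
      intro h
      have hne : g.t * (g.t + 1) * g.al * kp * g.s k ≠ 0 :=
        mul_ne_zero (mul_ne_zero (mul_ne_zero (mul_ne_zero ht htp) g.al_ne) hkp) hs
      apply mul_left_cancel₀ hne
      rw [h] at e2
      linear_combination -e2
    rcases hx with hx | hx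
    · have : 1 - g.x ≠ 0 := sub_ne_zero.2 hx.symm
      exact ⟨this, fun h => this (a2 h)⟩
    · have : 1 - g.x' ≠ 0 := sub_ne_zero.2 hx.symm
      exact ⟨fun h => this (a1 h), this⟩
  -- two values of `t^k`
  have quad : ∀ k, k ≤ m → g.Good k → g.s k ≠ kp * g.t ^ k →
      ((1 - g.x') * g.t ^ k - (1 - g.x)) * ((1 - g.x') * g.t ^ k - g.t * (1 - g.x)) = 0 := by
    intro k hkm hk hn
    obtain ⟨e1, e2⟩ := rel k hkm hk hn
    have hX : g.t ^ k ≠ 0 := pow_ne_zero _ ht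
    have hne : (g.t + 1) * (g.t ^ 2 + g.t + 1) * g.de * g.t ^ k ≠ 0 :=
      mul_ne_zero (mul_ne_zero (mul_ne_zero htp hPne) g.de_ne) hX
    apply mul_left_cancel₀ hne
    linear_combination ((g.t ^ 2 + g.t + 1) * (1 - g.x') * g.t ^ k
      - g.t * (g.t + 1) * (1 - g.x)) * e1 - g.t ^ 2 * (1 - g.x) * e2
  intro i j k hij hjk hkm hi hj hk
  by_contra hcon
  push Not at hcon
  obtain ⟨n1, n2, n3⟩ := hcon
  obtain ⟨r1, -⟩ := rel i (by omega) hi n1
  obtain ⟨r2, -⟩ := rel j (by omega) hj n2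
  obtain ⟨r3, -⟩ := rel k hkm hk n3
  have q1 := quad i (by omega) hi n1
  have q2 := quad j (by omega) hj n2
  have q3 := quad k hkm hk n3
  obtain ⟨hx0, hx'0⟩ := hxi k hkm hk n3
  -- equal `t^k` gives equal `s_k`
  have key : ∀ a b, a < b → b ≤ m →
      (g.t ^ 2 * (1 - g.x) * g.al * kp * g.s a
        - (g.t ^ 2 + g.t + 1) * g.de * (1 - g.x) * g.t ^ a
        + (g.t + 1) * (1 - g.x') * g.de * (g.t ^ a) ^ 2 = 0) →
      (g.t ^ 2 * (1 - g.x) * g.al * kp * g.s b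
        - (g.t ^ 2 + g.t + 1) * g.de * (1 - g.x) * g.t ^ b
        + (g.t + 1) * (1 - g.x') * g.de * (g.t ^ b) ^ 2 = 0) →
      (1 - g.x') * g.t ^ a = (1 - g.x') * g.t ^ b → False := by
    intro a b hab hb ea eb h
    have h1 : g.t ^ a = g.t ^ b := mul_left_cancel₀ hx'0 h
    apply g.s_inj a b hab hb
    have hne : g.t ^ 2 * (1 - g.x) * g.al * kp ≠ 0 :=
      mul_ne_zero (mul_ne_zero (mul_ne_zero (pow_ne_zero 2 ht) hx0) g.al_ne) hkp
    apply mul_left_cancel₀ hne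
    rw [h1] at ea
    linear_combination ea - eb
  rcases mul_eq_zero.1 q1 with c1 | c1 <;> rcases mul_eq_zero.1 q2 with c2 | c2 <;>
    rcases mul_eq_zero.1 q3 with c3 | c3
  · exact key i j hij (by omega) r1 r2 (by linear_combination c1 - c2)
  · exact key i j hij (by omega) r1 r2 (by linear_combination c1 - c2)
  · exact key i k (by omega) hkm r1 r3 (by linear_combination c1 - c3)
  · exact key j k hjk hkm r2 r3 (by linear_combination c2 - c3)
  · exact key j k hjk hkm r2 r3 (by linear_combination c2 - c3)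
  · exact key i k (by omega) hkm r1 r3 (by linear_combination c1 - c3)
  · exact key i j hij (by omega) r1 r2 (by linear_combination c1 - c2)
  · exact key i j hij (by omega) r1 r2 (by linear_combination c1 - c2)

end Pool.Agent.Helper31.IPF
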