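import Pool.Agent.Helper31.IPF.Coef
import Pool.Agent.Helper31.IPF.LAlg
import Pool.Agent.Helper43.IPL.Flat
import Pool.Agent.Helper54.IP.QX
import Pool.Agent.Helper54.IP.GSwap

/-!
TH-P long-strip line, M2: the strip of a `GForm`.
-/

namespace Pool.Agent.Helper31.IPF

open Pool.Agent.Helper54.IP

variable {F : Type*} [Field F] {m : ℕ}

private theorem ts_D_ne (g : GForm F m) (hm : 1 ≤ m) {k : ℕ} (h1 : 1 ≤ k) (hk : k ≤ m)
    (h : g.kap 1 (k - 1) ≠ 0) : g.G 1 k - g.t 1 ^ k * g.H 1 k ≠ 0 := by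
  have e := g.D_succ (j := 1) (k := k - 1) hm (by omega)
  have hk' : k - 1 + 1 = k := by omega
  rw [hk', GForm.D] at e
  rw [e]
  exact mul_ne_zero (sub_ne_zero.2 (g.lm_ne (k - 1) (by omega)).symm) h

private theorem ts_l12 (g : GForm F m) (hm : 2 ≤ m) {k : ℕ} (h1 : 1 ≤ k) (hk : k ≤ m)
    (ha : g.kap 1 (k - 1) ≠ 0) (hb : g.kap 1 k ≠ 0) :
    l1e (g.t 1) (g.t 2) (1 - g.lam' 0) (g.mu' 0) (1 - g.lam' 1) (g.mu' 1) (g.s k) (g.t 1 ^ k)
      (g.t 2 ^ k) = 0 ∧
    l2e (g.t 1) (g.t 2) (1 - g.lam' 0) (g.mu' 0) (1 - g.lam' 1) (g.mu' 1) (g.s k) (g.t 1 ^ k)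
      (g.t 2 ^ k) = 0 := by
  have hT1 : g.t 2 ≠ 1 := by
    rw [← g.t0]
    exact (g.t_inj 0 2 (by omega) hm).symm
  have hTt : g.t 2 ≠ g.t 1 := (g.t_inj 1 2 (by omega) hm).symm
  refine l12_of (g1 := g.G 1 k) (h1 := g.H 1 k) (g2 := g.G 2 k) (h2 := g.H 2 k) (g.s_ne k hk)
    (pow_ne_zero k (g.t_ne 2 hm)) hT1 hTt ?_ ?_ ?_ ?_ ?_ ?_
    (ts_D_ne g (by omega) h1 hk ha) (by rw [GForm.kap] at hb; exact hb)
  · rw [g.row1G (by omega) hk]
    ring
  · rw [g.row1H (by omega) hk]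
  · rw [g.row2G hm hk]
    ring
  · rw [g.row2H hm hk]
  · have := Pool.Agent.Helper43.IPL.E1c g hm k hk
    linear_combination this
  · have := Pool.Agent.Helper43.IPL.E2c g hm k hk
    linear_combination this

private theorem ts_qx (g : GForm F m) (hm : 2 ≤ m) {k : ℕ} (h1 : 1 ≤ k) (hk : k ≤ m)
    (ha : g.kap 1 (k - 1) ≠ 0) (hb : g.kap 1 k ≠ 0) :
    qxe (g.t 1) (g.t 2) (1 - g.lam' 0) (g.mu' 0) (1 - g.lam' 1) (g.mu' 1) (g.s k)
      (g.t 1 ^ k) = 0 := by
  have hT1 : g.t 2 ≠ 1 := by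
    rw [← g.t0]
    exact (g.t_inj 0 2 (by omega) hm).symm
  have hTt : g.t 2 ≠ g.t 1 := (g.t_inj 1 2 (by omega) hm).symm
  have hs := g.s_ne k hk
  have hX : g.t 1 ^ k ≠ 0 := pow_ne_zero k (g.t_ne 1 (by omega))
  have h := qx_of (x := 1 - g.lam' 0) (x' := g.mu' 0) (al := 1 - g.lam' 1) (de := g.mu' 1)
    (t := g.t 1) (T := g.t 2) (X := g.t 1 ^ k) (Y := g.t 2 ^ k) (s := g.s k)
    (g1 := g.G 1 k) (h1 := g.H 1 k) (g2 := g.G 2 k) (h2 := g.H 2 k) hs hX hT1 hTt
    (by rw [g.row1G (by omega) hk]; ring) (by rw [g.row1H (by omega) hk])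
    (by rw [g.row2G hm hk]; ring) (by rw [g.row2H hm hk])
    (by linear_combination Pool.Agent.Helper43.IPL.E1c g hm k hk)
    (by linear_combination Pool.Agent.Helper43.IPL.E2c g hm k hk)
    (ts_D_ne g (by omega) h1 hk ha) (by rw [GForm.kap] at hb; exact hb)
  rw [qx] at h
  rw [qxe]
  field_simp at h
  linear_combination h

/-- the strip (rows 0, 1, 2) of a `GForm` -/
def toStrip (g : GForm F m) (hm : 2 ≤ m) : Strip F m where
  t := g.t 1
  T := g.t 2
  x := 1 - g.lam' 0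
  x' := g.mu' 0
  al := 1 - g.lam' 1
  de := g.mu' 1
  s := g.s
  kap := fun k => g.kap 1 k
  t_ne := g.t_ne 1 (by omega)
  T_ne := g.t_ne 2 hm
  t_ne1 := by
    rw [← g.t0]
    exact (g.t_inj 0 1 (by omega) (by omega)).symm
  T_ne1 := by
    rw [← g.t0]
    exact (g.t_inj 0 2 (by omega) hm).symm
  T_net := (g.t_inj 1 2 (by omega) hm).symm
  x_ne := sub_ne_zero.2 (g.lam'_ne 0 (by omega)).symm
  x'_ne := g.mu'_ne 0 (by omega)
  al_ne := sub_ne_zero.2 (g.lam'_ne 1 (by omega)).symm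
  de_ne := g.mu'_ne 1 (by omega)
  xx_ne := fun h => g.lm'_ne 0 (by omega) (by linear_combination -h)
  ad_ne := fun h => g.lm'_ne 1 (by omega) (by linear_combination -h)
  s0 := g.s0
  s_ne := g.s_ne
  s_inj := g.s_inj
  kap0 := by
    show g.kap 1 0 ≠ 0
    rw [g.kap_zero (by omega)]
    refine sub_ne_zero.2 ?_
    rw [← g.t0]
    exact (g.t_inj 0 1 (by omega) (by omega)).symm
  deg := fun k hk h => by
    have h' : g.kap 1 k = 0 := h
    have hs := g.s_ne k (by omega)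
    have hs' := g.s_ne (k + 1) (by omega)
    have hX : g.t 1 ^ k ≠ 0 := pow_ne_zero k (g.t_ne 1 (by omega))
    have ht := g.t_ne 1 (by omega)
    have e1 := g.G_succ (j := 1) (by omega) hk
    have e2 := g.H_succ (j := 1) (by omega) hk
    rw [h', mul_zero, sub_zero] at e1 e2
    rw [GForm.kap] at h'
    have r1 := g.row1G (k := k) (by omega) (by omega)
    have r1' := g.row1G (k := k + 1) (by omega) (by omega)
    have r2 := g.row1H (k := k) (by omega) (by omega)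
    have r2' := g.row1H (k := k + 1) (by omega) (by omega)
    have e3 : g.t 1 * g.H 1 (k + 1) = g.H 1 k := by
      have : g.t 1 ^ k * (g.t 1 * g.H 1 (k + 1)) = g.t 1 ^ k * g.H 1 k := by
        linear_combination e2 + h'
      exact mul_left_cancel₀ hX this
    constructor
    · rw [r1, r1'] at e1
      linear_combination e1
    · linear_combination (g.s k * g.s (k + 1)) * e3 - g.t 1 * g.s k * r2' + g.s (k + 1) * r2
  L1 := fun k h1 hk ha hb => (ts_l12 g hm h1 hk ha hb).1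
  L2 := fun k h1 hk ha hb => (ts_l12 g hm h1 hk ha hb).2
  QX := fun k h1 hk ha hb => ts_qx g hm h1 hk ha hb
  flat := fun k h1 hk ha hb hc => by
    rcases Pool.Agent.Helper43.IPL.local_flat g hm k hk with h | h | h | h | h
    · exact absurd h (ts_D_ne g (by omega) h1 (by omega) ha)
    · refine absurd ?_ hb
      show g.kap 1 k = 0
      rw [GForm.kap]
      linear_combination -h
    · refine absurd ?_ hc
      show g.kap 1 (k + 1) = 0
      rw [GForm.kap, pow_succ]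
      linear_combination -g.t 1 * h
    · left
      linear_combination h
    · right
      linear_combination h

end Pool.Agent.Helper31.IPF
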