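import Pool.Agent.Helper31.IPF.Deg

/-!
TH-P long-strip line, M5: `T <> t^2`: no three type 0 steps.

PROOF.  `r = T/t`, `R_k = r^k`, `z_k = R_k / s_k` (constant along a type 0 step), `X_k = t^k`.
(L1) divided by `s t^k`: `a0 + a1 s + a2 z + a3 z s - a4 X - a5 X z = 0`; the step `k -> k+1` of type 0
multiplies `s` by `r`, `X` by `t` and keeps `z`; `t * L1_k - L1_(k+1)`:
 (A) `(r-t)(a1 s + a3 z s) = (t-1)(a0 + a2 z)`.
For `g.inv` (coefficients `b_i = g.inv.a_i`) the same relation is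
 (B) `(1/r-1/t)(b1/s + b3/(z s)) = (1/t-1)(b0 + b2/z)`, i.e. `r(t-1)(b0 z s + b2 s) = (r-t)(b1 z + b3)`.
Write (A) `p1 z s + q1 s - r1 z - w1 = 0`, (B) `p2 z s + q2 s - r2 z - w2 = 0`,
`p1=(r-t)a3 <> 0`, `q1=(r-t)a1`, `r1=(t-1)a2`, `w1=(t-1)a0`, `p2=r(t-1)b0`, `q2=r(t-1)b2`,
`r2=(r-t)b1`, `w2=(r-t)b3 <> 0`.  Eliminate `z`: `(w1-q1 s)(p2 s-r2) = (w2-q2 s)(p1 s-r1)`, a quadratic
in `s` with three distinct roots, so
 (c2) `q1 p2 = q2 p1`, (c1) `w1 p2 + q1 r2 = w2 p1 + q2 r1`, (c0) `w1 r2 = w2 r1`.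
With `Q = q1 r2 - q2 r1`, `De = p1 r2 - p2 r1`: `p1 Q = q1 De`, `r1 Q = w1 De`, so `Q (q1 r1 - p1 w1) = 0`.
CASE `Q = 0`: `(r-t)^2 a1 b1 = r (t-1)^2 a2 b2`.  Up to nonzero factors
 `xi xi' (r^2-1)(t^2-1) = 0`.
  `xi = 0`: `q1 = r1 = 0`, (c2): `q2 = 0`, so `xi' = 0`.  `xi' = 0`: `q2 = r2 = 0`, (c2): `p2 = 0` (if
  `xi <> 0`), (c1): `w2 p1 = 0`, contradiction.
  `r = -1`: five consecutive good columns exist (3 disjoint windows of 6 columns, at most two
  degenerate columns); every word of length 4 in the types 0, 1 gives `s_i = s_j` for some `i <> j`.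
  `t = -1`: five consecutive good columns; three of the same parity; QX there is
  `C s^2 + E s + D = 0` with the same coefficients, three distinct roots, so `C = D = 0`, so
  `nu = mu = 0`, `mu = al xi + be xi'`, `nu = ga xi + de xi'`, `al + de <> 1`: `xi = xi' = 0`.
CASE `q1 r1 = p1 w1`: then `q2 r1 = p2 w1`, so (c1) `q1 r2 = w2 p1`, which is
 (EP) `T (t-1)^2 xi xi' = x x' t (T-1)^2`.  In particular `xi, xi' <> 0`, and `a0 a3 = a1 a2`.
 With `z* = - a1/a3`: (L1) becomes `(z - z*) (a3 s + a2 - a5 X) = 0` and for the inverse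
 `(1/z - 1/z*) (b3 / s + b2 - b5 / X) = 0`; for `z <> z*`: `t(T-1)(x s + xi) = (T-t) xi' X`,
 `(T-1)(x'/s + xi') = (T-t) xi / X`; product: `t(T-1)^2 (x s + xi)(x' + xi' s) = (T-t)^2 xi xi' s`,
 a quadratic with leading coefficient `<> 0`: at most two good columns with `z <> z*`.
 Five disjoint windows of 6 columns (`m >= 30`), at most two degenerate `k` and at most two exceptions:
 there are five consecutive good columns with `z = z*`, `s_k = r^k / z*`.  QX there: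
 `A t^k + B t^-k + (C/z*) r^k + D z* r^-k + E = 0` for five consecutive `k`; the node `r` is different
 from `t, 1/t, 1/r, 1` (`r <> t`, `T <> 1`, `r^2 <> 1` as `s_(k+2) = r^2 s_k`), so `C = 0`; the node `1/r`
 too, so `D = 0`; again `mu = nu = 0`, contradiction.
-/

namespace Pool.Agent.Helper31.IPF

variable {F : Type*} [Field F] {m : ℕ}

/-- `z_k = T^k / (t^k s_k)` -/
private def zlz (g : Strip F m) (k : ℕ) : F := g.T ^ k / (g.t ^ k * g.s k)

private theorem zlz_eq (g : Strip F m) {k : ℕ} (hk : k ≤ m) :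
    g.T ^ k = zlz g k * (g.t ^ k * g.s k) := by
  have h1 := g.s_ne k hk
  have h2 := pow_ne_zero k g.t_ne
  rw [zlz]
  field_simp

private theorem zlz_ne (g : Strip F m) {k : ℕ} (hk : k ≤ m) : zlz g k ≠ 0 := by
  have h1 := g.s_ne k hk
  have h2 := pow_ne_zero k g.t_ne
  have h3 := pow_ne_zero k g.T_ne
  rw [zlz]
  exact div_ne_zero h3 (mul_ne_zero h2 h1)

private theorem zlz_inv (g : Strip F m) {k : ℕ} (hk : k ≤ m) : zlz g.inv k = (zlz g k)⁻¹ := by
  have h1 := g.s_ne k hk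
  have h2 := pow_ne_zero k g.t_ne
  have h3 := pow_ne_zero k g.T_ne
  show (g.T⁻¹) ^ k / ((g.t⁻¹) ^ k * (g.s k)⁻¹) = (zlz g k)⁻¹
  rw [zlz, inv_pow, inv_pow]
  field_simp

/-- (L1) divided by `s X` -/
private theorem zl_L (g : Strip F m) {k : ℕ} (hk : g.Good k) (hkm : k ≤ m) :
    g.a0 + g.a1 * g.s k + (g.a2 + g.a3 * g.s k) * zlz g k - g.a4 * g.t ^ k -
      g.a5 * g.t ^ k * zlz g k = 0 := by
  have h := g.l1_coef hk hkm
  rw [zlz_eq g hkm] at h
  have h1 := g.s_ne k hkm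
  have h2 := pow_ne_zero k g.t_ne
  apply mul_left_cancel₀ (mul_ne_zero h2 h1)
  linear_combination h

private theorem zl_A (g : Strip F m) {k : ℕ} (hk : g.Zero k) (hkm : k < m) :
    (g.T - g.t ^ 2) * (g.a1 + g.a3 * zlz g k) * g.s k =
      g.t * (g.t - 1) * (g.a0 + g.a2 * zlz g k) := by
  obtain ⟨h1, h2, h3⟩ := hk
  have e1 := zl_L g h1 (by omega)
  have e2 := zl_L g h2 (by omega)
  have hz : zlz g (k + 1) = zlz g k := by
    rw [zlz, zlz]
    have a1 := g.s_ne k (by omega)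
    have a2 := g.s_ne (k + 1) (by omega)
    have a3 := pow_ne_zero k g.t_ne
    have a4 := g.t_ne
    field_simp
    linear_combination g.T ^ k * g.t ^ k * h3
  rw [hz] at e2
  have e3 : g.t * g.s (k + 1) = g.T * g.s k := h3.symm
  rw [pow_succ] at e2
  linear_combination g.t * e2 - g.t ^ 2 * e1 - (g.a1 + g.a3 * zlz g k) * e3

private theorem zl_B (g : Strip F m) {k : ℕ} (hk : g.Zero k) (hkm : k < m) :
    g.T * (g.t - 1) * (g.inv.a0 * zlz g k + g.inv.a2) * g.s k =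
      (g.T - g.t ^ 2) * (g.inv.a1 * zlz g k + g.inv.a3) := by
  have h := zl_A g.inv (g.inv_zero hkm hk) hkm
  rw [zlz_inv g (by omega)] at h
  have a1 := g.s_ne k (by omega)
  have a2 := zlz_ne g (k := k) (by omega)
  have a3 := g.t_ne
  have a4 := g.T_ne
  have e1 : g.inv.T = g.T⁻¹ := rfl
  have e2 : g.inv.t = g.t⁻¹ := rfl
  have e3 : g.inv.s k = (g.s k)⁻¹ := rfl
  rw [e1, e2, e3] at h
  field_simp at h
  linear_combination h

/-- three roots of a quadratic -/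
private theorem zl_quad {A B C u v w : F} (huv : u ≠ v) (huw : u ≠ w) (hvw : v ≠ w)
    (hu : A * u ^ 2 + B * u + C = 0) (hv : A * v ^ 2 + B * v + C = 0)
    (hw : A * w ^ 2 + B * w + C = 0) : A = 0 ∧ B = 0 ∧ C = 0 := by
  have h1 : (u - v) * (A * (u + v) + B) = 0 := by linear_combination hu - hv
  have h2 : (u - w) * (A * (u + w) + B) = 0 := by linear_combination hu - hw
  have h3 := (mul_eq_zero.1 h1).resolve_left (sub_ne_zero.2 huv)
  have h4 := (mul_eq_zero.1 h2).resolve_left (sub_ne_zero.2 huw)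
  have h5 : (v - w) * A = 0 := by linear_combination h3 - h4
  have hA := (mul_eq_zero.1 h5).resolve_left (sub_ne_zero.2 hvw)
  have hB : B = 0 := by linear_combination h3 - (u + v) * hA
  exact ⟨hA, hB, by linear_combination hu - u ^ 2 * hA - u * hB⟩

/-- the coefficients of the inverse strip -/
private theorem zl_b1 (g : Strip F m) : g.t ^ 2 * g.T ^ 2 * g.inv.a1 =
    g.T * (g.t - 1) ^ 2 * (1 - g.x') * g.de * g.x' := by
  have a3 := g.t_ne
  have a4 := g.T_ne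
  show g.t ^ 2 * g.T ^ 2 * (g.T⁻¹ * (g.t⁻¹ - 1) ^ 2 * (1 - g.x') * g.de * g.x') = _
  field_simp
  ring

private theorem zl_b2 (g : Strip F m) : g.t ^ 2 * g.T ^ 2 * g.inv.a2 =
    g.x' * g.T * (g.T - 1) * (g.t - 1) * g.al * (1 - g.x') := by
  have a3 := g.t_ne
  have a4 := g.T_ne
  show g.t ^ 2 * g.T ^ 2 * (g.x' * g.t⁻¹ * (g.T⁻¹ - 1) * (g.t⁻¹ - 1) * g.al * (1 - g.x')) = _
  field_simp
  ring

private theorem zl_b3 (g : Strip F m) : g.t ^ 2 * g.T ^ 2 * g.inv.a3 =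
    g.x' ^ 2 * g.T * (g.T - 1) * (g.t - 1) * g.al := by
  have a3 := g.t_ne
  have a4 := g.T_ne
  show g.t ^ 2 * g.T ^ 2 * (g.x' ^ 2 * g.t⁻¹ * (g.T⁻¹ - 1) * (g.t⁻¹ - 1) * g.al) = _
  field_simp
  ring

private theorem zl_b5 (g : Strip F m) : g.t ^ 2 * g.T ^ 2 * g.inv.a5 =
    g.x' * (g.T - g.t) * (1 - g.x) * g.al * g.T * (g.t - 1) := by
  have a3 := g.t_ne
  have a4 := g.T_ne
  show g.t ^ 2 * g.T ^ 2 * (g.x' * (g.T⁻¹ - g.t⁻¹) * (1 - g.x) * g.al * (g.t⁻¹ - 1)) = _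
  field_simp
  ring

private theorem zl_b4 (g : Strip F m) : g.t ^ 2 * g.T ^ 2 * g.inv.a4 =
    g.x' * (g.T - g.t) * g.x * g.de * g.t * (g.T - 1) := by
  have a3 := g.t_ne
  have a4 := g.T_ne
  show g.t ^ 2 * g.T ^ 2 * (g.x' * (g.T⁻¹ - g.t⁻¹) * g.x * g.de * (g.T⁻¹ - 1)) = _
  field_simp
  ring

/-- the three conditions on the coefficients -/
private theorem zl_c {p1 q1 r1 w1 p2 q2 r2 w2 s1 z1 s2 z2 s3 z3 : F} (h12 : s1 ≠ s2) (h13 : s1 ≠ s3)
    (h23 : s2 ≠ s3) (a1 : p1 * z1 * s1 + q1 * s1 = r1 * z1 + w1)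
    (a2 : p1 * z2 * s2 + q1 * s2 = r1 * z2 + w1) (a3 : p1 * z3 * s3 + q1 * s3 = r1 * z3 + w1)
    (b1 : p2 * z1 * s1 + q2 * s1 = r2 * z1 + w2) (b2 : p2 * z2 * s2 + q2 * s2 = r2 * z2 + w2)
    (b3 : p2 * z3 * s3 + q2 * s3 = r2 * z3 + w2) :
    q1 * p2 = q2 * p1 ∧ w1 * p2 + q1 * r2 = w2 * p1 + q2 * r1 ∧ w1 * r2 = w2 * r1 := by
  have key : ∀ {s z : F}, p1 * z * s + q1 * s = r1 * z + w1 → p2 * z * s + q2 * s = r2 * z + w2 →
      (q2 * p1 - q1 * p2) * s ^ 2 + (w1 * p2 + q1 * r2 - w2 * p1 - q2 * r1) * s +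
        (w2 * r1 - w1 * r2) = 0 := by
    intro s z ha hb
    linear_combination (-(p2 * s - r2)) * ha + (p1 * s - r1) * hb
  obtain ⟨e1, e2, e3⟩ := zl_quad h12 h13 h23 (key a1 b1) (key a2 b2) (key a3 b3)
  exact ⟨by linear_combination -e1, by linear_combination e2, by linear_combination -e3⟩

/-- five consecutive good columns -/
private theorem zl_five (g : Strip F m) (hx : g.x ≠ 1 ∨ g.x' ≠ 1) (hm : 18 ≤ m) :
    ∃ b, b + 5 < m ∧ ∀ i, i ≤ 5 → g.kap (b + i) ≠ 0 := by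
  by_contra hcon
  push Not at hcon
  obtain ⟨i, hi, ki⟩ := hcon 0 (by omega)
  obtain ⟨j, hj, kj⟩ := hcon 6 (by omega)
  obtain ⟨k, hk, kk⟩ := hcon 12 (by omega)
  exact deg_le_two g hx (i := 0 + i) (j := 6 + j) (k := 12 + k) (by omega) (by omega) (by omega)
    ki kj kk

/-- the case `T = -t`, scalar form -/
private theorem zl_words {u0 u1 u2 u3 u4 e : F} (n1 : u1 ≠ 0) (n2 : u2 ≠ 0)
    (n3 : u3 ≠ 0) (d02 : u0 ≠ u2) (d13 : u1 ≠ u3) (d24 : u2 ≠ u4) (d03 : u0 ≠ u3) (d04 : u0 ≠ u4)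
    (d14 : u1 ≠ u4) (h0 : u1 = -u0 ∨ u0 * u1 = e) (h1 : u2 = -u1 ∨ u1 * u2 = -e)
    (h2 : u3 = -u2 ∨ u2 * u3 = e) (h3 : u4 = -u3 ∨ u3 * u4 = -e) : False := by
  rcases h0 with h0 | h0 <;> rcases h1 with h1 | h1
  · exact d02 (by linear_combination h0 - h1)
  · rcases h2 with h2 | h2
    · rcases h3 with h3 | h3
      · exact d24 (by linear_combination h2 - h3)
      · apply d04
        apply mul_left_cancel₀ n2
        linear_combination u2 * h0 - h1 - u4 * h2 + h3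
    · apply d03
      apply mul_left_cancel₀ n2
      linear_combination u2 * h0 - h1 - h2
  · rcases h2 with h2 | h2
    · exact d13 (by linear_combination h1 - h2)
    · have e3 : u3 = -u0 := by
        apply mul_left_cancel₀ n1
        linear_combination u3 * h1 - h2 + h0
      rcases h3 with h3 | h3
      · exact d04 (by linear_combination e3 - h3)
      · apply d14
        have n0 : u0 ≠ 0 := by
          intro h
          apply n3
          rw [e3, h, neg_zero]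
        apply mul_left_cancel₀ n0
        linear_combination h0 + h3 - u4 * e3
  · have e2 : u2 = -u0 := by
      apply mul_left_cancel₀ n1
      linear_combination h1 + h0
    rcases h2 with h2 | h2
    · exact d03 (by linear_combination e2 - h2)
    · have n0 : u0 ≠ 0 := by
        intro h
        apply n2
        rw [e2, h, neg_zero]
      have e3 : u3 = -u1 := by
        apply mul_left_cancel₀ n0
        linear_combination u3 * e2 - h2 + h0
      rcases h3 with h3 | h3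
      · exact d14 (by linear_combination e3 - h3)
      · apply d04
        apply mul_left_cancel₀ n1
        linear_combination h0 + h3 - u4 * e3

/-- the case `T = -t` -/
private theorem zl_rneg (g : Strip F m) (hx : g.x ≠ 1 ∨ g.x' ≠ 1) (hm : 18 ≤ m) (h : g.T = -g.t) :
    False := by
  obtain ⟨b, hb, hk⟩ := zl_five g hx hm
  have step : ∀ i, i < 4 → g.s (b + 1 + i + 1) = -g.s (b + 1 + i) ∨
      g.s (b + 1 + i) * g.s (b + 1 + i + 1) = g.de / g.al * (-1) ^ (b + 1 + i) := by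
    intro i hi
    have k0 := hk i (by omega)
    have k1 := hk (i + 1) (by omega)
    have k2 := hk (i + 2) (by omega)
    rcases g.flat (b + 1 + i) (by omega) (by omega) (by convert k0 using 2; omega)
      (by convert k1 using 2; omega) (by convert k2 using 2; omega) with f | f
    · left
      rw [h] at f
      apply mul_left_cancel₀ g.t_ne
      linear_combination -f
    · right
      rw [h] at f
      have e1 : (-g.t) ^ (b + 1 + i) = (-1) ^ (b + 1 + i) * g.t ^ (b + 1 + i) := by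
        rw [neg_pow]
      rw [e1] at f
      have a1 := g.al_ne
      have a2 := pow_ne_zero (b + 1 + i) g.t_ne
      field_simp
      apply mul_left_cancel₀ a2
      linear_combination f
  have s0 := step 0 (by omega)
  have s1 := step 1 (by omega)
  have s2 := step 2 (by omega)
  have s3 := step 3 (by omega)
  simp only [add_assoc, Nat.reduceAdd] at s0 s1 s2 s3
  have p1 : ∀ n : ℕ, (-1 : F) ^ (b + (n + 1)) = -(-1) ^ (b + n) := by
    intro n
    rw [← add_assoc, pow_succ]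
    ring
  have q2 : (-1 : F) ^ (b + 2) = -(-1) ^ (b + 1) := p1 1
  have q3 : (-1 : F) ^ (b + 3) = (-1) ^ (b + 1) := by rw [p1 2, p1 1, neg_neg]
  have q4 : (-1 : F) ^ (b + 4) = -(-1) ^ (b + 1) := by rw [p1 3, p1 2, p1 1, neg_neg]
  refine zl_words (e := g.de / g.al * (-1) ^ (b + 1)) (u0 := g.s (b + 1)) (u1 := g.s (b + 2))
    (u2 := g.s (b + 3)) (u3 := g.s (b + 4)) (u4 := g.s (b + 5)) (g.s_ne _ (by omega))
    (g.s_ne _ (by omega)) (g.s_ne _ (by omega)) (g.s_inj _ _ (by omega) (by omega))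
    (g.s_inj _ _ (by omega) (by omega)) (g.s_inj _ _ (by omega) (by omega))
    (g.s_inj _ _ (by omega) (by omega)) (g.s_inj _ _ (by omega) (by omega))
    (g.s_inj _ _ (by omega) (by omega)) ?_ ?_ ?_ ?_
  · simpa using s0
  · rw [q2] at s1
    simpa using s1
  · rw [q3] at s2
    simpa using s2
  · rw [q4] at s3
    simpa using s3

/-- `mu = nu = 0` is impossible -/
private theorem zl_munu (g : Strip F m) (hx : g.x ≠ 1 ∨ g.x' ≠ 1)
    (hmu : g.al * (1 - g.x) + (1 - g.al) * (1 - g.x') = 0)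
    (hnu : (1 - g.de) * (1 - g.x) + g.de * (1 - g.x') = 0) : False := by
  have h := sub_ne_zero.2 g.ad_ne
  have e1 : (g.al + g.de - 1) * (1 - g.x) = 0 := by
    linear_combination g.de * hmu - (1 - g.al) * hnu
  have e2 : (g.al + g.de - 1) * (1 - g.x') = 0 := by
    linear_combination g.al * hnu - (1 - g.de) * hmu
  rcases hx with hx | hx
  · exact hx (by linear_combination -(mul_eq_zero.1 e1).resolve_left h)
  · exact hx (by linear_combination -(mul_eq_zero.1 e2).resolve_left h)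

/-- the case `t = -1` -/
private theorem zl_tneg (g : Strip F m) (hx : g.x ≠ 1 ∨ g.x' ≠ 1) (hm : 18 ≤ m) (h : g.t = -1) :
    False := by
  obtain ⟨b, hb, hk⟩ := zl_five g hx hm
  have q : ∀ i, i < 5 → qxe g.t g.T g.x g.x' g.al g.de (g.s (b + 1 + i)) (g.t ^ (b + 1 + i)) = 0 := by
    intro i hi
    exact g.QX _ (by omega) (by omega) (by convert hk i (by omega) using 2; omega)
      (by convert hk (i + 1) (by omega) using 2; omega)
  have q0 := q 0 (by omega)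
  have q2 := q 2 (by omega)
  have q4 := q 4 (by omega)
  have e2 : g.t ^ (b + 1 + 2) = g.t ^ (b + 1) := by rw [pow_add _ (b + 1) 2, h]; ring
  have e4 : g.t ^ (b + 1 + 4) = g.t ^ (b + 1) := by rw [pow_add _ (b + 1) 4, h]; ring
  rw [e2] at q2
  rw [e4] at q4
  rw [add_zero] at q0
  rw [qxe] at q0 q2 q4
  have key := zl_quad (u := g.s (b + 1)) (v := g.s (b + 1 + 2)) (w := g.s (b + 1 + 4))
    (A := -(g.T * (g.t - 1) ^ 2 * (g.al * g.x * ((1 - g.de) * (1 - g.x) + g.de * (1 - g.x')))) *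
      g.t ^ (b + 1))
    (B := g.x * g.x' * (g.T - g.t) * (g.T - 1) * (g.al * (1 - g.de) * (g.t ^ (b + 1)) ^ 2 +
      (1 - g.al) * g.de * g.t) + (g.x * g.x' * (g.T - 1) * ((1 - g.al) * (1 - g.de) * g.t *
      (g.T - 1) - g.al * g.de * (g.t ^ 2 - g.T)) - g.T * (g.t - 1) ^ 2 * (g.al * (1 - g.x) +
      (1 - g.al) * (1 - g.x')) * ((1 - g.de) * (1 - g.x) + g.de * (1 - g.x'))) * g.t ^ (b + 1))
    (C := -(g.T * (g.t - 1) ^ 2 * (g.de * g.x' * (g.al * (1 - g.x) + (1 - g.al) * (1 - g.x')))) *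
      g.t ^ (b + 1))
    (g.s_inj _ _ (by omega) (by omega)) (g.s_inj _ _ (by omega) (by omega))
    (g.s_inj _ _ (by omega) (by omega)) (by linear_combination q0) (by linear_combination q2)
    (by linear_combination q4)
  obtain ⟨hA, -, hC⟩ := key
  have n1 := g.T_ne
  have n2 := sub_ne_zero.2 g.t_ne1
  have n3 := g.al_ne
  have n4 := g.de_ne
  have n5 := g.x_ne
  have n6 := g.x'_ne
  have n7 := pow_ne_zero (b + 1) g.t_ne
  refine zl_munu g hx ?_ ?_
  · simpa [n1, n2, n3, n4, n5, n6, n7] using hC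
  · simpa [n1, n2, n3, n4, n5, n6, n7] using hA

/-- isolation of one node -/
private theorem zl_node {A B C D E u v w y : F} (h0 : A + B + C + D + E = 0)
    (h1 : A * u + B * v + C * w + D * y + E = 0)
    (h2 : A * u ^ 2 + B * v ^ 2 + C * w ^ 2 + D * y ^ 2 + E = 0)
    (h3 : A * u ^ 3 + B * v ^ 3 + C * w ^ 3 + D * y ^ 3 + E = 0)
    (h4 : A * u ^ 4 + B * v ^ 4 + C * w ^ 4 + D * y ^ 4 + E = 0)
    (n1 : w ≠ u) (n2 : w ≠ v) (n3 : w ≠ y) (n4 : w ≠ 1) : C = 0 := by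
  have h : (w - u) * (w - v) * (w - y) * (w - 1) * C = 0 := by
    linear_combination h4 - (u + v + y + 1) * h3 + (u * v + u * y + u + v * y + v + y) * h2 -
      (u * v * y + u * v + u * y + v * y) * h1 + u * v * y * h0
  exact (mul_eq_zero.1 h).resolve_left (mul_ne_zero (mul_ne_zero (mul_ne_zero (sub_ne_zero.2 n1)
    (sub_ne_zero.2 n2)) (sub_ne_zero.2 n3)) (sub_ne_zero.2 n4))

private theorem zl_node' {A B C D E u v w y : F} (h0 : A + B + C + D + E = 0)
    (h1 : A * u + B * v + C * w + D * y + E = 0)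
    (h2 : A * u ^ 2 + B * v ^ 2 + C * w ^ 2 + D * y ^ 2 + E = 0)
    (h3 : A * u ^ 3 + B * v ^ 3 + C * w ^ 3 + D * y ^ 3 + E = 0)
    (h4 : A * u ^ 4 + B * v ^ 4 + C * w ^ 4 + D * y ^ 4 + E = 0)
    (n1 : y ≠ u) (n2 : y ≠ v) (n3 : y ≠ w) (n4 : y ≠ 1) : D = 0 :=
  zl_node (A := A) (B := B) (C := D) (D := C) (E := E) (by linear_combination h0)
    (by linear_combination h1) (by linear_combination h2) (by linear_combination h3)
    (by linear_combination h4) n1 n2 n3 n4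

/-- five consecutive good columns with the same `z` -/
private theorem zl_zstar (g : Strip F m) (hx : g.x ≠ 1 ∨ g.x' ≠ 1) (hT : g.T ≠ g.t ^ 2) {b : ℕ}
    (hb : b + 5 < m) (hk : ∀ i, i ≤ 5 → g.kap (b + i) ≠ 0) {z : F}
    (hz : ∀ i, i < 5 → zlz g (b + 1 + i) = z) : False := by
  have ht := g.t_ne
  have hTn := g.T_ne
  have z0 : z ≠ 0 := by
    rw [← hz 0 (by omega)]
    exact zlz_ne g (by omega)
  obtain ⟨w, hw⟩ : ∃ w, w = g.T / g.t := ⟨_, rfl⟩
  have hw' : g.T = w * g.t := by rw [hw]; field_simp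
  have w0 : w ≠ 0 := by rw [hw]; exact div_ne_zero hTn ht
  have hs : ∀ i, i < 5 → g.s (b + 1 + i) = g.s (b + 1) * w ^ i := by
    intro i hi
    have e1 := zlz_eq g (k := b + 1 + i) (by omega)
    have e0 := zlz_eq g (k := b + 1) (by omega)
    rw [hz i hi] at e1
    have hz0 := hz 0 (by omega)
    rw [add_zero] at hz0
    rw [hz0] at e0
    have n1 := pow_ne_zero (b + 1 + i) ht
    apply mul_left_cancel₀ (mul_ne_zero z0 n1)
    rw [pow_add g.T, e0] at e1
    have e3 : g.T ^ i = w ^ i * g.t ^ i := by rw [hw', mul_pow]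
    rw [e3] at e1
    rw [pow_add g.t]
    rw [pow_add g.t] at e1
    linear_combination -e1
  have q : ∀ i, i < 5 → qxe g.t g.T g.x g.x' g.al g.de (g.s (b + 1) * w ^ i)
      (g.t ^ (b + 1) * g.t ^ i) = 0 := by
    intro i hi
    rw [← hs i hi, ← pow_add]
    exact g.QX _ (by omega) (by omega) (by convert hk i (by omega) using 2; omega)
      (by convert hk (i + 1) (by omega) using 2; omega)
  obtain ⟨s, hsdef⟩ : ∃ s, s = g.s (b + 1) := ⟨_, rfl⟩
  obtain ⟨X, hX⟩ : ∃ X, X = g.t ^ (b + 1) := ⟨_, rfl⟩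
  have s0 : s ≠ 0 := by rw [hsdef]; exact g.s_ne _ (by omega)
  have X0 : X ≠ 0 := by rw [hX]; exact pow_ne_zero _ ht
  rw [← hsdef, ← hX] at q
  obtain ⟨nu, hnu⟩ : ∃ nu, nu = (1 - g.de) * (1 - g.x) + g.de * (1 - g.x') := ⟨_, rfl⟩
  obtain ⟨mu, hmu⟩ : ∃ mu, mu = g.al * (1 - g.x) + (1 - g.al) * (1 - g.x') := ⟨_, rfl⟩
  have f : ∀ i, i < 5 →
      g.x * g.x' * (g.T - g.t) * (g.T - 1) * g.al * (1 - g.de) * X * g.t ^ i +
      g.x * g.x' * (g.T - g.t) * (g.T - 1) * (1 - g.al) * g.de * g.t / X * (g.t⁻¹) ^ i +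
      -(g.T * (g.t - 1) ^ 2 * g.al * g.x * nu * s) * w ^ i +
      -(g.T * (g.t - 1) ^ 2 * g.de * g.x' * mu / s) * (w⁻¹) ^ i +
      (g.x * g.x' * (g.T - 1) * ((1 - g.al) * (1 - g.de) * g.t * (g.T - 1) -
        g.al * g.de * (g.t ^ 2 - g.T)) - g.T * (g.t - 1) ^ 2 * mu * nu) = 0 := by
    intro i hi
    have h := q i hi
    rw [qxe, ← hnu, ← hmu] at h
    have n1 := pow_ne_zero i ht
    have n2 := pow_ne_zero i w0
    rw [inv_pow, inv_pow]
    apply mul_left_cancel₀ (mul_ne_zero (mul_ne_zero s0 n2) (mul_ne_zero X0 n1))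
    rw [mul_zero]
    refine Eq.trans ?_ h
    field_simp
    ring
  have nw1 : w ≠ 1 := by
    intro h
    rw [h, one_mul] at hw'
    exact g.T_net hw'
  have nwt : w ≠ g.t := by
    intro h
    apply hT
    rw [hw', h]
    ring
  have nwt' : w ≠ g.t⁻¹ := by
    intro h
    apply g.T_ne1
    rw [hw', h, inv_mul_cancel₀ ht]
  have nww : w ≠ w⁻¹ := by
    intro h
    have e : w ^ 2 = 1 := by
      rw [pow_two]
      nth_rewrite 2 [h]
      exact mul_inv_cancel₀ w0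
    apply g.s_inj (b + 1) (b + 1 + 2) (by omega) (by omega)
    rw [hs 2 (by omega), e, mul_one]
  have f0 := f 0 (by omega)
  have f1 := f 1 (by omega)
  have f2 := f 2 (by omega)
  have f3 := f 3 (by omega)
  have f4 := f 4 (by omega)
  rw [pow_zero, pow_zero, pow_zero, pow_zero, mul_one, mul_one, mul_one, mul_one] at f0
  rw [pow_one, pow_one, pow_one, pow_one] at f1
  have hC := zl_node f0 f1 f2 f3 f4 nwt nwt' nww nw1
  have hD := zl_node' f0 f1 f2 f3 f4
    (fun h => nwt' (by rw [← h, inv_inv])) (fun h => nwt (inv_injective h)) (Ne.symm nww)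
    (fun h => nw1 (inv_eq_one.1 h))
  have n2 := sub_ne_zero.2 g.t_ne1
  have n3 := g.al_ne
  have n4 := g.de_ne
  have n5 := g.x_ne
  have n6 := g.x'_ne
  refine zl_munu g hx ?_ ?_
  · rw [← hmu]
    simpa [hTn, n2, n3, n4, n5, n6, s0] using hD
  · rw [← hnu]
    simpa [hTn, n2, n3, n4, n5, n6, s0] using hC

private theorem zl_pigeon {P Q : ℕ → Prop} (h : ∀ i, i < 5 → P i ∨ Q i) :
    (∃ i j k, i < j ∧ j < k ∧ k < 5 ∧ P i ∧ P j ∧ P k) ∨
    (∃ i j k, i < j ∧ j < k ∧ k < 5 ∧ Q i ∧ Q j ∧ Q k) := by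
  have key : ∀ (a b c d e : Bool), (∃ i j k : Fin 5, i < j ∧ j < k ∧ ![a, b, c, d, e] i = true ∧
      ![a, b, c, d, e] j = true ∧ ![a, b, c, d, e] k = true) ∨
      (∃ i j k : Fin 5, i < j ∧ j < k ∧ ![a, b, c, d, e] i = false ∧
      ![a, b, c, d, e] j = false ∧ ![a, b, c, d, e] k = false) := by decide
  classical
  have hv : ∀ i : Fin 5, ![decide (P 0), decide (P 1), decide (P 2), decide (P 3), decide (P 4)] i =
      decide (P i) := by
    intro i
    fin_cases i <;> rfl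
  rcases key (decide (P 0)) (decide (P 1)) (decide (P 2)) (decide (P 3)) (decide (P 4)) with
    ⟨i, j, k, hij, hjk, h1, h2, h3⟩ | ⟨i, j, k, hij, hjk, h1, h2, h3⟩
  · rw [hv] at h1 h2 h3
    exact Or.inl ⟨i, j, k, hij, hjk, k.2, of_decide_eq_true h1, of_decide_eq_true h2,
      of_decide_eq_true h3⟩
  · rw [hv] at h1 h2 h3
    exact Or.inr ⟨i, j, k, hij, hjk, k.2, (h i i.2).resolve_left (of_decide_eq_false h1),
      (h j j.2).resolve_left (of_decide_eq_false h2), (h k k.2).resolve_left (of_decide_eq_false h3)⟩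

/-- the exceptional case (EP) -/
private theorem zl_ep (g : Strip F m) (hx : g.x ≠ 1 ∨ g.x' ≠ 1) (hT : g.T ≠ g.t ^ 2) (hm : 30 ≤ m)
    (e12 : g.a1 * g.a2 = g.a3 * g.a0) (f12 : g.inv.a1 * g.inv.a2 = g.inv.a3 * g.inv.a0)
    (ep : g.T * (g.t - 1) ^ 2 * ((1 - g.x) * (1 - g.x')) =
      g.t * (g.T - 1) ^ 2 * (g.x * g.x')) : False := by
  have ht := g.t_ne
  have hTn := g.T_ne
  have n1 := sub_ne_zero.2 g.T_ne1
  have n2 := sub_ne_zero.2 g.t_ne1
  have n3 := g.al_ne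
  have n4 := g.de_ne
  have n5 := g.x_ne
  have n6 := g.x'_ne
  have n7 := sub_ne_zero.2 g.T_net
  have hxx : (1 - g.x) * (1 - g.x') ≠ 0 := by
    intro h
    rw [h, mul_zero] at ep
    exact (mul_ne_zero (mul_ne_zero ht (pow_ne_zero 2 n1)) (mul_ne_zero n5 n6)) ep.symm
  have hx1 : 1 - g.x ≠ 0 := left_ne_zero_of_mul hxx
  have hx1' : 1 - g.x' ≠ 0 := right_ne_zero_of_mul hxx
  have c0 : g.t ^ 2 * g.T ^ 2 ≠ 0 := mul_ne_zero (pow_ne_zero 2 ht) (pow_ne_zero 2 hTn)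
  have e15 : g.a1 * g.a5 = g.a3 * g.a4 := by
    rw [Strip.a1, Strip.a5, Strip.a3, Strip.a4]
    linear_combination (g.x ^ 2 * g.de * g.al * (g.T - g.t) * (g.t - 1)) * ep
  have f15 : g.inv.a1 * g.inv.a5 = g.inv.a3 * g.inv.a4 := by
    apply mul_left_cancel₀ (mul_ne_zero c0 c0)
    have : (g.t ^ 2 * g.T ^ 2 * g.inv.a1) * (g.t ^ 2 * g.T ^ 2 * g.inv.a5) =
        (g.t ^ 2 * g.T ^ 2 * g.inv.a3) * (g.t ^ 2 * g.T ^ 2 * g.inv.a4) := by
      rw [zl_b1, zl_b5, zl_b3, zl_b4]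
      linear_combination (g.x' ^ 2 * g.de * g.al * (g.T - g.t) * (g.t - 1) * g.T) * ep
    linear_combination this
  have ab : g.a1 * g.inv.a1 = g.a3 * g.inv.a3 := by
    apply mul_left_cancel₀ c0
    have : g.a1 * (g.t ^ 2 * g.T ^ 2 * g.inv.a1) = g.a3 * (g.t ^ 2 * g.T ^ 2 * g.inv.a3) := by
      rw [zl_b1, zl_b3, Strip.a1, Strip.a3]
      linear_combination (g.T * (g.t - 1) ^ 2 * g.al * g.de * g.x * g.x') * ep
    linear_combination this
  have b2n : g.inv.a2 ≠ 0 := by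
    intro h
    have e := zl_b2 g
    rw [h, mul_zero] at e
    exact (mul_ne_zero (mul_ne_zero (mul_ne_zero (mul_ne_zero (mul_ne_zero n6 hTn) n1) n2) n3) hx1')
      e.symm
  -- exceptional columns
  have exc : ∀ k, g.Good k → k ≤ m → g.a3 * zlz g k + g.a1 ≠ 0 →
      (g.a3 * g.inv.a2) * g.s k ^ 2 + (g.a3 * g.inv.a3 + g.a2 * g.inv.a2 - g.a5 * g.inv.a5) * g.s k +
        g.a2 * g.inv.a3 = 0 := by
    intro k hk hkm hz
    have L := zl_L g hk hkm
    have L' := zl_L g.inv hk hkm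
    rw [zlz_inv g hkm] at L'
    have z0 := zlz_ne g hkm
    have s0 := g.s_ne k hkm
    have X0 := pow_ne_zero k ht
    have e1 : (g.a3 * zlz g k + g.a1) * (g.a3 * g.s k + g.a2 - g.a5 * g.t ^ k) = 0 := by
      linear_combination g.a3 * L + e12 - g.t ^ k * e15
    have e2 := (mul_eq_zero.1 e1).resolve_left hz
    have e3 : (g.inv.a3 * (zlz g k)⁻¹ + g.inv.a1) *
        (g.inv.a3 * g.inv.s k + g.inv.a2 - g.inv.a5 * g.inv.t ^ k) = 0 := by
      linear_combination g.inv.a3 * L' + f12 - g.inv.t ^ k * f15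
    have hz' : g.inv.a3 * (zlz g k)⁻¹ + g.inv.a1 ≠ 0 := by
      intro h
      have h2 : g.inv.a3 * (g.a3 * zlz g k + g.a1) = 0 := by
        have h3 : g.inv.a3 + g.inv.a1 * zlz g k = 0 := by
          field_simp at h
          linear_combination h
        linear_combination g.a1 * h3 - zlz g k * ab
      exact (mul_ne_zero g.inv.a3_ne hz) h2
    have e4 := (mul_eq_zero.1 e3).resolve_left hz'
    have e5 : g.inv.s k = (g.s k)⁻¹ := rfl
    have e6 : g.inv.t ^ k = (g.t ^ k)⁻¹ := by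
      show (g.t⁻¹) ^ k = _
      rw [inv_pow]
    rw [e5, e6] at e4
    field_simp at e4
    have e7 : g.a5 * g.t ^ k = g.a3 * g.s k + g.a2 := by linear_combination -e2
    apply mul_left_cancel₀ X0
    linear_combination (g.a3 * g.s k + g.a2) * e4 - (g.s k * g.inv.a5) * e7
  have three : ∀ i j k, i < j → j < k → k < m → (g.Good i ∧ g.a3 * zlz g i + g.a1 ≠ 0) →
      (g.Good j ∧ g.a3 * zlz g j + g.a1 ≠ 0) → (g.Good k ∧ g.a3 * zlz g k + g.a1 ≠ 0) → False := by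
    intro i j k hij hjk hkm hi hj hk
    obtain ⟨h, -, -⟩ := zl_quad (g.s_inj i j hij (by omega)) (g.s_inj i k (by omega) (by omega))
      (g.s_inj j k hjk (by omega)) (exc i hi.1 (by omega) hi.2) (exc j hj.1 (by omega) hj.2)
      (exc k hk.1 (by omega) hk.2)
    exact (mul_ne_zero g.a3_ne b2n) h
  have win : ∀ i, i < 5 → (∃ k, 6 * i ≤ k ∧ k ≤ 6 * i + 5 ∧ g.kap k = 0) ∨
      (∃ k, 6 * i ≤ k ∧ k ≤ 6 * i + 5 ∧ (g.Good k ∧ g.a3 * zlz g k + g.a1 ≠ 0)) := by
    intro i hi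
    by_contra hcon
    push Not at hcon
    obtain ⟨h1, h2⟩ := hcon
    have hk : ∀ j, j ≤ 5 → g.kap (6 * i + j) ≠ 0 := fun j hj => h1 _ (by omega) (by omega)
    refine zl_zstar g hx hT (b := 6 * i) (by omega) hk (z := -g.a1 / g.a3) ?_
    intro j hj
    have hg : g.Good (6 * i + 1 + j) := by
      refine ⟨by omega, ?_, ?_⟩
      · convert hk j (by omega) using 2
        omega
      · convert hk (j + 1) (by omega) using 2
        omega
    have h3 := h2 (6 * i + 1 + j) (by omega) (by omega) hg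
    rw [eq_div_iff g.a3_ne]
    linear_combination h3
  rcases zl_pigeon win with ⟨i, j, k, hij, hjk, hk5, ⟨i', a1, a2, a3⟩, ⟨j', b1, b2, b3⟩,
    ⟨k', c1, c2, c3⟩⟩ | ⟨i, j, k, hij, hjk, hk5, ⟨i', a1, a2, a3⟩, ⟨j', b1, b2, b3⟩,
    ⟨k', c1, c2, c3⟩⟩
  · exact deg_le_two g hx (i := i') (j := j') (k := k') (by omega) (by omega) (by omega) a3 b3 c3
  · exact three i' j' k' (by omega) (by omega) (by omega) a3 b3 c3

theorem zero_le_two (g : Strip F m) (hx : g.x ≠ 1 ∨ g.x' ≠ 1) (hT : g.T ≠ g.t ^ 2) (hm : 30 ≤ m)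
    {i j k : ℕ} (hij : i < j) (hjk : j < k) (hk : k < m) (hi : g.Zero i) (hj : g.Zero j)
    (hk' : g.Zero k) : False := by
  have ht := g.t_ne
  have hTn := g.T_ne
  have n1 := sub_ne_zero.2 g.T_ne1
  have n2 := sub_ne_zero.2 g.t_ne1
  have n3 := g.al_ne
  have n4 := g.de_ne
  have n5 := g.x_ne
  have n6 := g.x'_ne
  have n7 := sub_ne_zero.2 g.T_net
  have n8 : g.T - g.t ^ 2 ≠ 0 := sub_ne_zero.2 hT
  have c0 : g.t ^ 2 * g.T ^ 2 ≠ 0 := mul_ne_zero (pow_ne_zero 2 ht) (pow_ne_zero 2 hTn)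
  have a3 := g.a3_ne
  have b3 := g.inv.a3_ne
  have conv : ∀ l, g.Zero l → l < m →
      ((g.T - g.t ^ 2) * g.a3) * zlz g l * g.s l + ((g.T - g.t ^ 2) * g.a1) * g.s l =
        (g.t * (g.t - 1) * g.a2) * zlz g l + g.t * (g.t - 1) * g.a0 ∧
      (g.T * (g.t - 1) * g.inv.a0) * zlz g l * g.s l + (g.T * (g.t - 1) * g.inv.a2) * g.s l =
        ((g.T - g.t ^ 2) * g.inv.a1) * zlz g l + (g.T - g.t ^ 2) * g.inv.a3 := by
    intro l hl hlm
    have A := zl_A g hl hlm
    have B := zl_B g hl hlm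
    exact ⟨by linear_combination A, by linear_combination B⟩
  obtain ⟨A1, B1⟩ := conv i hi (by omega)
  obtain ⟨A2, B2⟩ := conv j hj (by omega)
  obtain ⟨A3, B3⟩ := conv k hk' hk
  obtain ⟨c2, c1, c0'⟩ := zl_c (g.s_inj i j hij (by omega)) (g.s_inj i k (by omega) (by omega))
    (g.s_inj j k hjk (by omega)) A1 A2 A3 B1 B2 B3
  obtain ⟨p1, hp1⟩ : ∃ p1, p1 = (g.T - g.t ^ 2) * g.a3 := ⟨_, rfl⟩
  obtain ⟨q1, hq1⟩ : ∃ q1, q1 = (g.T - g.t ^ 2) * g.a1 := ⟨_, rfl⟩
  obtain ⟨r1, hr1⟩ : ∃ r1, r1 = g.t * (g.t - 1) * g.a2 := ⟨_, rfl⟩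
  obtain ⟨w1, hw1⟩ : ∃ w1, w1 = g.t * (g.t - 1) * g.a0 := ⟨_, rfl⟩
  obtain ⟨p2, hp2⟩ : ∃ p2, p2 = g.T * (g.t - 1) * g.inv.a0 := ⟨_, rfl⟩
  obtain ⟨q2, hq2⟩ : ∃ q2, q2 = g.T * (g.t - 1) * g.inv.a2 := ⟨_, rfl⟩
  obtain ⟨r2, hr2⟩ : ∃ r2, r2 = (g.T - g.t ^ 2) * g.inv.a1 := ⟨_, rfl⟩
  obtain ⟨w2, hw2⟩ : ∃ w2, w2 = (g.T - g.t ^ 2) * g.inv.a3 := ⟨_, rfl⟩
  rw [← hp1, ← hq1, ← hp2, ← hq2] at c2
  rw [← hw1, ← hp2, ← hq1, ← hr2, ← hw2, ← hp1, ← hq2, ← hr1] at c1
  rw [← hw1, ← hr2, ← hw2, ← hr1] at c0'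
  have p1n : p1 ≠ 0 := by rw [hp1]; exact mul_ne_zero n8 a3
  have w2n : w2 ≠ 0 := by rw [hw2]; exact mul_ne_zero n8 b3
  have hQ : (q1 * r2 - q2 * r1) * (q1 * r1 - p1 * w1) = 0 := by
    have d1 : p1 * (q1 * r2 - q2 * r1) = q1 * (p1 * r2 - p2 * r1) := by
      linear_combination r1 * c2
    have d2 : r1 * (q1 * r2 - q2 * r1) = w1 * (p1 * r2 - p2 * r1) := by
      linear_combination r1 * c1 - p1 * c0'
    linear_combination q1 * d2 - w1 * d1
  rcases mul_eq_zero.1 hQ with hQ | hQ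
  · -- case `Q = 0`
    have e : ((1 - g.x) * (1 - g.x')) * ((g.T + g.t) * (g.t + 1)) = 0 := by
      have hne : g.al * g.de * g.x * g.x' * (g.T ^ 2 * (g.t - 1) ^ 4) * ((g.t - 1) * (g.T - g.t)) ≠ 0 :=
        mul_ne_zero (mul_ne_zero (mul_ne_zero (mul_ne_zero (mul_ne_zero n3 n4) n5) n6)
          (mul_ne_zero (pow_ne_zero 2 hTn) (pow_ne_zero 4 n2))) (mul_ne_zero n2 n7)
      apply mul_left_cancel₀ hne
      have e1 : (g.T - g.t ^ 2) * g.a1 * ((g.T - g.t ^ 2) * (g.t ^ 2 * g.T ^ 2 * g.inv.a1)) =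
          g.T * (g.t - 1) * (g.t ^ 2 * g.T ^ 2 * g.inv.a2) * (g.t * (g.t - 1) * g.a2) := by
        rw [hq1, hr2, hq2, hr1] at hQ
        linear_combination (g.t ^ 2 * g.T ^ 2) * hQ
      rw [zl_b1, zl_b2, Strip.a1, Strip.a2] at e1
      linear_combination -e1
    rcases mul_eq_zero.1 e with e | e
    · have a1z : g.x = 1 → False := by
        intro h
        have z1 : g.a1 = 0 := by rw [Strip.a1, h]; ring
        have z2 : g.a2 = 0 := by rw [Strip.a2, h]; ring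
        rw [z1, mul_zero] at hq1
        rw [hq1, zero_mul] at c2
        have q2z := (mul_eq_zero.1 c2.symm).resolve_right p1n
        rw [hq2] at q2z
        have b2z := (mul_eq_zero.1 q2z).resolve_left (mul_ne_zero hTn n2)
        have e2 := zl_b2 g
        rw [b2z, mul_zero] at e2
        have e3 : 1 - g.x' = 0 := (mul_eq_zero.1 e2.symm).resolve_left
          (mul_ne_zero (mul_ne_zero (mul_ne_zero (mul_ne_zero n6 hTn) n1) n2) n3)
        rcases hx with hx | hx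
        · exact hx h
        · exact hx (by linear_combination -e3)
      rcases mul_eq_zero.1 e with e | e
      · exact a1z (by linear_combination -e)
      · by_cases hx1 : g.x = 1
        · exact a1z hx1
        have z1 : g.inv.a1 = 0 := by
          have e2 := zl_b1 g
          rw [e, mul_zero, zero_mul, zero_mul] at e2
          exact (mul_eq_zero.1 e2).resolve_left c0
        have z2 : g.inv.a2 = 0 := by
          have e2 := zl_b2 g
          rw [e, mul_zero] at e2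
          exact (mul_eq_zero.1 e2).resolve_left c0
        rw [z1, mul_zero] at hr2
        rw [z2, mul_zero] at hq2
        rw [hq2, zero_mul] at c2
        have q1n : q1 ≠ 0 := by
          rw [hq1, Strip.a1]
          exact mul_ne_zero n8 (mul_ne_zero (mul_ne_zero (mul_ne_zero (mul_ne_zero hTn
            (pow_ne_zero 2 n2)) (sub_ne_zero.2 (Ne.symm hx1))) n3) n5)
        have p2z := (mul_eq_zero.1 c2).resolve_left q1n
        rw [p2z, hr2, hq2] at c1
        have : w2 * p1 = 0 := by linear_combination -c1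
        exact mul_ne_zero w2n p1n this
    · rcases mul_eq_zero.1 e with e | e
      · exact zl_rneg g hx (by omega) (by linear_combination e)
      · exact zl_tneg g hx (by omega) (by linear_combination e)
  · -- case (EP)
    have d1 : q2 * r1 = p2 * w1 := by
      apply mul_left_cancel₀ p1n
      linear_combination (-r1) * c2 + p2 * hQ
    have d2 : q1 * r2 = w2 * p1 := by linear_combination c1 + d1
    have ep : g.T * (g.t - 1) ^ 2 * ((1 - g.x) * (1 - g.x')) =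
        g.t * (g.T - 1) ^ 2 * (g.x * g.x') := by
      have hne : (g.T - g.t ^ 2) ^ 2 * (g.T * (g.t - 1) ^ 2 * g.al * g.de * g.x * g.x') ≠ 0 :=
        mul_ne_zero (pow_ne_zero 2 n8) (mul_ne_zero (mul_ne_zero (mul_ne_zero (mul_ne_zero
          (mul_ne_zero hTn (pow_ne_zero 2 n2)) n3) n4) n5) n6)
      apply mul_left_cancel₀ hne
      have e1 : (g.T - g.t ^ 2) * g.a1 * ((g.T - g.t ^ 2) * (g.t ^ 2 * g.T ^ 2 * g.inv.a1)) =
          (g.T - g.t ^ 2) * (g.t ^ 2 * g.T ^ 2 * g.inv.a3) * ((g.T - g.t ^ 2) * g.a3) := by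
        rw [hq1, hr2, hw2, hp1] at d2
        linear_combination (g.t ^ 2 * g.T ^ 2) * d2
      rw [zl_b1, zl_b3, Strip.a1, Strip.a3] at e1
      linear_combination e1
    have e12 : g.a1 * g.a2 = g.a3 * g.a0 := by
      apply mul_left_cancel₀ (mul_ne_zero n8 (mul_ne_zero ht n2))
      rw [hq1, hr1, hp1, hw1] at hQ
      linear_combination hQ
    have q1n : q1 ≠ 0 := by
      intro h
      rw [h, zero_mul] at d2
      exact mul_ne_zero w2n p1n d2.symm
    have f12 : g.inv.a1 * g.inv.a2 = g.inv.a3 * g.inv.a0 := by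
      have d3 : q2 * r2 = p2 * w2 := by
        apply mul_left_cancel₀ q1n
        linear_combination q2 * d2 - w2 * c2
      apply mul_left_cancel₀ (mul_ne_zero n8 (mul_ne_zero hTn n2))
      rw [hq2, hr2, hp2, hw2] at d3
      linear_combination d3
    exact zl_ep g hx hT hm e12 f12 ep

end Pool.Agent.Helper31.IPF
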