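import Pool.Agent.Helper31.IPF.Deg
import Pool.Agent.Helper31.IPF.OneRun
import Pool.Agent.Helper31.IPF.ZeroLetters
import Pool.Agent.Helper31.IPF.StructA
import Pool.Agent.Helper31.IPF.StructB

/-!
TH-P long-strip line, M8: pigeonhole.

PROOF.  (1) There is `kp <> 0` such that among any three good columns `i < j < k < m` one has
`s = kp t^.`:
 `T <> t^2`: five windows `{11 i, .., 11 i + 10}`, `i < 5` (`m >= 55`).  If each window contains a
 degenerate index or a type 0 step `k` (`11 i + 1 <= k <= 11 i + 9`, `Zero k`), three of the five are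
 degenerate or three are type 0 steps: contradiction with `deg_le_two`, `zero_le_two`.  So one window
 has all `kap <> 0` and (by `g.flat`) all nine steps of type 1: `one_run`, then `struct_b`.
 `T = t^2`: three windows, one has no degenerate index; if all nine steps are of type 1, `one_run` gives
 `t^3 = t^2`, contradiction; so there is a type 0 step: `struct_a`.
(2) Let `D = {k < m : kap k = 0}` (card <= 2), `E = {k < m : Good k, s k <> kp t^k}` (card <= 2).
`k` in `[1, m-3]` such that none of `k, k+1, k+2` is in `D`, `D+1`, `E`: at least `m - 3 - 8 - 6 >= 18`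
many; for those `k, k+1, k+2` are good and normal.
-/

namespace Pool.Agent.Helper31.IPF

variable {F : Type*} [Field F] {m : ℕ}

private theorem wi_five {P Q : ℕ → Prop} (h : ∀ i, i < 5 → P i ∨ Q i) :
    (∃ i j k, i < j ∧ j < k ∧ k < 5 ∧ P i ∧ P j ∧ P k) ∨
    (∃ i j k, i < j ∧ j < k ∧ k < 5 ∧ Q i ∧ Q j ∧ Q k) := by
  have key : ∀ (a b c d e : Bool), (∃ i j k : Fin 5, i < j ∧ j < k ∧ ![a, b, c, d, e] i = true ∧
      ![a, b, c, d, e] j = true ∧ ![a, b, c, d, e] k = true) ∨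
      (∃ i j k : Fin 5, i < j ∧ j < k ∧ ![a, b, c, d, e] i = false ∧
      ![a, b, c, d, e] j = false ∧ ![a, b, c, d, e] k = false) := by decide
  classical
  have hv : ∀ i : Fin 5, ![decide (P 0), decide (P 1), decide (P 2), decide (P 3), decide (P 4)] i =
      decide (P i) := by
    intro i
    fin_cases i <;> rfl
  rcases key (decide (P 0)) (decide (P 1)) (decide (P 2)) (decide (P 3)) (decide (P 4)) with
    ⟨i, j, k, hij, hjk, h1, h2, h3⟩ | ⟨i, j, k, hij, hjk, h1, h2, h3⟩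
  · rw [hv] at h1 h2 h3
    exact Or.inl ⟨i, j, k, hij, hjk, k.2, of_decide_eq_true h1, of_decide_eq_true h2,
      of_decide_eq_true h3⟩
  · rw [hv] at h1 h2 h3
    exact Or.inr ⟨i, j, k, hij, hjk, k.2, (h i i.2).resolve_left (of_decide_eq_false h1),
      (h j j.2).resolve_left (of_decide_eq_false h2), (h k k.2).resolve_left (of_decide_eq_false h3)⟩

/-- a window without degenerate index and without type 0 step is a type 1 run -/
private theorem wi_clean (g : Strip F m) {i : ℕ} (hi : 11 * i + 10 < m)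
    (hP : ¬ ∃ b, 11 * i ≤ b ∧ b ≤ 11 * i + 10 ∧ g.kap b = 0)
    (hQ : ¬ ∃ b, 11 * i + 1 ≤ b ∧ b ≤ 11 * i + 9 ∧ g.Zero b) :
    ∀ j, j < 9 → g.One (11 * i + 1 + j) := by
  intro j hj
  push Not at hP hQ
  have k1 := hP (11 * i + 1 + j - 1) (by omega) (by omega)
  have k2 := hP (11 * i + 1 + j) (by omega) (by omega)
  have k3 := hP (11 * i + 1 + j + 1) (by omega) (by omega)
  have g1 : g.Good (11 * i + 1 + j) := ⟨by omega, k1, k2⟩
  have g2 : g.Good (11 * i + 1 + j + 1) := ⟨by omega, by simpa using k2, k3⟩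
  rcases g.flat (11 * i + 1 + j) (by omega) (by omega) k1 k2 k3 with h | h
  · exact absurd ⟨g1, g2, h⟩ (hQ (11 * i + 1 + j) (by omega) (by omega))
  · exact ⟨g1, g2, h⟩

private theorem wi_kp (g : Strip F m) (hx : g.x ≠ 1 ∨ g.x' ≠ 1) (hm : 55 ≤ m) :
    ∃ kp : F, kp ≠ 0 ∧ ∀ i j k, i < j → j < k → k ≤ m → g.Good i → g.Good j → g.Good k →
      g.s i = kp * g.t ^ i ∨ g.s j = kp * g.t ^ j ∨ g.s k = kp * g.t ^ k := by
  by_cases hT : g.T = g.t ^ 2
  · -- three windows, one without degenerate index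
    have h1 : ∃ i, i < 3 ∧ ¬ ∃ b, 11 * i ≤ b ∧ b ≤ 11 * i + 10 ∧ g.kap b = 0 := by
      by_contra hcon
      push Not at hcon
      obtain ⟨b0, h01, h02, h03⟩ := hcon 0 (by omega)
      obtain ⟨b1, h11, h12, h13⟩ := hcon 1 (by omega)
      obtain ⟨b2, h21, h22, h23⟩ := hcon 2 (by omega)
      exact deg_le_two g hx (i := b0) (j := b1) (k := b2) (by omega) (by omega) (by omega) h03 h13 h23
    obtain ⟨i, hi, hP⟩ := h1
    by_cases hQ : ∃ b, 11 * i + 1 ≤ b ∧ b ≤ 11 * i + 9 ∧ g.Zero b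
    · obtain ⟨b, hb1, hb2, hb⟩ := hQ
      exact struct_a g hx hT (k0 := b) (by omega) hb
    · exfalso
      obtain ⟨h3, -⟩ := one_run g hx (11 * i + 1) (by omega) (wi_clean g (by omega) hP hQ)
      have ht := g.t_ne
      have h4 : g.t ^ 2 * (g.t - 1) = 0 := by
        rw [hT] at h3
        linear_combination -h3
      exact (mul_ne_zero (pow_ne_zero 2 ht) (sub_ne_zero.2 g.t_ne1)) h4
  · have h1 : ∃ i, i < 5 ∧ (¬ ∃ b, 11 * i ≤ b ∧ b ≤ 11 * i + 10 ∧ g.kap b = 0) ∧
        (¬ ∃ b, 11 * i + 1 ≤ b ∧ b ≤ 11 * i + 9 ∧ g.Zero b) := by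
      by_contra hcon
      have hcon' : ∀ i, i < 5 → (∃ b, 11 * i ≤ b ∧ b ≤ 11 * i + 10 ∧ g.kap b = 0) ∨
          (∃ b, 11 * i + 1 ≤ b ∧ b ≤ 11 * i + 9 ∧ g.Zero b) := by
        intro i hi
        by_contra hh
        rw [not_or] at hh
        exact hcon ⟨i, hi, hh.1, hh.2⟩
      rcases wi_five hcon' with ⟨i, j, k, hij, hjk, hk, ⟨b1, a1, a2, a3⟩, ⟨b2, c1, c2, c3⟩,
        ⟨b3, d1, d2, d3⟩⟩ | ⟨i, j, k, hij, hjk, hk, ⟨b1, a1, a2, a3⟩, ⟨b2, c1, c2, c3⟩,
        ⟨b3, d1, d2, d3⟩⟩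
      · exact deg_le_two g hx (i := b1) (j := b2) (k := b3) (by omega) (by omega) (by omega) a3 c3 d3
      · exact zero_le_two g hx hT (by omega) (i := b1) (j := b2) (k := b3) (by omega) (by omega)
          (by omega) a3 c3 d3
    obtain ⟨i, hi, hP, hQ⟩ := h1
    obtain ⟨h3, kp, hkp, h4, h5⟩ := one_run g hx (11 * i + 1) (by omega)
      (wi_clean g (by omega) hP hQ)
    exact ⟨kp, hkp, struct_b g hx h3 hkp h4 h5⟩

private theorem wi_card {A : Finset ℕ} (h : ∀ i ∈ A, ∀ j ∈ A, ∀ k ∈ A, i < j → j < k → False) :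
    A.card ≤ 2 := by
  by_contra hcon
  have hc : 3 ≤ A.card := by omega
  let e := A.orderEmbOfFin rfl
  have m0 : e ⟨0, by omega⟩ ∈ A := Finset.orderEmbOfFin_mem A rfl _
  have m1 : e ⟨1, by omega⟩ ∈ A := Finset.orderEmbOfFin_mem A rfl _
  have m2 : e ⟨2, by omega⟩ ∈ A := Finset.orderEmbOfFin_mem A rfl _
  exact h _ m0 _ m1 _ m2 (e.strictMono (by simp [Fin.lt_def])) (e.strictMono (by simp [Fin.lt_def]))

theorem normal_card (g : Strip F m) (hx : g.x ≠ 1 ∨ g.x' ≠ 1) (hm : 55 ≤ m) :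
    ∃ kp : F, kp ≠ 0 ∧ ∃ S : Finset ℕ, 18 ≤ S.card ∧ ∀ k ∈ S, k + 2 < m ∧
      g.Normal kp k ∧ g.Normal kp (k + 1) ∧ g.Normal kp (k + 2) := by
  classical
  obtain ⟨kp, hkp, h⟩ := wi_kp g hx hm
  refine ⟨kp, hkp, ?_⟩
  obtain ⟨D, hD⟩ : ∃ D : Finset ℕ, D = (Finset.range m).filter (fun k => g.kap k = 0) := ⟨_, rfl⟩
  obtain ⟨E, hE⟩ : ∃ E : Finset ℕ, E = (Finset.range m).filter
    (fun k => g.Good k ∧ g.s k ≠ kp * g.t ^ k) := ⟨_, rfl⟩
  have cD : D.card ≤ 2 := by
    apply wi_card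
    intro i hi j hj k hk hij hjk
    rw [hD, Finset.mem_filter, Finset.mem_range] at hi hj hk
    exact deg_le_two g hx hij hjk hk.1 hi.2 hj.2 hk.2
  have cE : E.card ≤ 2 := by
    apply wi_card
    intro i hi j hj k hk hij hjk
    rw [hE, Finset.mem_filter, Finset.mem_range] at hi hj hk
    rcases h i j k hij hjk (by omega) hi.2.1 hj.2.1 hk.2.1 with h' | h' | h'
    · exact hi.2.2 h'
    · exact hj.2.2 h'
    · exact hk.2.2 h'
  have nD : ∀ k, k < m → k ∉ D → g.kap k ≠ 0 := by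
    intro k hk hkD h0
    apply hkD
    rw [hD, Finset.mem_filter, Finset.mem_range]
    exact ⟨hk, h0⟩
  obtain ⟨Bd, hBd⟩ : ∃ Bd : Finset ℕ, Bd = D ∪ D.image (fun a => a + 1) ∪ D.image (fun a => a - 1) ∪
    D.image (fun a => a - 2) ∪ E ∪ E.image (fun a => a - 1) ∪ E.image (fun a => a - 2) := ⟨_, rfl⟩
  have cB : Bd.card ≤ 14 := by
    rw [hBd]
    refine (Finset.card_union_le _ _).trans ?_
    have c7 := (Finset.card_image_le (s := E) (f := fun a => a - 2))
    have c6 := (Finset.card_image_le (s := E) (f := fun a => a - 1))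
    have c4 := (Finset.card_image_le (s := D) (f := fun a => a - 2))
    have c3 := (Finset.card_image_le (s := D) (f := fun a => a - 1))
    have c2 := (Finset.card_image_le (s := D) (f := fun a => a + 1))
    have d5 := Finset.card_union_le (D ∪ D.image (fun a => a + 1) ∪ D.image (fun a => a - 1) ∪
      D.image (fun a => a - 2) ∪ E) (E.image (fun a => a - 1))
    have d4 := Finset.card_union_le (D ∪ D.image (fun a => a + 1) ∪ D.image (fun a => a - 1) ∪
      D.image (fun a => a - 2)) E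
    have d3 := Finset.card_union_le (D ∪ D.image (fun a => a + 1) ∪ D.image (fun a => a - 1))
      (D.image (fun a => a - 2))
    have d2 := Finset.card_union_le (D ∪ D.image (fun a => a + 1)) (D.image (fun a => a - 1))
    have d1 := Finset.card_union_le D (D.image (fun a => a + 1))
    omega
  refine ⟨(Finset.Icc 1 (m - 3)) \ Bd, ?_, ?_⟩
  · have e1 := Finset.le_card_sdiff Bd (Finset.Icc 1 (m - 3))
    rw [Nat.card_Icc] at e1
    omega
  · intro k hk
    rw [Finset.mem_sdiff, Finset.mem_Icc] at hk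
    obtain ⟨⟨hk1, hk2⟩, hkB⟩ := hk
    rw [hBd] at hkB
    simp only [Finset.mem_union, Finset.mem_image, not_or, not_exists, not_and] at hkB
    obtain ⟨⟨⟨⟨⟨⟨b0, b1⟩, b2⟩, b3⟩, b4⟩, b5⟩, b6⟩ := hkB
    have k0 : g.kap (k - 1) ≠ 0 := nD _ (by omega) (fun hh => b1 _ hh (by omega))
    have k1 : g.kap k ≠ 0 := nD _ (by omega) b0
    have k2 : g.kap (k + 1) ≠ 0 := nD _ (by omega) (fun hh => b2 _ hh (by omega))
    have k3 : g.kap (k + 2) ≠ 0 := nD _ (by omega) (fun hh => b3 _ hh (by omega))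
    have nE : ∀ j, j < m → j ∉ E → g.Good j → g.s j = kp * g.t ^ j := by
      intro j hj hjE hg
      by_contra hh
      apply hjE
      rw [hE, Finset.mem_filter, Finset.mem_range]
      exact ⟨hj, hg, hh⟩
    refine ⟨by omega, ⟨nE k (by omega) b4 ⟨hk1, k0, k1⟩, k1⟩,
      ⟨nE (k + 1) (by omega) (fun hh => b5 _ hh (by omega)) ⟨by omega, by simpa using k1, k2⟩, k2⟩,
      ⟨nE (k + 2) (by omega) (fun hh => b6 _ hh (by omega)) ⟨by omega, by simpa using k2, k3⟩, k3⟩⟩

end Pool.Agent.Helper31.IPF
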